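import Pool.Agent.H483R3.Cyc.AsmL

set_option autoImplicit false

open MeasureTheory ProbabilityTheory Filter Topology Finset

namespace H483C.Asm

/-- conclusion of `TaskLink` -/
def LinkC : Prop := ∀ (N s : ℕ) (x0 : Conf (Fin (N + 3)) s),
  0 < total x0 → ∀ (Ω : Type) (m : MeasurableSpace Ω) (μ : Measure Ω)
    (_ : IsProbabilityMeasure μ) (ℱ : Filtration ℕ m) (X : ℕ → Ω → Conf (Fin (N + 3)) s)
    (c : ℕ → Ω → Fin (N + 3)), IsUrn (SimpleGraph.cycleGraph (N + 3)) x0 μ ℱ X c →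
    ∀ t0 e : ℕ, ∃ (ℱ' : Filtration ℕ m) (a : ℕ → Set Ω) (Y : ℕ → Ω → Fin (N + 3) → ℤ)
      (c' : ℕ → Ω → Fin (N + 3)), IsLin ((-1) ^ e) μ ℱ' a Y c' ∧
      ∀ ω, (∀ t, t0 ≤ t → E (X t ω) = e) → (∀ n, ω ∈ a n) ∧
        ∀ n, ∃ σ : Fin (N + 3) → ℤ, Sg ((-1) ^ e) (X (t0 + n) ω) σ ∧
          ∀ v, Y n ω v = σ v * ((X (t0 + n) ω v).1 : ℤ)

lemma E_zero_of_pos {N s : ℕ} {x : Conf (Fin (N + 3)) s} {σ y : Fin (N + 3) → ℤ}
    (hS : Sg 1 x σ) (hy : ∀ v, y v = σ v * ((x v).1 : ℤ))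
    (h : (∀ v, 0 < y v) ∨ (∀ v, y v < 0)) : E x = 0 := by
  unfold E
  rw [Finset.card_eq_zero, Finset.filter_eq_empty_iff]
  intro i _
  rw [not_not]
  refine (hS.2 i).1 ?_
  have hw : wt (1 : ℤ) i = 1 := by unfold wt; split_ifs <;> rfl
  rw [hw, one_mul]
  have key : ∀ v, σ v = 1 ∨ σ v = -1 := hS.1
  rcases h with h | h
  · have hs : ∀ v, σ v = 1 := by
      intro v
      rcases key v with h1 | h1
      · exact h1
      · exfalso
        have := h v
        rw [hy v, h1] at this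
        have h2 : (0 : ℤ) ≤ ((x v).1 : ℤ) := Int.natCast_nonneg _
        linarith
    rw [hs, hs]; rfl
  · have hs : ∀ v, σ v = -1 := by
      intro v
      rcases key v with h1 | h1
      · exfalso
        have := h v
        rw [hy v, h1] at this
        have h2 : (0 : ℤ) ≤ ((x v).1 : ℤ) := Int.natCast_nonneg _
        linarith
      · exact h1
    rw [hs, hs]; rfl

lemma E_eq_card {N s : ℕ} {θ : ℤ} {x : Conf (Fin (N + 3)) s} {σ : Fin (N + 3) → ℤ}
    (hS : Sg θ x σ) :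
    E x = (Finset.univ.filter (fun i => wt θ i * σ i * σ (i + 1) ≠ 1)).card := by
  unfold E
  congr 1
  apply Finset.filter_congr
  intro i _
  exact not_congr (hS.2 i).symm

lemma eventually_const (f : ℕ → ℕ) (hf : ∀ n, f (n + 1) ≤ f n) :
    ∃ t0 e, ∀ t, t0 ≤ t → f t = e := by
  have hanti : Antitone f := antitone_nat_of_succ_le hf
  have hne : (Set.range f).Nonempty := ⟨f 0, 0, rfl⟩
  obtain ⟨n, hn⟩ := Nat.sInf_mem hne
  refine ⟨n, f n, fun t ht => le_antisymm (hanti ht) ?_⟩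
  rw [hn]
  exact Nat.sInf_le ⟨t, rfl⟩

lemma total_pos_of {V : Type} [Fintype V] {s : ℕ} {x : Conf V s} {v : V} (h : 0 < (x v).1) :
    0 < total x := by
  unfold total
  exact Finset.sum_pos' (fun _ _ => Nat.zero_le _) ⟨v, Finset.mem_univ _, h⟩

lemma e_zero (hL : TaskL) (hEs : TaskESmall) (hS1 : TaskSpec1) (hS2 : TaskSpec2)
    (hP1 : TaskPat1) (hP2 : TaskPat2) (hK : LinkC) (N s : ℕ) (x0 : Conf (Fin (N + 3)) s)
    (hx0 : 0 < total x0) (Ω : Type) (m : MeasurableSpace Ω) (μ : Measure Ω)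
    (hμ : IsProbabilityMeasure μ) (ℱ : Filtration ℕ m) (X : ℕ → Ω → Conf (Fin (N + 3)) s)
    (c : ℕ → Ω → Fin (N + 3)) (hU : IsUrn (SimpleGraph.cycleGraph (N + 3)) x0 μ ℱ X c)
    (t0 e : ℕ) : ∀ᵐ ω ∂μ, (∀ t, t0 ≤ t → E (X t ω) = e) → e = 0 := by
  obtain ⟨ℱ', a, Y, c', hlin, hco⟩ := hK N s x0 hx0 Ω m μ hμ ℱ X c hU t0 e
  rcases Nat.even_or_odd e with he | he
  · have hθ : ((-1 : ℤ)) ^ e = 1 := he.neg_one_pow
    rw [hθ] at hlin
    obtain ⟨lam2, hsp⟩ := hS1 N
    obtain ⟨ε, hε, hpat⟩ := hP1 N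
    have := hL N 1 (Or.inl rfl) 2 _ _ _ lam2 hsp Ω m μ hμ ℱ' a Y c' hlin ε hε
    filter_upwards [this] with ω hω hcon
    obtain ⟨hact, hsg⟩ := hco ω hcon
    obtain ⟨n, hn1, hn2⟩ := (hω hact).exists
    obtain ⟨σ, hσ, hy⟩ := hsg n
    rw [hθ] at hσ
    rw [← hcon (t0 + n) (Nat.le_add_right _ _)]
    exact E_zero_of_pos hσ hy (hpat (Y n ω) hn1 hn2)
  · have hθ : ((-1 : ℤ)) ^ e = -1 := he.neg_one_pow
    rw [hθ] at hlin
    rcases Nat.eq_zero_or_pos N with hN | hN
    · subst hN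
      refine Filter.Eventually.of_forall (fun ω hcon => ?_)
      exfalso
      have hle : e ≤ 3 := by
        rw [← hcon t0 le_rfl]
        unfold E
        exact (Finset.card_le_univ _).trans (by simp)
      have hne1 : e ≠ 1 := by
        rw [← hcon t0 le_rfl]
        exact hEs.1 0 s _
      have he3 : e = 3 := by
        rcases he with ⟨r, hr⟩
        omega
      subst he3
      have hdec : ∀ n, total (X (t0 + (n + 1)) ω) + 2 ≤ total (X (t0 + n) ω) := by
        intro n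
        have h1 := hU.next (t0 + n) ω
        have h2 := hEs.2.2 s (X (t0 + n) ω) (c (t0 + n) ω)
          (hcon _ (Nat.le_add_right _ _)) (hU.ball _ _)
          (by
            have h3 := hcon (t0 + n + 1) (by omega)
            rw [h1] at h3
            exact h3)
        have h4 : t0 + (n + 1) = t0 + n + 1 := by omega
        rw [h4, h1]
        exact h2
      have hall : ∀ n, total (X (t0 + n) ω) + 2 * n ≤ total (X t0 ω) := by
        intro n
        induction n with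
        | zero => simp
        | succ n ih =>
          have := hdec n
          omega
      have := hall (total (X t0 ω) + 1)
      omega
    · obtain ⟨lam2, hsp⟩ := hS2 N hN
      obtain ⟨ε, hε, hpat⟩ := hP2 N
      have := hL N (-1) (Or.inr rfl) _ _ _ _ lam2 hsp Ω m μ hμ ℱ' a Y c' hlin ε hε
      filter_upwards [this] with ω hω hcon
      exfalso
      obtain ⟨hact, hsg⟩ := hco ω hcon
      obtain ⟨n, hn1, hn2⟩ := (hω hact).exists
      obtain ⟨σ, hσ, hy⟩ := hsg n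
      rw [hθ] at hσ
      have hsgn : ∀ i, Y n ω i ≠ 0 → σ i = (Y n ω i).sign := by
        intro i hi
        have hyi := hy i
        have hn0 : (X (t0 + n) ω i).1 ≠ 0 := by
          intro h0
          apply hi
          rw [hyi, h0]
          simp
        have hnpos : (0 : ℤ) < ((X (t0 + n) ω i).1 : ℤ) := by
          exact_mod_cast Nat.pos_of_ne_zero hn0
        rw [hyi, Int.sign_mul, Int.sign_eq_one_of_pos hnpos, mul_one]
        rcases hσ.1 i with h | h <;> rw [h] <;> rfl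
      have hcard := hpat (Y n ω) σ hσ.1 hsgn hn1 hn2
      rw [← E_eq_card hσ, hcon (t0 + n) (Nat.le_add_right _ _)] at hcard
      have hne1 : e ≠ 1 := by
        rw [← hcon t0 le_rfl]
        exact hEs.1 N s _
      rcases he with ⟨r, hr⟩
      omega

lemma step_col {N s : ℕ} {x : Conf (Fin (N + 3)) s} {v : Fin (N + 3)} {g : Fin s}
    (h : ∀ u, (x u).2 = g) (u : Fin (N + 3)) :
    (step (SimpleGraph.cycleGraph (N + 3)) x v u).2 = g := by
  unfold step
  split_ifs <;> simp [h]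

theorem final (hL : TaskL) (hE : TaskE) (hEs : TaskESmall) (hS1 : TaskSpec1)
    (hS2 : TaskSpec2) (hP1 : TaskPat1) (hP2 : TaskPat2) (hK : LinkC) :
    ∀ s k : ℕ, 3 ≤ k → InClass s (SimpleGraph.cycleGraph k) := by
  intro s k hk
  obtain ⟨N, rfl⟩ : ∃ N, k = N + 3 := ⟨k - 3, by omega⟩
  intro x0 hx0 Ω m μ hμ ℱ X c hU
  have hall : ∀ᵐ ω ∂μ, ∀ t0 e, (∀ t, t0 ≤ t → E (X t ω) = e) → e = 0 := by
    rw [ae_all_iff]
    intro t0
    rw [ae_all_iff]
    intro e
    exact e_zero hL hEs hS1 hS2 hP1 hP2 hK N s x0 hx0 Ω m μ hμ ℱ X c hU t0 e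
  filter_upwards [hall] with ω hω
  obtain ⟨t0, e, hcon⟩ := eventually_const (fun t => E (X t ω)) (fun n => by
    show E (X (n + 1) ω) ≤ E (X n ω)
    rw [hU.next n ω]
    exact hE N s _ _)
  have he := hω t0 e hcon
  subst he
  have hcol : ∀ n u, (X (t0 + n) ω u).2 = (X t0 ω 0).2 := by
    intro n
    induction n with
    | zero => intro u; exact hEs.2.1 N s _ (hcon t0 le_rfl) u 0
    | succ n ih =>
      intro u
      have h4 : t0 + (n + 1) = t0 + n + 1 := by omega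
      rw [h4, hU.next]
      exact step_col ih u
  refine ⟨(X t0 ω 0).2, ?_, ?_⟩
  · show Survives X ω (X t0 ω 0).2
    unfold Survives
    rw [Filter.frequently_atTop]
    intro b
    refine ⟨t0 + b, by omega, c (t0 + b) ω, (hU.ball _ _).ne', hcol b _⟩
  · intro i hi
    unfold Survives at hi
    rw [Filter.frequently_atTop] at hi
    obtain ⟨n, hn, v, _, hv⟩ := hi t0
    obtain ⟨r, rfl⟩ := Nat.exists_eq_add_of_le hn
    rw [← hv, hcol r v]

end H483C.Asm
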