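import Pool.Agent.H483R3.Cyc.Stmts

set_option autoImplicit false

open MeasureTheory ProbabilityTheory Filter Topology Finset

namespace H483C.Asm

lemma gn_pos {N : ℕ} {lam : ℝ} (hl : 1 < lam) {Ω : Type} {a : ℕ → Set Ω}
    {Y : ℕ → Ω → Fin (N + 3) → ℤ} (hpos : ∀ n ω, 1 ≤ Sn (Y n ω)) (n : ℕ) (ω : Ω) :
    0 < Gn lam a Y n ω := by
  unfold Gn
  refine Finset.prod_pos (fun i _ => ?_)
  have : 0 ≤ (a i).indicator (fun ω => 2 * lam / Sn (Y i ω)) ω := by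
    apply Set.indicator_nonneg
    intro ω _
    have := hpos i ω
    positivity
  linarith

lemma sn_meas {N : ℕ} {Ω : Type} {m : MeasurableSpace Ω} {Y : Ω → Fin (N + 3) → ℤ}
    (h : ∀ v, Measurable[m] (fun ω => Y ω v)) : Measurable[m] (fun ω => Sn (Y ω)) := by
  unfold Sn
  refine Finset.measurable_sum _ (fun v _ => ?_)
  have h1 : Measurable[m] (fun ω => ((Y ω v : ℤ) : ℝ)) :=
    (measurable_from_top (f := fun z : ℤ => (z : ℝ))).comp (h v)
  exact measurable_norm.comp h1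

lemma dq_meas {N : ℕ} {Ω : Type} {m : MeasurableSpace Ω} (p q : Fin (N + 3) → ℝ)
    {Y : Ω → Fin (N + 3) → ℤ}
    (h : ∀ v, Measurable[m] (fun ω => Y ω v)) : Measurable[m] (fun ω => Dq p q (Y ω)) := by
  unfold Dq
  have h1 : ∀ v, Measurable[m] (fun ω => ((Y ω v : ℤ) : ℝ)) := fun v =>
    (measurable_from_top (f := fun z : ℤ => (z : ℝ))).comp (h v)
  have h2 : ∀ p : Fin (N + 3) → ℝ, Measurable[m] (fun ω => ∑ v, p v * ((Y ω v : ℤ) : ℝ)) :=
    fun p => Finset.measurable_sum _ (fun v _ => (h1 v).const_mul (p v))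
  exact ((h2 p).pow_const 2).add ((h2 q).pow_const 2)

lemma gn_meas {N : ℕ} {lam : ℝ} {Ω : Type} {m : MeasurableSpace Ω} {ℱ : Filtration ℕ m}
    {a : ℕ → Set Ω} {Y : ℕ → Ω → Fin (N + 3) → ℤ} (ha : ∀ n, MeasurableSet[ℱ n] (a n))
    (hY : ∀ n v, Measurable[ℱ n] (fun ω => Y n ω v)) (n : ℕ) :
    Measurable[ℱ n] (Gn lam a Y n) := by
  unfold Gn
  refine Finset.measurable_prod _ (fun i hi => ?_)
  have hin : ℱ i ≤ ℱ n := ℱ.mono (Finset.mem_range.1 hi).le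
  refine Measurable.mono ?_ hin le_rfl
  refine measurable_const.add ?_
  refine Measurable.indicator ?_ (ha i)
  exact measurable_const.div (sn_meas (hY i))

theorem taskL (hG : TaskG) (hM : TaskMom) (hDc : TaskDconv) (hRz : TaskRzero) (h1 : TaskM1)
    (h2 : TaskM2) (hPZ : TaskPZ) : TaskL := by
  intro N θ hθ lam p q κ lam2 hS Ω m μ hμ ℱ a Y c hL ε hε
  obtain ⟨c1, hc1, H1⟩ := h1 hG hM N θ hθ lam p q κ lam2 hS
  obtain ⟨C2, hC2, H2⟩ := h2 hG hM N θ hθ lam p q κ lam2 hS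
  have hd := hDc hG hM N θ hθ lam p q κ lam2 hS Ω m μ hμ ℱ a Y c hL
  have hr := hRz hG hM N θ hθ lam p q κ lam2 hS Ω m μ hμ ℱ a Y c hL
  have hGpos := fun n ω => gn_pos (a := a) hS.h1 hL.pos n ω
  have hD0 : ∀ n ω, 0 ≤ Dq p q (Y n ω) := fun n ω => by unfold Dq; positivity
  have hnz := hPZ Ω m μ hμ ℱ a (fun n ω => Dq p q (Y n ω) / Gn lam a Y n ω)
    (Hn lam p q a Y) c1 C2 hc1 hC2 hL.ameas
    (fun n => (dq_meas p q (hL.ymeas n)).div (gn_meas hL.ameas hL.ymeas n))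
    (fun n => ((dq_meas p q (hL.ymeas n)).add (sn_meas (hL.ymeas n))).div
      (gn_meas hL.ameas hL.ymeas n))
    (fun n ω => div_nonneg (hD0 n ω) (hGpos n ω).le)
    (fun n ω => by
      have := hL.pos n ω
      have := hD0 n ω
      unfold Hn
      exact div_pos (by linarith) (hGpos n ω))
    hd (fun t B hB => H1 Ω m μ hμ ℱ a Y c hL t B hB)
    (fun t n B htn hB => H2 Ω m μ hμ ℱ a Y c hL t n B htn hB)
  filter_upwards [hd, hr, hnz] with ω hdω hrω hnzω hact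
  obtain ⟨d, hdl⟩ := hdω
  have hrl := hrω hact
  have hd0 : 0 ≤ d := ge_of_tendsto' hdl (fun n => div_nonneg (hD0 n ω) (hGpos n ω).le)
  have hdne : d ≠ 0 := by
    intro h
    rw [h] at hdl
    exact hnzω hact hdl
  have hdpos : 0 < d := lt_of_le_of_ne hd0 (Ne.symm hdne)
  have e1 : ∀ᶠ n in atTop, d / 2 < Dq p q (Y n ω) / Gn lam a Y n ω :=
    hdl.eventually (lt_mem_nhds (by linarith))
  have e2 : ∀ᶠ n in atTop, Rq p q κ (Y n ω) / Gn lam a Y n ω < ε * (d / 2) :=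
    hrl.eventually (gt_mem_nhds (by positivity))
  filter_upwards [e1, e2] with n h1n h2n
  have hg := hGpos n ω
  have h1' : d / 2 * Gn lam a Y n ω < Dq p q (Y n ω) := (lt_div_iff₀ hg).1 h1n
  have h2' : Rq p q κ (Y n ω) < ε * (d / 2) * Gn lam a Y n ω := (div_lt_iff₀ hg).1 h2n
  constructor
  · nlinarith [mul_pos (half_pos hdpos) hg]
  · nlinarith

end H483C.Asm
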