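import Pool.Agent.H483R3.Cyc.Stmts

set_option autoImplicit false

/-! Project H483-CYC, TaskDconv: `D_n / G_n` converges almost surely. -/

open MeasureTheory ProbabilityTheory Filter Topology Finset

namespace H483C.Dconv

theorem Dq_nonneg {N : ℕ} (p q : Fin (N + 3) → ℝ) (y : Fin (N + 3) → ℤ) : 0 ≤ Dq p q y := by
  unfold Dq
  positivity

theorem Gn_succ {N : ℕ} (lam : ℝ) {Ω : Type} (a : ℕ → Set Ω)
    (Y : ℕ → Ω → Fin (N + 3) → ℤ) (n : ℕ) (ω : Ω) :
    Gn lam a Y (n + 1) ω =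
      Gn lam a Y n ω * (1 + (a n).indicator (fun ω => 2 * lam / Sn (Y n ω)) ω) := by
  unfold Gn
  rw [Finset.prod_range_succ]

theorem Gn_zero {N : ℕ} (lam : ℝ) {Ω : Type} (a : ℕ → Set Ω)
    (Y : ℕ → Ω → Fin (N + 3) → ℤ) (ω : Ω) : Gn lam a Y 0 ω = 1 := by
  unfold Gn
  simp

theorem meas_aux {N : ℕ} {Ω : Type} [MeasurableSpace Ω] (y : Ω → Fin (N + 3) → ℤ)
    (h : ∀ v, Measurable (fun ω => y ω v)) (f : (Fin (N + 3) → ℤ) → ℝ) :
    Measurable (fun ω => f (y ω)) := by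
  have h1 : Measurable f := measurable_of_countable f
  have h2 : Measurable y := measurable_pi_lambda _ h
  exact h1.comp h2

section

variable {N : ℕ} {θ : ℤ} {Ω : Type} {m : MeasurableSpace Ω} {μ : Measure Ω}
    {ℱ : Filtration ℕ m} {a : ℕ → Set Ω} {Y : ℕ → Ω → Fin (N + 3) → ℤ}
    {c : ℕ → Ω → Fin (N + 3)}

/-- functions of `Y n` are measurable -/
theorem meas_fun (hL : IsLin θ μ ℱ a Y c) (f : (Fin (N + 3) → ℤ) → ℝ) (n : ℕ) :
    Measurable[ℱ n] (fun ω => f (Y n ω)) :=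
  @meas_aux N Ω (ℱ n) (Y n) (hL.ymeas n) f

/-- `G (n+1)` is known at time `n` -/
theorem meas_Gn_succ (hL : IsLin θ μ ℱ a Y c) (lam : ℝ) (n : ℕ) :
    Measurable[ℱ n] (fun ω => Gn lam a Y (n + 1) ω) := by
  unfold Gn
  refine Finset.measurable_prod _ fun i hi => ?_
  have hi' : i ≤ n := Nat.lt_succ_iff.1 (Finset.mem_range.1 hi)
  have h1 : Measurable[ℱ i] (fun ω => 2 * lam / Sn (Y i ω)) :=
    meas_fun hL (fun y => 2 * lam / Sn y) i
  have h2 : Measurable[ℱ i] ((a i).indicator (fun ω => 2 * lam / Sn (Y i ω))) :=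
    h1.indicator (hL.ameas i)
  have h3 : Measurable[ℱ n] ((a i).indicator (fun ω => 2 * lam / Sn (Y i ω))) :=
    h2.mono (ℱ.mono hi') le_rfl
  exact measurable_const.add h3

theorem meas_Gn (hL : IsLin θ μ ℱ a Y c) (lam : ℝ) (n : ℕ) :
    Measurable[ℱ n] (fun ω => Gn lam a Y n ω) := by
  cases n with
  | zero =>
    have h : (fun ω => Gn lam a Y 0 ω) = fun _ => (1 : ℝ) := funext fun ω => Gn_zero lam a Y ω
    rw [h]
    exact measurable_const
  | succ n => exact (meas_Gn_succ hL lam n).mono (ℱ.mono (Nat.le_succ n)) le_rfl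

theorem meas_D (hL : IsLin θ μ ℱ a Y c) (p q : Fin (N + 3) → ℝ) (n : ℕ) :
    Measurable[ℱ n] (fun ω => Dq p q (Y n ω)) := meas_fun hL _ n

end

theorem t : TaskDconv := by
  intro hG hM N θ hθ lam p q κ lam2 hS Ω m μ hμ ℱ a Y c hL
  obtain ⟨ρ, C, c0, hρ, hC, hc0, hsum, hrest⟩ := hG θ hθ lam hS.h1 hS.h2
  obtain ⟨hstep, hG1, hGmono, hgrow, -⟩ := hrest N Ω m μ ℱ a Y c hL
  obtain ⟨C1, hC1, hmom⟩ := hM N θ hθ lam p q κ lam2 hS
  have hmom' := hmom Ω m μ hμ ℱ a Y c hL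
  obtain ⟨K, hK⟩ := hL.bdd
  have hGpos : ∀ n ω, 0 < Gn lam a Y n ω := fun n ω => lt_of_lt_of_le one_pos (hG1 n ω)
  have hSpos : ∀ n ω, 0 < Sn (Y n ω) := fun n ω => lt_of_lt_of_le one_pos (hL.pos n ω)
  have hlam : 0 < lam := lt_trans one_pos hS.h1
  set Z : ℕ → Ω → ℝ := fun n ω => Dq p q (Y n ω) / Gn lam a Y n ω with hZ
  set W : ℕ → Ω → ℝ := fun n ω => (a n).indicator (fun ω => 1 / Gn lam a Y (n + 1) ω) ω with hW
  have hZ0 : ∀ n ω, 0 ≤ Z n ω := fun n ω => div_nonneg (Dq_nonneg _ _ _) (hGpos n ω).le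
  have hW0 : ∀ n ω, 0 ≤ W n ω := fun n ω =>
    Set.indicator_nonneg (fun ω _ => (one_div_pos.2 (hGpos (n + 1) ω)).le) ω
  have hW1 : ∀ n ω, W n ω ≤ 1 := by
    intro n ω
    simp only [hW]
    by_cases h : ω ∈ a n
    · rw [Set.indicator_of_mem h, div_le_one (hGpos (n + 1) ω)]
      exact hG1 (n + 1) ω
    · rw [Set.indicator_of_notMem h]
      exact zero_le_one
  have hZmeas : ∀ n, Measurable[ℱ n] (Z n) := fun n => (meas_D hL p q n).div (meas_Gn hL lam n)
  have hWmeas : ∀ n, Measurable[ℱ n] (W n) := fun n =>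
    Measurable.indicator (measurable_const.div (meas_Gn_succ hL lam n)) (hL.ameas n)
  have hZint : ∀ n, Integrable (Z n) μ := by
    intro n
    refine Integrable.mono (hmom' n).1 ((hZmeas n).mono (ℱ.le n) le_rfl).aestronglyMeasurable ?_
    refine Eventually.of_forall fun ω => ?_
    rw [Real.norm_of_nonneg (hZ0 n ω), Real.norm_of_nonneg (Dq_nonneg _ _ _)]
    exact div_le_self (Dq_nonneg _ _ _) (hG1 n ω)
  have hWint : ∀ n, Integrable (W n) μ := by
    intro n
    refine Integrable.mono (integrable_const (1 : ℝ))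
      ((hWmeas n).mono (ℱ.le n) le_rfl).aestronglyMeasurable ?_
    refine Eventually.of_forall fun ω => ?_
    rw [Real.norm_of_nonneg (hW0 n ω), norm_one]
    exact hW1 n ω
  -- the conditional expectation
  have hcond : ∀ n, μ[Z (n + 1) | ℱ n] =ᵐ[μ] fun ω => Z n ω + lam ^ 2 * W n ω := by
    intro n
    have hgm : StronglyMeasurable[ℱ n] (fun ω => 1 / Gn lam a Y (n + 1) ω) :=
      (measurable_const.div (meas_Gn_succ hL lam n)).stronglyMeasurable
    have e : Z (n + 1) = (fun ω => Dq p q (Y (n + 1) ω)) *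
        (fun ω => 1 / Gn lam a Y (n + 1) ω) := by
      funext ω
      simp only [hZ, Pi.mul_apply]
      rw [mul_one_div]
    have h1 := condExp_mul_of_stronglyMeasurable_right (μ := μ) (m := ℱ n)
      (f := fun ω => Dq p q (Y (n + 1) ω)) hgm (e ▸ hZint (n + 1)) (hmom' (n + 1)).1
    rw [e]
    filter_upwards [h1, (hmom' n).2.2.2.1] with ω h2 h3
    rw [h2, Pi.mul_apply, h3]
    have hg := hGpos n ω
    have hs := hSpos n ω
    by_cases h : ω ∈ a n
    · simp only [hZ, hW]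
      rw [Gn_succ, Set.indicator_of_mem h, Set.indicator_of_mem h, Set.indicator_of_mem h,
        Gn_succ, Set.indicator_of_mem h]
      have h5 : 0 < 1 + 2 * lam / Sn (Y n ω) := by positivity
      have h6 : Dq p q (Y n ω) + (2 * lam * Dq p q (Y n ω) / Sn (Y n ω) + lam ^ 2) =
        Dq p q (Y n ω) * (1 + 2 * lam / Sn (Y n ω)) + lam ^ 2 := by ring
      rw [h6, add_mul]
      congr 1
      · rw [mul_one_div, mul_div_mul_right _ _ h5.ne']
    · simp only [hZ, hW]
      rw [Gn_succ, Set.indicator_of_notMem h, Set.indicator_of_notMem h,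
        Set.indicator_of_notMem h, add_zero, add_zero, mul_one, mul_zero, add_zero, mul_one_div]
  have hsub : Submartingale Z ℱ μ := by
    refine submartingale_nat (fun n => (hZmeas n).stronglyMeasurable) hZint fun n => ?_
    filter_upwards [hcond n] with ω h
    rw [h]
    have := mul_nonneg (sq_nonneg lam) (hW0 n ω)
    linarith
  -- the sum of the increments
  have hWsum : ∀ n ω, ∑ i ∈ range n, W i ω ≤ C * K := by
    intro n ω
    have h1 : ∑ i ∈ range n, W i ω ≤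
        ∑ j ∈ range n, (1 + 2 * ((j : ℝ) + 1) / Sn (Y 0 ω)) ^ (-ρ) := by
      refine Finset.sum_le_sum fun i _ => ?_
      have hb : 0 < 1 + 2 * ((i : ℝ) + 1) / Sn (Y 0 ω) := by
        have := hSpos 0 ω
        positivity
      simp only [hW]
      by_cases h : ω ∈ a i
      · rw [Set.indicator_of_mem h]
        have h2 := hgrow 0 i (Nat.zero_le i) ω h
        rw [Gn_zero, one_mul, Nat.sub_zero] at h2
        rw [Real.rpow_neg hb.le, one_div]
        exact inv_anti₀ (Real.rpow_pos_of_pos hb _) h2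
      · rw [Set.indicator_of_notMem h]
        exact (Real.rpow_pos_of_pos hb _).le
    exact h1.trans ((hsum (Sn (Y 0 ω)) n (hL.pos 0 ω)).trans
      (mul_le_mul_of_nonneg_left (hK ω) hC.le))
  have hint : ∀ n, ∫ ω, Z n ω ∂μ = ∫ ω, Z 0 ω ∂μ + lam ^ 2 * ∫ ω, ∑ i ∈ range n, W i ω ∂μ := by
    intro n
    induction n with
    | zero => simp
    | succ n ih =>
      have h1 : ∫ ω, Z (n + 1) ω ∂μ = ∫ ω, (Z n ω + lam ^ 2 * W n ω) ∂μ := by
        rw [← integral_condExp (ℱ.le n) (f := Z (n + 1))]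
        exact integral_congr_ae (hcond n)
      rw [h1, integral_add (hZint n) ((hWint n).const_mul _), ih, integral_const_mul]
      have h2 : ∫ ω, ∑ i ∈ range (n + 1), W i ω ∂μ =
          ∫ ω, ∑ i ∈ range n, W i ω ∂μ + ∫ ω, W n ω ∂μ := by
        simp only [Finset.sum_range_succ]
        exact integral_add (integrable_finsetSum _ fun i _ => hWint i) (hWint n)
      rw [h2]
      ring
  have hbound : ∀ n, ∫ ω, Z n ω ∂μ ≤ ∫ ω, Z 0 ω ∂μ + lam ^ 2 * (C * K) := by
    intro n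
    rw [hint n]
    have h1 : ∫ ω, ∑ i ∈ range n, W i ω ∂μ ≤ ∫ _, C * K ∂μ :=
      integral_mono (integrable_finsetSum _ fun i _ => hWint i) (integrable_const _)
        (fun ω => hWsum n ω)
    have h2 : ∫ _, C * K ∂μ = C * K := by simp
    rw [h2] at h1
    have := mul_le_mul_of_nonneg_left h1 (sq_nonneg lam)
    linarith
  set R : ℝ := ∫ ω, Z 0 ω ∂μ + lam ^ 2 * (C * K) with hR
  refine hsub.exists_ae_tendsto_of_bdd (R := R.toNNReal) fun n => ?_
  rw [eLpNorm_one_eq_lintegral_enorm]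
  have h1 : ∫⁻ ω, ‖Z n ω‖ₑ ∂μ = ENNReal.ofReal (∫ ω, Z n ω ∂μ) := by
    rw [ofReal_integral_eq_lintegral_ofReal (hZint n) (Eventually.of_forall (hZ0 n))]
    refine lintegral_congr fun ω => ?_
    rw [Real.enorm_eq_ofReal (hZ0 n ω)]
  rw [h1]
  exact ENNReal.ofReal_le_ofReal (hbound n)

end H483C.Dconv
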