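import Pool.Agent.H483R3.Cyc.Stmts

set_option autoImplicit false

/-!
# From the urn process on the cycle to the stopped signed linear chain (helper504)
-/

open MeasureTheory ProbabilityTheory Filter Topology Finset

namespace H483C.Link

open H483C

section

variable {N s : ℕ}

open Classical in
/-- signing of the starting configuration -/
noncomputable def sg0 (hex : TaskSgEx) (e : ℕ) (x : Conf (Fin (N + 3)) s) : Fin (N + 3) → ℤ :=
  if E x = e then Classical.choose (hex N s x) else fun _ => 1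

theorem sg0_spec (hex : TaskSgEx) {e : ℕ} {x : Conf (Fin (N + 3)) s} (h : E x = e) :
    Sg ((-1) ^ e) x (sg0 hex e x) := by
  subst h
  unfold sg0
  rw [if_pos rfl]
  exact Classical.choose_spec (hex N s x)

theorem sg0_pm (hex : TaskSgEx) (e : ℕ) (x : Conf (Fin (N + 3)) s) (i : Fin (N + 3)) :
    sg0 hex e x i = 1 ∨ sg0 hex e x i = -1 := by
  by_cases h : E x = e
  · exact (sg0_spec hex h).1 i
  · unfold sg0
    rw [if_neg h]
    exact Or.inl rfl

theorem abs_eq {x : Conf (Fin (N + 3)) s} {σ y : Fin (N + 3) → ℤ}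
    (hσ : ∀ i, σ i = 1 ∨ σ i = -1) (hy : ∀ v, y v = σ v * ((x v).1 : ℤ)) (v : Fin (N + 3)) :
    |(y v : ℝ)| = ((x v).1 : ℝ) := by
  rw [hy]
  rcases hσ v with h | h <;> rw [h] <;> push_cast <;> simp

theorem Sn_eq {x : Conf (Fin (N + 3)) s} {σ y : Fin (N + 3) → ℤ}
    (hσ : ∀ i, σ i = 1 ∨ σ i = -1) (hy : ∀ v, y v = σ v * ((x v).1 : ℤ)) :
    Sn y = (total x : ℝ) := by
  unfold Sn total
  push_cast
  exact Finset.sum_congr rfl fun v _ => abs_eq hσ hy v

theorem one_le_Sn {y : Fin (N + 3) → ℤ} {v : Fin (N + 3)} (h : y v ≠ 0) : 1 ≤ Sn y := by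
  have h1 : (1 : ℝ) ≤ |(y v : ℝ)| := by
    have := Int.one_le_abs h
    exact_mod_cast this
  unfold Sn
  exact h1.trans (Finset.single_le_sum (f := fun v => |(y v : ℝ)|) (fun i _ => abs_nonneg _)
    (Finset.mem_univ v))

theorem A_self (θ : ℤ) (v : Fin (N + 3)) : A θ v v = 0 := by
  have h : v + 1 ≠ v := by
    intro h
    have h1 : (1 : Fin (N + 3)) = 0 := left_eq_add.1 h.symm
    have h2 := congrArg Fin.val h1
    rw [Fin.val_one', Fin.val_zero, Nat.mod_eq_of_lt (by omega)] at h2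
    omega
  unfold A
  rw [if_neg h, if_neg h]

theorem total_step (x : Conf (Fin (N + 3)) s) (v : Fin (N + 3)) :
    total (step (SimpleGraph.cycleGraph (N + 3)) x v) ≤ total x + (N + 3) := by
  unfold total
  have h : ∀ u : Fin (N + 3), (step (SimpleGraph.cycleGraph (N + 3)) x v u).1 ≤ (x u).1 + 1 := by
    intro u
    unfold step
    split_ifs
    · simp
    · simp
    · simp only
      omega
    · omega
  calc ∑ u, (step (SimpleGraph.cycleGraph (N + 3)) x v u).1 ≤ ∑ u, ((x u).1 + 1) :=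
        Finset.sum_le_sum fun u _ => h u
    _ = _ := by
        rw [Finset.sum_add_distrib]
        simp

variable {Ω : Type}

/-- the event -/
def ev (X : ℕ → Ω → Conf (Fin (N + 3)) s) (t0 e n : ℕ) : Set Ω :=
  {ω | ∀ i ≤ n, E (X (t0 + i) ω) = e}

open Classical in
/-- the signed chain -/
noncomputable def YY (hex : TaskSgEx) (t0 e : ℕ) (X : ℕ → Ω → Conf (Fin (N + 3)) s)
    (c : ℕ → Ω → Fin (N + 3)) : ℕ → Ω → Fin (N + 3) → ℤ
  | 0, ω => fun u => sg0 hex e (X t0 ω) u * ((X t0 ω u).1 : ℤ)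
  | n + 1, ω => fun u => if ω ∈ ev X t0 e n then
      YY hex t0 e X c n ω u + A ((-1) ^ e) u (c (t0 + n) ω) *
        (YY hex t0 e X c n ω (c (t0 + n) ω)).sign
    else YY hex t0 e X c n ω u

/-- the shifted filtration -/
def shift {m : MeasurableSpace Ω} (ℱ : Filtration ℕ m) (t0 : ℕ) : Filtration ℕ m where
  seq n := ℱ (t0 + n)
  mono' i j h := ℱ.mono (by omega)
  le' i := ℱ.le _

theorem meas_iff {α : Type} {m : MeasurableSpace Ω} {Z Z' : Ω → α}
    {c : Ω → Fin (N + 3)} (f : Fin (N + 3) → α → α) (hc : ∀ v, MeasurableSet[m] {ω | c ω = v})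
    (hZ : ∀ S : Set α, MeasurableSet[m] {ω | Z ω ∈ S}) (h : ∀ ω, Z' ω = f (c ω) (Z ω))
    (S : Set α) : MeasurableSet[m] {ω | Z' ω ∈ S} := by
  have h1 : {ω | Z' ω ∈ S} = ⋃ v, ({ω | c ω = v} ∩ {ω | Z ω ∈ (f v) ⁻¹' S}) := by
    ext ω
    simp only [Set.mem_iUnion, Set.mem_inter_iff, Set.mem_preimage]
    change Z' ω ∈ S ↔ ∃ v, c ω = v ∧ f v (Z ω) ∈ S
    rw [h]
    constructor
    · intro h2
      exact ⟨c ω, rfl, h2⟩
    · rintro ⟨v, h2, h3⟩
      rw [h2]
      exact h3
  rw [h1]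
  exact MeasurableSet.iUnion fun v => (hc v).inter (hZ _)

theorem measX {m : MeasurableSpace Ω} {μ : Measure Ω} {ℱ : Filtration ℕ m}
    {X : ℕ → Ω → Conf (Fin (N + 3)) s} {c : ℕ → Ω → Fin (N + 3)} {x0 : Conf (Fin (N + 3)) s}
    (hX : IsUrn (SimpleGraph.cycleGraph (N + 3)) x0 μ ℱ X c) (n : ℕ) :
    ∀ S : Set (Conf (Fin (N + 3)) s), MeasurableSet[ℱ n] {ω | X n ω ∈ S} := by
  induction n with
  | zero =>
    intro S
    have h : {ω | X 0 ω ∈ S} = {_ω : Ω | x0 ∈ S} := by
      ext ω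
      change X 0 ω ∈ S ↔ x0 ∈ S
      rw [hX.init]
    rw [h]
    exact MeasurableSet.const _
  | succ n ih =>
    exact meas_iff (m := ℱ (n + 1)) (Z := X n) (Z' := X (n + 1)) (c := c n)
      (fun v x => step (SimpleGraph.cycleGraph (N + 3)) x v) (hX.adapted n)
      (fun S => ℱ.mono (Nat.le_succ n) _ (ih S)) (hX.next n)

theorem measev {m : MeasurableSpace Ω} {μ : Measure Ω} {ℱ : Filtration ℕ m}
    {X : ℕ → Ω → Conf (Fin (N + 3)) s} {c : ℕ → Ω → Fin (N + 3)} {x0 : Conf (Fin (N + 3)) s}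
    (hX : IsUrn (SimpleGraph.cycleGraph (N + 3)) x0 μ ℱ X c) (t0 e n : ℕ) :
    MeasurableSet[ℱ (t0 + n)] (ev X t0 e n) := by
  have h : ev X t0 e n = ⋂ i : Fin (n + 1), {ω | X (t0 + i) ω ∈ {x | E x = e}} := by
    ext ω
    rw [Set.mem_iInter]
    constructor
    · intro h i
      exact h i (by omega)
    · intro h i hi
      exact h ⟨i, by omega⟩
  rw [h]
  exact MeasurableSet.iInter fun i => ℱ.mono (by omega) _ (measX hX (t0 + i) _)

theorem measY {m : MeasurableSpace Ω} {μ : Measure Ω} {ℱ : Filtration ℕ m}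
    {X : ℕ → Ω → Conf (Fin (N + 3)) s} {c : ℕ → Ω → Fin (N + 3)} {x0 : Conf (Fin (N + 3)) s}
    (hex : TaskSgEx) (hX : IsUrn (SimpleGraph.cycleGraph (N + 3)) x0 μ ℱ X c) (t0 e n : ℕ) :
    ∀ S : Set (Fin (N + 3) → ℤ), MeasurableSet[ℱ (t0 + n)] {ω | YY hex t0 e X c n ω ∈ S} := by
  induction n with
  | zero =>
    intro S
    exact measX hX t0 {x | (fun u => sg0 hex e x u * ((x u).1 : ℤ)) ∈ S}
  | succ n ih =>
    intro S
    have h1 := meas_iff (m := ℱ (t0 + (n + 1))) (Z := YY hex t0 e X c n)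
      (Z' := fun ω u => YY hex t0 e X c n ω u + A ((-1) ^ e) u (c (t0 + n) ω) *
        (YY hex t0 e X c n ω (c (t0 + n) ω)).sign) (c := c (t0 + n))
      (fun v y u => y u + A ((-1) ^ e) u v * (y v).sign) (hX.adapted (t0 + n))
      (fun S => ℱ.mono (by omega) _ (ih S)) (fun ω => rfl) S
    have h2 : MeasurableSet[ℱ (t0 + (n + 1))] {ω | YY hex t0 e X c n ω ∈ S} :=
      ℱ.mono (by omega) _ (ih S)
    have h3 : MeasurableSet[ℱ (t0 + (n + 1))] (ev X t0 e n) :=
      ℱ.mono (by omega) _ (measev hX t0 e n)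
    have h4 : {ω | YY hex t0 e X c (n + 1) ω ∈ S} =
        (ev X t0 e n ∩ {ω | (fun u => YY hex t0 e X c n ω u + A ((-1) ^ e) u (c (t0 + n) ω) *
          (YY hex t0 e X c n ω (c (t0 + n) ω)).sign) ∈ S}) ∪
        ((ev X t0 e n)ᶜ ∩ {ω | YY hex t0 e X c n ω ∈ S}) := by
      ext ω
      by_cases hω : ω ∈ ev X t0 e n
      · have h5 : YY hex t0 e X c (n + 1) ω = fun u => YY hex t0 e X c n ω u +
            A ((-1) ^ e) u (c (t0 + n) ω) * (YY hex t0 e X c n ω (c (t0 + n) ω)).sign := by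
          funext u
          simp only [YY, if_pos hω]
        change YY hex t0 e X c (n + 1) ω ∈ S ↔ _
        rw [h5]
        constructor
        · intro h
          exact Or.inl ⟨hω, h⟩
        · rintro (h | h)
          · exact h.2
          · exact absurd hω h.1
      · have h5 : YY hex t0 e X c (n + 1) ω = YY hex t0 e X c n ω := by
          funext u
          simp only [YY, if_neg hω]
        change YY hex t0 e X c (n + 1) ω ∈ S ↔ _
        rw [h5]
        constructor
        · intro h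
          exact Or.inr ⟨hω, h⟩
        · rintro (h | h)
          · exact absurd h.1 hω
          · exact h.2
    rw [h4]
    exact (h3.inter h1).union (h3.compl.inter h2)

theorem invariant {m : MeasurableSpace Ω} {μ : Measure Ω} {ℱ : Filtration ℕ m}
    {X : ℕ → Ω → Conf (Fin (N + 3)) s} {c : ℕ → Ω → Fin (N + 3)} {x0 : Conf (Fin (N + 3)) s}
    (hex : TaskSgEx) (hst : TaskSgStep)
    (hX : IsUrn (SimpleGraph.cycleGraph (N + 3)) x0 μ ℱ X c) (t0 e n : ℕ) (ω : Ω)
    (hω : ω ∈ ev X t0 e n) : ∃ σ : Fin (N + 3) → ℤ, Sg ((-1) ^ e) (X (t0 + n) ω) σ ∧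
      ∀ v, YY hex t0 e X c n ω v = σ v * ((X (t0 + n) ω v).1 : ℤ) := by
  induction n with
  | zero => exact ⟨sg0 hex e (X t0 ω), sg0_spec hex (hω 0 le_rfl), fun v => rfl⟩
  | succ n ih =>
    have hω' : ω ∈ ev X t0 e n := fun i hi => hω i (by omega)
    obtain ⟨σ, hσ, hY⟩ := ih hω'
    have hball := hX.ball (t0 + n) ω
    have hE1 := hω' n le_rfl
    have hE2 := hω (n + 1) le_rfl
    have hnext : X (t0 + (n + 1)) ω =
        step (SimpleGraph.cycleGraph (N + 3)) (X (t0 + n) ω) (c (t0 + n) ω) :=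
      hX.next (t0 + n) ω
    rw [hnext] at hE2
    obtain ⟨h1, h2⟩ := hst N s ((-1) ^ e) (neg_one_pow_eq_or ℤ e) (X (t0 + n) ω)
      (c (t0 + n) ω) σ hσ hball (hE2.trans hE1.symm)
    refine ⟨sgStep ((-1) ^ e) (X (t0 + n) ω) σ (c (t0 + n) ω), ?_, ?_⟩
    · rw [hnext]
      exact h1
    · intro u
      have h5 : YY hex t0 e X c (n + 1) ω u = YY hex t0 e X c n ω u +
            A ((-1) ^ e) u (c (t0 + n) ω) * (YY hex t0 e X c n ω (c (t0 + n) ω)).sign := by
        simp only [YY, if_pos hω']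
      rw [h5, hnext, h2 u, hY u, hY (c (t0 + n) ω)]
      congr 2
      have hb : (0 : ℤ) < ((X (t0 + n) ω (c (t0 + n) ω)).1 : ℤ) := by exact_mod_cast hball
      rcases hσ.1 (c (t0 + n) ω) with h | h
      · rw [h, one_mul]
        exact Int.sign_eq_one_of_pos hb
      · rw [h]
        exact Int.sign_eq_neg_one_of_neg (by linarith)

end

theorem t : TaskLink := by
  intro hex hst N s x0 hx0 Ω m μ hμ ℱ X c hX t0 e
  have hinv := fun n ω hω => invariant hex hst hX t0 e n ω hω
  have hne : ∀ n ω, ω ∈ ev X t0 e n → YY hex t0 e X c n ω (c (t0 + n) ω) ≠ 0 := by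
    intro n ω hω
    obtain ⟨σ, hσ, hY⟩ := hinv n ω hω
    rw [hY]
    have hball := hX.ball (t0 + n) ω
    refine mul_ne_zero ?_ (by exact_mod_cast hball.ne')
    rcases hσ.1 (c (t0 + n) ω) with h | h <;> rw [h] <;> norm_num
  have hS0 : ∀ ω, Sn (YY hex t0 e X c 0 ω) = (total (X t0 ω) : ℝ) := fun ω =>
    Sn_eq (sg0_pm hex e (X t0 ω)) fun v => rfl
  refine ⟨shift ℱ t0, ev X t0 e, YY hex t0 e X c, fun n => c (t0 + n), ?_, ?_⟩
  · refine ⟨fun n => measev hX t0 e n, ?_, ?_, ?_, ?_, ?_, hne, ?_, ?_, ?_⟩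
    · intro n ω hω i hi
      exact hω i (by omega)
    · intro n v S _
      exact measY hex hX t0 e n {y | y v ∈ S}
    · intro n v
      exact hX.adapted (t0 + n) v
    · refine ⟨(total x0 : ℝ) + t0 * (N + 3), fun ω => ?_⟩
      rw [hS0]
      have h : ∀ n, total (X n ω) ≤ total x0 + n * (N + 3) := by
        intro n
        induction n with
        | zero =>
          rw [hX.init]
          omega
        | succ n ih =>
          rw [hX.next]
          have := total_step (X n ω) (c n ω)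
          calc _ ≤ total (X n ω) + (N + 3) := this
            _ ≤ _ := by
              rw [Nat.succ_mul]
              omega
      exact_mod_cast h t0
    · intro n ω
      induction n with
      | zero =>
        rw [hS0]
        have hball := hX.ball t0 ω
        have h1 : (X t0 ω (c t0 ω)).1 ≤ total (X t0 ω) :=
          Finset.single_le_sum (f := fun v => (X t0 ω v).1) (fun i _ => Nat.zero_le _)
            (Finset.mem_univ (c t0 ω))
        have h2 : 1 ≤ total (X t0 ω) := by omega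
        exact_mod_cast h2
      | succ n ih =>
        by_cases hω : ω ∈ ev X t0 e n
        · have h5 : YY hex t0 e X c (n + 1) ω (c (t0 + n) ω) =
              YY hex t0 e X c n ω (c (t0 + n) ω) := by
            simp only [YY, if_pos hω, A_self, zero_mul, add_zero]
          refine one_le_Sn (v := c (t0 + n) ω) ?_
          rw [h5]
          exact hne n ω hω
        · have h5 : YY hex t0 e X c (n + 1) ω = YY hex t0 e X c n ω := by
            funext u
            simp only [YY, if_neg hω]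
          rw [h5]
          exact ih
    · intro n ω hω u
      simp only [YY, if_pos hω]
    · intro n ω hω
      funext u
      simp only [YY, if_neg hω]
    · intro n v
      have h := hX.select (t0 + n) v
      filter_upwards [h] with ω h1 hω
      obtain ⟨σ, hσ, hY⟩ := hinv n ω hω
      rw [abs_eq hσ.1 hY v, Sn_eq hσ.1 hY]
      exact h1
  · intro ω hω
    have h1 : ∀ n, ω ∈ ev X t0 e n := fun n i _ => hω (t0 + i) (by omega)
    exact ⟨h1, fun n => hinv n ω (h1 n)⟩

end H483C.Link
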