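import Pool.Agent.H483R3.Cyc.Stmts

set_option autoImplicit false

namespace H483C.Pat1

open Finset

theorem t : H483C.TaskPat1 := by
  intro N
  have hk : (0 : ℝ) < (N : ℝ) + 3 := by positivity
  refine ⟨1 / (4 * ((N : ℝ) + 3) ^ 2), by positivity, fun y hD hR => ?_⟩
  obtain ⟨U, hU⟩ : ∃ U : ℝ, U = ∑ v, (y v : ℝ) := ⟨_, rfl⟩
  have hDq : Dq (fun _ => 1) (fun _ => 0) y = U ^ 2 := by
    simp [Dq, hU]
  have hRq : Rq (fun _ => 1) (fun _ => 0) (1 / ((N : ℝ) + 3)) y =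
      ∑ v, ((y v : ℝ) - 1 / ((N : ℝ) + 3) * U) ^ 2 := by
    simp [Rq, hU]
  rw [hDq] at hD hR
  rw [hRq] at hR
  have hU0 : U ≠ 0 := by
    rintro rfl
    simp at hD
  have hv : ∀ v, |(y v : ℝ) - 1 / ((N : ℝ) + 3) * U| ≤ |U| / (2 * ((N : ℝ) + 3)) := by
    intro v
    have h1 : ((y v : ℝ) - 1 / ((N : ℝ) + 3) * U) ^ 2 ≤
        ∑ v, ((y v : ℝ) - 1 / ((N : ℝ) + 3) * U) ^ 2 :=
      Finset.single_le_sum (f := fun v => ((y v : ℝ) - 1 / ((N : ℝ) + 3) * U) ^ 2)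
        (fun i _ => sq_nonneg _) (Finset.mem_univ v)
    have h2 : ((y v : ℝ) - 1 / ((N : ℝ) + 3) * U) ^ 2 ≤ (|U| / (2 * ((N : ℝ) + 3))) ^ 2 := by
      refine (h1.trans hR).trans (le_of_eq ?_)
      rw [div_pow, sq_abs]
      field_simp
      ring
    exact abs_le_of_sq_le_sq h2 (by positivity)
  have hkey : ∀ v, 0 < (y v : ℝ) * U := by
    intro v
    have h1 := hv v
    have h2 : |((y v : ℝ) - 1 / ((N : ℝ) + 3) * U) * U| ≤ |U| / (2 * ((N : ℝ) + 3)) * |U| := by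
      rw [abs_mul]
      exact mul_le_mul_of_nonneg_right h1 (abs_nonneg _)
    have h3 : |U| / (2 * ((N : ℝ) + 3)) * |U| = U ^ 2 / (2 * ((N : ℝ) + 3)) := by
      rw [div_mul_eq_mul_div, ← sq, sq_abs]
    rw [h3] at h2
    have h4 := (abs_le.1 h2).1
    have h5 : (y v : ℝ) * U = ((y v : ℝ) - 1 / ((N : ℝ) + 3) * U) * U + U ^ 2 / ((N : ℝ) + 3) := by
      field_simp
      ring
    have h6 : 0 < U ^ 2 / ((N : ℝ) + 3) - U ^ 2 / (2 * ((N : ℝ) + 3)) := by
      have : U ^ 2 / ((N : ℝ) + 3) - U ^ 2 / (2 * ((N : ℝ) + 3)) = U ^ 2 / (2 * ((N : ℝ) + 3)) := by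
        field_simp
        ring
      rw [this]
      positivity
    rw [h5]
    linarith
  rcases lt_or_gt_of_ne hU0 with h | h
  · right
    intro v
    have h1 := hkey v
    have h2 : (y v : ℝ) < 0 := by
      by_contra h3
      push Not at h3
      have := mul_nonpos_of_nonneg_of_nonpos h3 h.le
      linarith
    exact_mod_cast h2
  · left
    intro v
    have h1 := hkey v
    have h2 : 0 < (y v : ℝ) := by
      by_contra h3
      push Not at h3
      have := mul_nonpos_of_nonpos_of_nonneg h3 h.le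
      linarith
    exact_mod_cast h2

end H483C.Pat1
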