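import Pool.Agent.H483R3.Cyc.Stmts

set_option autoImplicit false

/-! Task Pat2 of H483-CYC: a small remainder gives at most one sign change on the twisted cycle. -/

open Finset

namespace H483C.Pat2

theorem real_contra (x α β U1 U2 m d s : ℝ) (hm : 0 < m) (hsa : m ≤ Real.sin α)
    (hsb : m ≤ Real.sin β) (hsg : m ≤ Real.sin (α + β)) (hd : 0 ≤ d) (hs : s = 1 ∨ s = -1)
    (ha : -d ≤ s * (Real.cos (x - α) * U1 + Real.sin (x - α) * U2))
    (hb : -d ≤ s * (Real.cos (x + β) * U1 + Real.sin (x + β) * U2))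
    (hc : s * (Real.cos x * U1 + Real.sin x * U2) ≤ d)
    (hdm : 49 * d ^ 2 ≤ m ^ 4 * (U1 ^ 2 + U2 ^ 2)) (hD : 0 < U1 ^ 2 + U2 ^ 2) : False := by
  have hs2 : s ^ 2 = 1 := by rcases hs with h | h <;> rw [h] <;> norm_num
  have I1 : Real.sin (α + β) * (s * (Real.cos x * U1 + Real.sin x * U2)) =
      Real.sin β * (s * (Real.cos (x - α) * U1 + Real.sin (x - α) * U2)) +
      Real.sin α * (s * (Real.cos (x + β) * U1 + Real.sin (x + β) * U2)) := by
    rw [Real.cos_sub, Real.sin_sub, Real.cos_add, Real.sin_add, Real.sin_add]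
    ring
  have I2 : (s * (Real.cos (x - α) * U1 + Real.sin (x - α) * U2)) ^ 2 +
      (s * (Real.cos (x + β) * U1 + Real.sin (x + β) * U2)) ^ 2 -
      2 * Real.cos (α + β) * ((s * (Real.cos (x - α) * U1 + Real.sin (x - α) * U2)) *
        (s * (Real.cos (x + β) * U1 + Real.sin (x + β) * U2))) =
      Real.sin (α + β) ^ 2 * (U1 ^ 2 + U2 ^ 2) := by
    have e : x + β = (x - α) + (α + β) := by ring
    rw [e]
    generalize x - α = z
    generalize α + β = w
    rw [Real.cos_add, Real.sin_add]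
    have h1 := Real.sin_sq_add_cos_sq z
    have h2 := Real.sin_sq_add_cos_sq w
    have h3 : Real.cos w ^ 2 = 1 - Real.sin w ^ 2 := by linarith
    have h4 : Real.cos z ^ 2 = 1 - Real.sin z ^ 2 := by linarith
    have e1 : (s * (Real.cos z * U1 + Real.sin z * U2)) ^ 2 +
      (s * ((Real.cos z * Real.cos w - Real.sin z * Real.sin w) * U1 +
        (Real.sin z * Real.cos w + Real.cos z * Real.sin w) * U2)) ^ 2 -
      2 * Real.cos w * ((s * (Real.cos z * U1 + Real.sin z * U2)) *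
        (s * ((Real.cos z * Real.cos w - Real.sin z * Real.sin w) * U1 +
        (Real.sin z * Real.cos w + Real.cos z * Real.sin w) * U2))) =
      s ^ 2 * ((Real.cos z * U1 + Real.sin z * U2) ^ 2 * (1 - Real.cos w ^ 2) +
        Real.sin w ^ 2 * (Real.cos z * U2 - Real.sin z * U1) ^ 2) := by ring
    rw [e1, hs2, h3]
    have e2 : (1 : ℝ) * ((Real.cos z * U1 + Real.sin z * U2) ^ 2 * (1 - (1 - Real.sin w ^ 2)) +
        Real.sin w ^ 2 * (Real.cos z * U2 - Real.sin z * U1) ^ 2) =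
        Real.sin w ^ 2 * ((Real.cos z ^ 2 + Real.sin z ^ 2) * (U1 ^ 2 + U2 ^ 2)) := by ring
    rw [e2, h4]
    ring
  generalize s * (Real.cos (x - α) * U1 + Real.sin (x - α) * U2) = a at ha I1 I2
  generalize s * (Real.cos (x + β) * U1 + Real.sin (x + β) * U2) = b at hb I1 I2
  generalize s * (Real.cos x * U1 + Real.sin x * U2) = c at hc I1
  have hsa1 := Real.sin_le_one α
  have hsb1 := Real.sin_le_one β
  have hsg1 := Real.sin_le_one (α + β)
  have hm1 : m ≤ 1 := hsa.trans hsa1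
  have k1 : Real.sin α * d ≤ d := mul_le_of_le_one_left hd hsa1
  have k2 : Real.sin β * d ≤ d := mul_le_of_le_one_left hd hsb1
  have k3 : Real.sin (α + β) * d ≤ d := mul_le_of_le_one_left hd hsg1
  have k4 : m * d ≤ d := mul_le_of_le_one_left hd hm1
  have e3 : Real.sin (α + β) * c ≤ Real.sin (α + β) * d :=
    mul_le_mul_of_nonneg_left hc (by linarith)
  have a1 : m * (a + d) ≤ Real.sin β * (a + d) := mul_le_mul_of_nonneg_right hsb (by linarith)
  have a2 : 0 ≤ Real.sin β * (a + d) := mul_nonneg (by linarith) (by linarith)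
  have b1 : m * (b + d) ≤ Real.sin α * (b + d) := mul_le_mul_of_nonneg_right hsa (by linarith)
  have b2 : 0 ≤ Real.sin α * (b + d) := mul_nonneg (by linarith) (by linarith)
  have a3 : 0 ≤ m * (a + d) := mul_nonneg hm.le (by linarith)
  have b3 : 0 ≤ m * (b + d) := mul_nonneg hm.le (by linarith)
  have md : 0 ≤ m * d := mul_nonneg hm.le hd
  have ua : m * a ≤ 3 * d := by linarith
  have ub : m * b ≤ 3 * d := by linarith
  have la : -(3 * d) ≤ m * a := by linarith
  have lb : -(3 * d) ≤ m * b := by linarith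
  have pa : |m * a| ≤ 3 * d := abs_le.2 ⟨la, ua⟩
  have pb : |m * b| ≤ 3 * d := abs_le.2 ⟨lb, ub⟩
  have qa : (m * a) ^ 2 ≤ 9 * d ^ 2 := by
    have := sq_le_sq' la ua
    linarith
  have qb : (m * b) ^ 2 ≤ 9 * d ^ 2 := by
    have := sq_le_sq' lb ub
    linarith
  have qc : -(Real.cos (α + β) * ((m * a) * (m * b))) ≤ 9 * d ^ 2 := by
    have h1 : |Real.cos (α + β) * ((m * a) * (m * b))| ≤ 1 * ((3 * d) * (3 * d)) := by
      rw [abs_mul, abs_mul]
      exact mul_le_mul (Real.abs_cos_le_one _) (mul_le_mul pa pb (abs_nonneg _) (by linarith))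
        (mul_nonneg (abs_nonneg _) (abs_nonneg _)) zero_le_one
    have h2 := (abs_le.1 h1).1
    linarith
  have r1 : m ^ 2 * (Real.sin (α + β) ^ 2 * (U1 ^ 2 + U2 ^ 2)) ≤ 36 * d ^ 2 := by
    rw [← I2]
    have : m ^ 2 * (a ^ 2 + b ^ 2 - 2 * Real.cos (α + β) * (a * b)) =
        (m * a) ^ 2 + (m * b) ^ 2 + 2 * (-(Real.cos (α + β) * ((m * a) * (m * b)))) := by ring
    rw [this]
    linarith
  have r2 : m ^ 4 * (U1 ^ 2 + U2 ^ 2) ≤ m ^ 2 * (Real.sin (α + β) ^ 2 * (U1 ^ 2 + U2 ^ 2)) := by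
    have h1 : m ^ 2 ≤ Real.sin (α + β) ^ 2 := pow_le_pow_left₀ hm.le hsg 2
    have h2 : m ^ 2 * (U1 ^ 2 + U2 ^ 2) ≤ Real.sin (α + β) ^ 2 * (U1 ^ 2 + U2 ^ 2) :=
      mul_le_mul_of_nonneg_right h1 hD.le
    have h3 := mul_le_mul_of_nonneg_left h2 (sq_nonneg m)
    calc m ^ 4 * (U1 ^ 2 + U2 ^ 2) = m ^ 2 * (m ^ 2 * (U1 ^ 2 + U2 ^ 2)) := by ring
      _ ≤ _ := h3
  have hpos : 0 < m ^ 4 * (U1 ^ 2 + U2 ^ 2) := by positivity
  linarith

theorem neg_of (p q : ℤ) (hp : p = 1 ∨ p = -1) (hq : q = 1 ∨ q = -1) (h : p * q ≠ 1) :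
    q = -p := by
  rcases hp with a | a <;> rcases hq with b | b <;> subst a <;> subst b
  · exact absurd (by norm_num) h
  · rfl
  · norm_num
  · exact absurd (by norm_num) h

theorem neg_of' (p q : ℤ) (hp : p = 1 ∨ p = -1) (hq : q = 1 ∨ q = -1) (h : q ≠ p) :
    -q = p := by
  rcases hp with a | a <;> rcases hq with b | b <;> subst a <;> subst b
  · exact absurd rfl h
  · norm_num
  · rfl
  · exact absurd rfl h

theorem not_neg_self (p : ℤ) (hp : p = 1 ∨ p = -1) (h : -p = p) : False := by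
  rcases hp with a | a <;> subst a <;> norm_num at h

theorem t : TaskPat2 := by
  intro N
  obtain ⟨m, hm, hmin⟩ : ∃ m : ℝ, 0 < m ∧
      ∀ t : ℕ, 1 ≤ t → t ≤ N + 2 → m ≤ Real.sin (Real.pi * t / (N + 3)) := by
    obtain ⟨t0, ht0, h⟩ := Finset.exists_min_image (Finset.Icc 1 (N + 2))
      (fun t : ℕ => Real.sin (Real.pi * t / (N + 3))) ⟨1, by simp⟩
    refine ⟨_, ?_, fun t h1 h2 => h t (Finset.mem_Icc.2 ⟨h1, h2⟩)⟩
    rw [Finset.mem_Icc] at ht0
    have h0 : (0 : ℝ) < t0 := by exact_mod_cast ht0.1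
    have h1 : (t0 : ℝ) < N + 3 := by
      have : t0 < N + 3 := by omega
      exact_mod_cast this
    apply Real.sin_pos_of_pos_of_lt_pi
    · have := Real.pi_pos
      positivity
    · rw [div_lt_iff₀ (by positivity)]
      exact mul_lt_mul_of_pos_left h1 Real.pi_pos
  have hN : (0 : ℝ) < (N : ℝ) + 3 := by positivity
  refine ⟨(2 / (N + 3)) ^ 2 * (m ^ 2 / 7) ^ 2, by positivity, ?_⟩
  intro y σ hσ hsig hD hR
  set U1 : ℝ := ∑ v : Fin (N + 3), Real.cos (Real.pi * (v : ℕ) / (N + 3)) * (y v : ℝ) with hU1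
  set U2 : ℝ := ∑ v : Fin (N + 3), Real.sin (Real.pi * (v : ℕ) / (N + 3)) * (y v : ℝ) with hU2
  have hD' : 0 < U1 ^ 2 + U2 ^ 2 := hD
  have hR' : ∑ v : Fin (N + 3), ((y v : ℝ) - 2 / (N + 3) *
      (Real.cos (Real.pi * (v : ℕ) / (N + 3)) * U1 +
        Real.sin (Real.pi * (v : ℕ) / (N + 3)) * U2)) ^ 2 ≤
      (2 / (N + 3)) ^ 2 * (m ^ 2 / 7) ^ 2 * (U1 ^ 2 + U2 ^ 2) := hR
  obtain ⟨d, hd0, hd2⟩ : ∃ d : ℝ, 0 ≤ d ∧ d ^ 2 = (m ^ 2 / 7) ^ 2 * (U1 ^ 2 + U2 ^ 2) := by
    refine ⟨m ^ 2 / 7 * Real.sqrt (U1 ^ 2 + U2 ^ 2), by positivity, ?_⟩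
    rw [mul_pow, Real.sq_sqrt hD'.le]
  have hk : (0 : ℝ) < 2 / (N + 3) := by positivity
  have hb : ∀ v : Fin (N + 3), -d ≤ (σ v : ℝ) * (Real.cos (Real.pi * (v : ℕ) / (N + 3)) * U1 +
      Real.sin (Real.pi * (v : ℕ) / (N + 3)) * U2) := by
    intro v
    set w : ℝ := Real.cos (Real.pi * (v : ℕ) / (N + 3)) * U1 +
      Real.sin (Real.pi * (v : ℕ) / (N + 3)) * U2 with hw
    have h1 : ((y v : ℝ) - 2 / (N + 3) * w) ^ 2 ≤ (2 / (N + 3) * d) ^ 2 := by
      refine le_trans (Finset.single_le_sum (f := fun v : Fin (N + 3) => ((y v : ℝ) - 2 / (N + 3) *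
        (Real.cos (Real.pi * (v : ℕ) / (N + 3)) * U1 +
        Real.sin (Real.pi * (v : ℕ) / (N + 3)) * U2)) ^ 2) (fun i _ => sq_nonneg _)
        (Finset.mem_univ v)) (hR'.trans (le_of_eq ?_))
      rw [mul_pow, hd2]
      ring
    have h2 := abs_le_of_sq_le_sq' h1 (by positivity)
    have h3 : 0 ≤ (σ v : ℝ) * (y v : ℝ) := by
      by_cases h : y v = 0
      · rw [h]; simp
      · have h4 := hsig v h
        rcases hσ v with h5 | h5
        · rw [h5] at h4 ⊢
          have h6 : 0 < y v := Int.sign_eq_one_iff_pos.1 h4.symm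
          have h7 : (0 : ℝ) < (y v : ℝ) := by exact_mod_cast h6
          push_cast
          linarith
        · rw [h5] at h4 ⊢
          have h6 : y v < 0 := Int.sign_eq_neg_one_iff_neg.1 h4.symm
          have h7 : (y v : ℝ) < 0 := by exact_mod_cast h6
          push_cast
          linarith
    have h4 : 2 / ((N : ℝ) + 3) * (-d) ≤ 2 / (N + 3) * ((σ v : ℝ) * w) := by
      rcases hσ v with h5 | h5
      · rw [h5] at h3 ⊢
        push_cast at h3 ⊢
        linarith [h2.2, h2.1]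
      · rw [h5] at h3 ⊢
        push_cast at h3 ⊢
        linarith [h2.2, h2.1]
    exact le_of_mul_le_mul_left h4 hk
  -- the extended sign sequence
  let S : ℕ → ℤ := fun n => if h : n < N + 3 then σ ⟨n, h⟩ else - σ 0
  have hSlt : ∀ n (h : n < N + 3), S n = σ ⟨n, h⟩ := fun n h => dif_pos h
  have hSk : S (N + 3) = - σ 0 := dif_neg (lt_irrefl _)
  have hS0 : S 0 = σ 0 := hSlt 0 (by omega)
  have hS : ∀ n, S n = 1 ∨ S n = -1 := by
    intro n
    by_cases h : n < N + 3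
    · rw [hSlt n h]; exact hσ _
    · have : S n = - σ 0 := dif_neg h
      rw [this]
      rcases hσ 0 with h1 | h1 <;> rw [h1] <;> simp
  have hSW : ∀ n, n ≤ N + 3 → -d ≤ (S n : ℝ) * (Real.cos (Real.pi * n / (N + 3)) * U1 +
      Real.sin (Real.pi * n / (N + 3)) * U2) := by
    intro n hn
    rcases hn.lt_or_eq with h | h
    · rw [hSlt n h]
      exact hb ⟨n, h⟩
    · subst h
      rw [hSk]
      have h0 := hb 0
      have e1 : Real.pi * ((N + 3 : ℕ) : ℝ) / (N + 3) = Real.pi := by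
        push_cast
        field_simp
      rw [e1, Real.cos_pi, Real.sin_pi]
      simp only [Fin.val_zero, Nat.cast_zero, mul_zero, zero_div, Real.cos_zero, Real.sin_zero,
        one_mul, zero_mul, add_zero] at h0
      push_cast
      linarith
  have hedge : ∀ i : Fin (N + 3), wt (-1) i * σ i * σ (i + 1) = S i.val * S (i.val + 1) := by
    intro i
    rw [hSlt i.val i.isLt]
    by_cases h : i = Fin.last (N + 2)
    · subst h
      have e1 : ((Fin.last (N + 2)).val + 1) = N + 3 := rfl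
      rw [e1, hSk, Fin.last_add_one]
      simp only [wt, if_true]
      ring
    · have h1 : i.val + 1 < N + 3 := by
        have : i.val ≠ N + 2 := fun h2 => h (Fin.ext h2)
        have := i.isLt
        omega
      rw [hSlt (i.val + 1) h1]
      have e2 : (i + 1 : Fin (N + 3)) = ⟨i.val + 1, h1⟩ := by
        apply Fin.ext
        exact Fin.val_add_one_of_lt (lt_of_le_of_ne (Fin.le_last i) h)
      rw [e2]
      simp only [wt, if_neg h, one_mul]
  have aux : ∀ e f : ℕ, e < f → f < N + 3 → S e * S (e + 1) ≠ 1 → S f * S (f + 1) ≠ 1 →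
      False := by
    intro e f hef hf h1 h2
    have g1 : S (e + 1) = - S e := neg_of _ _ (hS e) (hS (e + 1)) h1
    have g2 : S (f + 1) = - S f := neg_of _ _ (hS f) (hS (f + 1)) h2
    obtain ⟨l, hl1, hl2, hl3⟩ : ∃ l, e + 1 < l ∧ l ≤ N + 3 ∧ S l = S e := by
      by_cases h : S f = S e
      · refine ⟨f, ?_, hf.le, h⟩
        rcases Nat.lt_or_ge (e + 1) f with h3 | h3
        · exact h3
        · exfalso
          have : f = e + 1 := by omega
          rw [this, g1] at h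
          exact not_neg_self _ (hS e) h
      · refine ⟨f + 1, by omega, by omega, ?_⟩
        rw [g2]
        exact neg_of' _ _ (hS e) (hS f) h
    have hle : l - e ≤ N + 2 := by
      by_contra hcon
      have he0 : e = 0 := by omega
      have hlk : l = N + 3 := by omega
      rw [hlk, hSk, he0, hS0] at hl3
      exact not_neg_self _ (hσ 0) hl3
    have c1 := hSW e (by omega)
    have c2 := hSW (e + 1) (by omega)
    have c3 := hSW l hl2
    rw [g1] at c2
    rw [hl3] at c3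
    have m1 := hmin 1 le_rfl (by omega)
    have m2 := hmin (l - (e + 1)) (by omega) (by omega)
    have m3 := hmin (l - e) (by omega) hle
    refine real_contra (Real.pi * ((e + 1 : ℕ) : ℝ) / (N + 3)) (Real.pi * ((1 : ℕ) : ℝ) / (N + 3))
      (Real.pi * ((l - (e + 1) : ℕ) : ℝ) / (N + 3)) U1 U2 m d (S e : ℝ) hm m1 m2 ?_ hd0 ?_ ?_ ?_
      ?_ ?_ hD'
    · have e1 : Real.pi * ((1 : ℕ) : ℝ) / ((N : ℝ) + 3) +
          Real.pi * ((l - (e + 1) : ℕ) : ℝ) / (N + 3) =
          Real.pi * ((l - e : ℕ) : ℝ) / (N + 3) := by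
        rw [Nat.cast_sub (by omega), Nat.cast_sub (by omega)]
        push_cast
        ring
      rw [e1]
      exact m3
    · rcases hS e with a | a <;> rw [a] <;> norm_num
    · have e1 : Real.pi * ((e + 1 : ℕ) : ℝ) / ((N : ℝ) + 3) -
          Real.pi * ((1 : ℕ) : ℝ) / (N + 3) = Real.pi * (e : ℝ) / (N + 3) := by
        push_cast
        ring
      rw [e1]
      exact c1
    · have e1 : Real.pi * ((e + 1 : ℕ) : ℝ) / ((N : ℝ) + 3) +
          Real.pi * ((l - (e + 1) : ℕ) : ℝ) / (N + 3) = Real.pi * (l : ℝ) / (N + 3) := by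
        rw [Nat.cast_sub (by omega)]
        push_cast
        ring
      rw [e1]
      exact c3
    · push_cast at c2 ⊢
      linarith
    · rw [hd2]
      have : 49 * ((m ^ 2 / 7) ^ 2 * (U1 ^ 2 + U2 ^ 2)) = m ^ 4 * (U1 ^ 2 + U2 ^ 2) := by ring
      exact this.le
  rw [Finset.card_le_one]
  intro i hi j hj
  rw [Finset.mem_filter] at hi hj
  have hi2 := hi.2
  have hj2 := hj.2
  rw [hedge] at hi2 hj2
  rcases lt_trichotomy i.val j.val with h | h | h
  · exact (aux _ _ h j.isLt hi2 hj2).elim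
  · exact Fin.ext h
  · exact (aux _ _ h i.isLt hj2 hi2).elim

end H483C.Pat2
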