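import Mathlib

set_option autoImplicit false

/-!
# Competing urns on cycles: definitions and task statements (helper483, project H483-CYC)

MP_747d65_pr.  Goal: all cycles belong to the class `G_s` for every `s` (no coexistence).
-/

open MeasureTheory ProbabilityTheory Filter Topology Finset

namespace H483C

/-- A configuration: at every vertex the number of balls and their colour (the colour entry of an
empty urn has no meaning). -/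
abbrev Conf (V : Type) (s : ℕ) := V → ℕ × Fin s

/-- total number of balls -/
def total {V : Type} [Fintype V] {s : ℕ} (x : Conf V s) : ℕ := ∑ v, (x v).1

/-- The new configuration when a ball of the urn at `v` is selected: one ball of its colour is
sent to every neighbour `u`; it is added if the urn at `u` is empty or has the same colour, and it
annihilates with one ball of the urn at `u` otherwise. -/
def step {V : Type} [DecidableEq V] (G : SimpleGraph V) [DecidableRel G.Adj] {s : ℕ}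
    (x : Conf V s) (v : V) : Conf V s := fun u =>
  if G.Adj v u then
    if (x u).1 = 0 then (1, (x v).2)
    else if (x u).2 = (x v).2 then ((x u).1 + 1, (x u).2)
    else ((x u).1 - 1, (x u).2)
  else x u

/-- The `s`-type urn process on `G` started from `x0`: `X n` is the configuration after `n` steps,
`c n` the vertex of the ball selected in step `n + 1` (a ball chosen uniformly at random, given the
past). -/
structure IsUrn {V : Type} [Fintype V] [DecidableEq V] (G : SimpleGraph V) [DecidableRel G.Adj]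
    {s : ℕ} (x0 : Conf V s) {Ω : Type} {m : MeasurableSpace Ω} (μ : Measure Ω)
    (ℱ : Filtration ℕ m) (X : ℕ → Ω → Conf V s) (c : ℕ → Ω → V) : Prop where
  init : ∀ ω, X 0 ω = x0
  next : ∀ n ω, X (n + 1) ω = step G (X n ω) (c n ω)
  adapted : ∀ n v, MeasurableSet[ℱ (n + 1)] {ω | c n ω = v}
  ball : ∀ n ω, 0 < (X n ω (c n ω)).1
  select : ∀ n v, μ[Set.indicator {ω | c n ω = v} (fun _ => (1 : ℝ)) | ℱ n] =ᵐ[μ]
    fun ω => ((X n ω v).1 : ℝ) / (total (X n ω) : ℝ)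

/-- colour `i` is present at arbitrarily large times -/
def Survives {V Ω : Type} {s : ℕ} (X : ℕ → Ω → Conf V s) (ω : Ω) (i : Fin s) : Prop :=
  ∃ᶠ n in atTop, ∃ v, (X n ω v).1 ≠ 0 ∧ (X n ω v).2 = i

/-- the class `G_s`: for every initial configuration with at least one ball, almost surely exactly
one colour survives -/
def InClass (s : ℕ) {V : Type} [Fintype V] [DecidableEq V] (G : SimpleGraph V)
    [DecidableRel G.Adj] : Prop :=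
  ∀ x0 : Conf V s, 0 < total x0 → ∀ (Ω : Type) (m : MeasurableSpace Ω) (μ : Measure Ω)
    (_ : IsProbabilityMeasure μ) (ℱ : Filtration ℕ m) (X : ℕ → Ω → Conf V s) (c : ℕ → Ω → V),
    IsUrn G x0 μ ℱ X c → ∀ᵐ ω ∂μ, ∃! i, Survives X ω i

/-! ### The cycle -/

/-- sign of the edge `(i, i+1)`; `θ = 1` (untwisted) or `θ = -1` (twisted) -/
def wt {N : ℕ} (θ : ℤ) (i : Fin (N + 3)) : ℤ := if i = Fin.last (N + 2) then θ else 1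

/-- signed adjacency matrix of the cycle -/
def A {N : ℕ} (θ : ℤ) (u v : Fin (N + 3)) : ℤ :=
  if v + 1 = u then wt θ v else if u + 1 = v then wt θ u else 0

/-- number of edges of the cycle with two different colour entries -/
def E {N s : ℕ} (x : Conf (Fin (N + 3)) s) : ℕ :=
  (Finset.univ.filter (fun i => (x i).2 ≠ (x (i + 1)).2)).card

/-- `σ` is a `θ`-signing of the colour entries -/
def Sg {N s : ℕ} (θ : ℤ) (x : Conf (Fin (N + 3)) s) (σ : Fin (N + 3) → ℤ) : Prop :=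
  (∀ i, σ i = 1 ∨ σ i = -1) ∧
    ∀ i, (wt θ i * σ i * σ (i + 1) = 1 ↔ (x i).2 = (x (i + 1)).2)

/-- one step of the signing -/
def sgStep {N s : ℕ} (θ : ℤ) (x : Conf (Fin (N + 3)) s) (σ : Fin (N + 3) → ℤ)
    (v : Fin (N + 3)) : Fin (N + 3) → ℤ := fun u =>
  if (SimpleGraph.cycleGraph (N + 3)).Adj v u ∧ (x u).1 = 0 then A θ u v * σ v else σ u

def TaskE : Prop := ∀ (N s : ℕ) (x : Conf (Fin (N + 3)) s) (v : Fin (N + 3)),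
  E (step (SimpleGraph.cycleGraph (N + 3)) x v) ≤ E x

def TaskSgEx : Prop := ∀ (N s : ℕ) (x : Conf (Fin (N + 3)) s), ∃ σ, Sg ((-1) ^ (E x)) x σ

def TaskSgStep : Prop := ∀ (N s : ℕ) (θ : ℤ) (_ : θ = 1 ∨ θ = -1) (x : Conf (Fin (N + 3)) s)
  (v : Fin (N + 3)) (σ : Fin (N + 3) → ℤ), Sg θ x σ → 0 < (x v).1 →
  E (step (SimpleGraph.cycleGraph (N + 3)) x v) = E x →
  Sg θ (step (SimpleGraph.cycleGraph (N + 3)) x v) (sgStep θ x σ v) ∧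
  ∀ u, sgStep θ x σ v u * ((step (SimpleGraph.cycleGraph (N + 3)) x v u).1 : ℤ) =
    σ u * ((x u).1 : ℤ) + A θ u v * σ v

/-- small facts: `E = 1` is impossible, `E = 0` gives one colour, and on the triangle with three
different colours either a colour entry disappears or two balls disappear -/
def TaskESmall : Prop := (∀ (N s : ℕ) (x : Conf (Fin (N + 3)) s), E x ≠ 1) ∧
  (∀ (N s : ℕ) (x : Conf (Fin (N + 3)) s), E x = 0 → ∀ u v, (x u).2 = (x v).2) ∧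
  (∀ (s : ℕ) (x : Conf (Fin 3) s) (v : Fin 3), E (N := 0) x = 3 → 0 < (x v).1 →
    E (N := 0) (step (SimpleGraph.cycleGraph 3) x v) = 3 →
    total (step (SimpleGraph.cycleGraph 3) x v) + 2 ≤ total x)

/-! ### Spectral data and patterns -/

structure Spec {N : ℕ} (θ : ℤ) (lam : ℝ) (p q : Fin (N + 3) → ℝ) (κ lam2 : ℝ) : Prop where
  h1 : 1 < lam
  h2 : lam ≤ 2
  unit : ∀ v, p v ^ 2 + q v ^ 2 = 1
  eigp : ∀ v, ∑ u, p u * (A θ u v : ℝ) = lam * p v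
  eigq : ∀ v, ∑ u, q u * (A θ u v : ℝ) = lam * q v
  orthp : ∀ x : Fin (N + 3) → ℝ,
    ∑ v, p v * (x v - κ * (p v * (∑ u, p u * x u) + q v * (∑ u, q u * x u))) = 0
  orthq : ∀ x : Fin (N + 3) → ℝ,
    ∑ v, q v * (x v - κ * (p v * (∑ u, p u * x u) + q v * (∑ u, q u * x u))) = 0
  gap0 : 0 ≤ lam2
  gap1 : lam2 < lam
  gap : ∀ x : Fin (N + 3) → ℝ, ∑ v, p v * x v = 0 → ∑ v, q v * x v = 0 →
    ∑ u, ∑ v, x u * (A θ u v : ℝ) * x v ≤ lam2 * ∑ v, x v ^ 2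

def TaskSpec1 : Prop := ∀ N : ℕ, ∃ lam2 : ℝ,
  Spec (N := N) 1 2 (fun _ => 1) (fun _ => 0) (1 / (N + 3)) lam2

def TaskSpec2 : Prop := ∀ N : ℕ, 1 ≤ N → ∃ lam2 : ℝ,
  Spec (N := N) (-1) (2 * Real.cos (Real.pi / (N + 3)))
    (fun v => Real.cos (Real.pi * (v : ℕ) / (N + 3)))
    (fun v => Real.sin (Real.pi * (v : ℕ) / (N + 3))) (2 / (N + 3)) lam2

/-- squared norm of the top component -/
def Dq {N : ℕ} (p q : Fin (N + 3) → ℝ) (y : Fin (N + 3) → ℤ) : ℝ :=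
  (∑ v, p v * (y v : ℝ)) ^ 2 + (∑ v, q v * (y v : ℝ)) ^ 2

/-- squared norm of the remainder -/
def Rq {N : ℕ} (p q : Fin (N + 3) → ℝ) (κ : ℝ) (y : Fin (N + 3) → ℤ) : ℝ :=
  ∑ v, ((y v : ℝ) - κ * (p v * (∑ u, p u * (y u : ℝ)) + q v * (∑ u, q u * (y u : ℝ)))) ^ 2

/-- number of balls -/
def Sn {N : ℕ} (y : Fin (N + 3) → ℤ) : ℝ := ∑ v, |(y v : ℝ)|

def TaskPat1 : Prop := ∀ N : ℕ, ∃ ε : ℝ, 0 < ε ∧ ∀ y : Fin (N + 3) → ℤ,
  0 < Dq (fun _ => 1) (fun _ => 0) y →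
  Rq (fun _ => 1) (fun _ => 0) (1 / (N + 3)) y ≤ ε * Dq (fun _ => 1) (fun _ => 0) y →
  (∀ v, 0 < y v) ∨ (∀ v, y v < 0)

def TaskPat2 : Prop := ∀ N : ℕ, ∃ ε : ℝ, 0 < ε ∧ ∀ (y σ : Fin (N + 3) → ℤ),
  (∀ i, σ i = 1 ∨ σ i = -1) → (∀ i, y i ≠ 0 → σ i = (y i).sign) →
  0 < Dq (fun v => Real.cos (Real.pi * (v : ℕ) / (N + 3)))
    (fun v => Real.sin (Real.pi * (v : ℕ) / (N + 3))) y →
  Rq (fun v => Real.cos (Real.pi * (v : ℕ) / (N + 3)))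
    (fun v => Real.sin (Real.pi * (v : ℕ) / (N + 3))) (2 / (N + 3)) y ≤
    ε * Dq (fun v => Real.cos (Real.pi * (v : ℕ) / (N + 3)))
      (fun v => Real.sin (Real.pi * (v : ℕ) / (N + 3))) y →
  (Finset.univ.filter (fun i => wt (-1) i * σ i * σ (i + 1) ≠ 1)).card ≤ 1

/-! ### The stopped signed linear chain -/

structure IsLin {N : ℕ} (θ : ℤ) {Ω : Type} {m : MeasurableSpace Ω} (μ : Measure Ω)
    (ℱ : Filtration ℕ m) (a : ℕ → Set Ω) (Y : ℕ → Ω → Fin (N + 3) → ℤ)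
    (c : ℕ → Ω → Fin (N + 3)) : Prop where
  ameas : ∀ n, MeasurableSet[ℱ n] (a n)
  amono : ∀ n, a (n + 1) ⊆ a n
  ymeas : ∀ n v, Measurable[ℱ n] (fun ω => Y n ω v)
  cmeas : ∀ n v, MeasurableSet[ℱ (n + 1)] {ω | c n ω = v}
  bdd : ∃ K : ℝ, ∀ ω, Sn (Y 0 ω) ≤ K
  pos : ∀ n ω, 1 ≤ Sn (Y n ω)
  cpos : ∀ n ω, ω ∈ a n → Y n ω (c n ω) ≠ 0
  stepA : ∀ n ω, ω ∈ a n → ∀ u, Y (n + 1) ω u =
    Y n ω u + A θ u (c n ω) * (Y n ω (c n ω)).sign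
  stepS : ∀ n ω, ω ∉ a n → Y (n + 1) ω = Y n ω
  sel : ∀ n v, ∀ᵐ ω ∂μ, ω ∈ a n →
    (μ[Set.indicator {ω | c n ω = v} (fun _ => (1 : ℝ)) | ℱ n]) ω = |(Y n ω v : ℝ)| / Sn (Y n ω)

/-- normaliser -/
noncomputable def Gn {N : ℕ} (lam : ℝ) {Ω : Type} (a : ℕ → Set Ω)
    (Y : ℕ → Ω → Fin (N + 3) → ℤ) (n : ℕ) (ω : Ω) : ℝ :=
  ∏ i ∈ range n, (1 + (a i).indicator (fun ω => 2 * lam / Sn (Y i ω)) ω)

/-- deterministic bounds for the normaliser -/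
def TaskG : Prop := ∀ (θ : ℤ) (_ : θ = 1 ∨ θ = -1) (lam : ℝ), 1 < lam → lam ≤ 2 →
  ∃ ρ C c : ℝ, 1 < ρ ∧ 0 < C ∧ 0 < c ∧
  (∀ (s : ℝ) (n : ℕ), 1 ≤ s → ∑ j ∈ range n, (1 + 2 * ((j : ℝ) + 1) / s) ^ (-ρ) ≤ C * s) ∧
  ∀ (N : ℕ) (Ω : Type) (m : MeasurableSpace Ω) (μ : Measure Ω) (ℱ : Filtration ℕ m)
    (a : ℕ → Set Ω) (Y : ℕ → Ω → Fin (N + 3) → ℤ) (c' : ℕ → Ω → Fin (N + 3)),
    IsLin θ μ ℱ a Y c' →
    (∀ n ω, |Sn (Y (n + 1) ω) - Sn (Y n ω)| ≤ 2) ∧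
    (∀ n ω, 1 ≤ Gn lam a Y n ω) ∧
    (∀ n ω, Gn lam a Y n ω ≤ Gn lam a Y (n + 1) ω) ∧
    (∀ t i : ℕ, t ≤ i → ∀ ω ∈ a i, Gn lam a Y t ω *
      (1 + 2 * (((i - t : ℕ) : ℝ) + 1) / Sn (Y t ω)) ^ ρ ≤ Gn lam a Y (i + 1) ω) ∧
    (∀ (t n : ℕ) (ω : Ω), (∀ j, ω ∈ a j) → t + ⌊Sn (Y t ω)⌋₊ + 1 ≤ n →
      c * Sn (Y t ω) / Gn lam a Y t ω ≤
        ∑ i ∈ Ico t n, (a i).indicator (fun ω => 1 / Gn lam a Y (i + 1) ω) ω)

/-- conditional moments of one step -/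
def TaskMom : Prop := ∀ (N : ℕ) (θ : ℤ) (_ : θ = 1 ∨ θ = -1) (lam : ℝ) (p q : Fin (N + 3) → ℝ)
  (κ lam2 : ℝ), Spec θ lam p q κ lam2 → ∃ C : ℝ, 0 < C ∧
  ∀ (Ω : Type) (m : MeasurableSpace Ω) (μ : Measure Ω) (_ : IsProbabilityMeasure μ)
    (ℱ : Filtration ℕ m) (a : ℕ → Set Ω) (Y : ℕ → Ω → Fin (N + 3) → ℤ)
    (c : ℕ → Ω → Fin (N + 3)), IsLin θ μ ℱ a Y c → ∀ n : ℕ,
    Integrable (fun ω => Dq p q (Y n ω)) μ ∧ Integrable (fun ω => Dq p q (Y n ω) ^ 2) μ ∧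
    Integrable (fun ω => Rq p q κ (Y n ω)) μ ∧
    (μ[fun ω => Dq p q (Y (n + 1) ω) | ℱ n] =ᵐ[μ] fun ω => Dq p q (Y n ω) +
      (a n).indicator (fun ω => 2 * lam * Dq p q (Y n ω) / Sn (Y n ω) + lam ^ 2) ω) ∧
    (μ[fun ω => Dq p q (Y (n + 1) ω) ^ 2 | ℱ n] ≤ᵐ[μ] fun ω => Dq p q (Y n ω) ^ 2 +
      (a n).indicator (fun ω => 4 * lam * Dq p q (Y n ω) ^ 2 / Sn (Y n ω) +
        C * (Dq p q (Y n ω) + 1)) ω) ∧
    (μ[fun ω => Rq p q κ (Y (n + 1) ω) | ℱ n] ≤ᵐ[μ] fun ω => Rq p q κ (Y n ω) +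
      (a n).indicator (fun ω => 2 * lam2 * Rq p q κ (Y n ω) / Sn (Y n ω) + C) ω)

/-- the common setting of the remaining probability tasks -/
def Setting (T : ∀ (N : ℕ) (lam : ℝ) (p q : Fin (N + 3) → ℝ) (κ : ℝ) (Ω : Type)
    (_ : MeasurableSpace Ω) (_ : Measure Ω) (_ : Filtration ℕ ‹MeasurableSpace Ω›)
    (_ : ℕ → Set Ω) (_ : ℕ → Ω → Fin (N + 3) → ℤ), Prop) : Prop :=
  ∀ (N : ℕ) (θ : ℤ) (_ : θ = 1 ∨ θ = -1) (lam : ℝ) (p q : Fin (N + 3) → ℝ)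
  (κ lam2 : ℝ), Spec θ lam p q κ lam2 →
  ∀ (Ω : Type) (m : MeasurableSpace Ω) (μ : Measure Ω) (_ : IsProbabilityMeasure μ)
    (ℱ : Filtration ℕ m) (a : ℕ → Set Ω) (Y : ℕ → Ω → Fin (N + 3) → ℤ)
    (c : ℕ → Ω → Fin (N + 3)), IsLin θ μ ℱ a Y c → T N lam p q κ Ω m μ ℱ a Y

/-- `D_n / G_n` converges almost surely -/
def TaskDconv : Prop := TaskG → TaskMom → Setting (fun N lam p q _ Ω _ μ _ a Y =>
  ∀ᵐ ω ∂μ, ∃ d : ℝ, Tendsto (fun n => Dq p q (Y n ω) / Gn lam a Y n ω) atTop (𝓝 d))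

/-- `R_n / G_n → 0` almost surely on the event that the chain is never stopped -/
def TaskRzero : Prop := TaskG → TaskMom → Setting (fun N lam p q κ Ω _ μ _ a Y =>
  ∀ᵐ ω ∂μ, (∀ n, ω ∈ a n) →
    Tendsto (fun n => Rq p q κ (Y n ω) / Gn lam a Y n ω) atTop (𝓝 0))

/-- the `ℱ t`-measurable scale -/
noncomputable def Hn {N : ℕ} (lam : ℝ) (p q : Fin (N + 3) → ℝ) {Ω : Type} (a : ℕ → Set Ω)
    (Y : ℕ → Ω → Fin (N + 3) → ℤ) (t : ℕ) (ω : Ω) : ℝ :=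
  (Dq p q (Y t ω) + Sn (Y t ω)) / Gn lam a Y t ω

/-- first moment from below -/
def TaskM1 : Prop := TaskG → TaskMom → ∀ (N : ℕ) (θ : ℤ) (_ : θ = 1 ∨ θ = -1) (lam : ℝ)
  (p q : Fin (N + 3) → ℝ) (κ lam2 : ℝ), Spec θ lam p q κ lam2 → ∃ c : ℝ, 0 < c ∧
  ∀ (Ω : Type) (m : MeasurableSpace Ω) (μ : Measure Ω) (_ : IsProbabilityMeasure μ)
    (ℱ : Filtration ℕ m) (a : ℕ → Set Ω) (Y : ℕ → Ω → Fin (N + 3) → ℤ)
    (c' : ℕ → Ω → Fin (N + 3)), IsLin θ μ ℱ a Y c' → ∀ (t : ℕ) (B : Set Ω),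
    MeasurableSet[ℱ t] B → ∀ᶠ n in atTop,
      c * (μ.real B - μ.real (B ∩ {ω | ¬ ∀ j, ω ∈ a j})) ≤
        ∫ ω in B, Dq p q (Y n ω) / Gn lam a Y n ω / Hn lam p q a Y t ω ∂μ

/-- second moment from above -/
def TaskM2 : Prop := TaskG → TaskMom → ∀ (N : ℕ) (θ : ℤ) (_ : θ = 1 ∨ θ = -1) (lam : ℝ)
  (p q : Fin (N + 3) → ℝ) (κ lam2 : ℝ), Spec θ lam p q κ lam2 → ∃ C : ℝ, 0 < C ∧
  ∀ (Ω : Type) (m : MeasurableSpace Ω) (μ : Measure Ω) (_ : IsProbabilityMeasure μ)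
    (ℱ : Filtration ℕ m) (a : ℕ → Set Ω) (Y : ℕ → Ω → Fin (N + 3) → ℤ)
    (c' : ℕ → Ω → Fin (N + 3)), IsLin θ μ ℱ a Y c' → ∀ (t n : ℕ) (B : Set Ω), t ≤ n →
    MeasurableSet[ℱ t] B →
      Integrable (fun ω => (Dq p q (Y n ω) / Gn lam a Y n ω / Hn lam p q a Y t ω) ^ 2) μ ∧
      ∫ ω in B, (Dq p q (Y n ω) / Gn lam a Y n ω / Hn lam p q a Y t ω) ^ 2 ∂μ ≤ C * μ.real B

/-- abstract Paley-Zygmund and Levy argument: a nonnegative adapted process `Z` with an almost sure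
limit is almost surely not convergent to `0` on `F = ⋂ a n` -/
def TaskPZ : Prop := ∀ (Ω : Type) (m : MeasurableSpace Ω) (μ : Measure Ω)
    (_ : IsProbabilityMeasure μ) (ℱ : Filtration ℕ m) (a : ℕ → Set Ω) (Z H : ℕ → Ω → ℝ)
    (c C : ℝ), 0 < c → 0 < C → (∀ n, MeasurableSet[ℱ n] (a n)) →
    (∀ n, Measurable[ℱ n] (Z n)) → (∀ n, Measurable[ℱ n] (H n)) →
    (∀ n ω, 0 ≤ Z n ω) → (∀ n ω, 0 < H n ω) →
    (∀ᵐ ω ∂μ, ∃ d : ℝ, Tendsto (fun n => Z n ω) atTop (𝓝 d)) →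
    (∀ (t : ℕ) (B : Set Ω), MeasurableSet[ℱ t] B → ∀ᶠ n in atTop,
      c * (μ.real B - μ.real (B ∩ {ω | ¬ ∀ j, ω ∈ a j})) ≤ ∫ ω in B, Z n ω / H t ω ∂μ) →
    (∀ (t n : ℕ) (B : Set Ω), t ≤ n → MeasurableSet[ℱ t] B →
      Integrable (fun ω => (Z n ω / H t ω) ^ 2) μ ∧
      ∫ ω in B, (Z n ω / H t ω) ^ 2 ∂μ ≤ C * μ.real B) →
    ∀ᵐ ω ∂μ, (∀ n, ω ∈ a n) → ¬ Tendsto (fun n => Z n ω) atTop (𝓝 0)

/-- the limit theorem for the stopped chain -/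
def TaskL : Prop := ∀ (N : ℕ) (θ : ℤ) (_ : θ = 1 ∨ θ = -1) (lam : ℝ) (p q : Fin (N + 3) → ℝ)
  (κ lam2 : ℝ), Spec θ lam p q κ lam2 →
  ∀ (Ω : Type) (m : MeasurableSpace Ω) (μ : Measure Ω) (_ : IsProbabilityMeasure μ)
    (ℱ : Filtration ℕ m) (a : ℕ → Set Ω) (Y : ℕ → Ω → Fin (N + 3) → ℤ)
    (c : ℕ → Ω → Fin (N + 3)), IsLin θ μ ℱ a Y c → ∀ ε : ℝ, 0 < ε →
    ∀ᵐ ω ∂μ, (∀ n, ω ∈ a n) → ∀ᶠ n in atTop, 0 < Dq p q (Y n ω) ∧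
      Rq p q κ (Y n ω) ≤ ε * Dq p q (Y n ω)

/-- From the urn process on the cycle, restarted at a time `t0`, to the stopped chain.  `σ0` is a
signing of the (random) configuration at time `t0`. -/
def TaskLink : Prop := TaskSgEx → TaskSgStep → ∀ (N s : ℕ) (x0 : Conf (Fin (N + 3)) s),
  0 < total x0 → ∀ (Ω : Type) (m : MeasurableSpace Ω) (μ : Measure Ω)
    (_ : IsProbabilityMeasure μ) (ℱ : Filtration ℕ m) (X : ℕ → Ω → Conf (Fin (N + 3)) s)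
    (c : ℕ → Ω → Fin (N + 3)), IsUrn (SimpleGraph.cycleGraph (N + 3)) x0 μ ℱ X c →
    ∀ t0 e : ℕ, ∃ (ℱ' : Filtration ℕ m) (a : ℕ → Set Ω) (Y : ℕ → Ω → Fin (N + 3) → ℤ)
      (c' : ℕ → Ω → Fin (N + 3)), IsLin ((-1) ^ e) μ ℱ' a Y c' ∧
      ∀ ω, (∀ t, t0 ≤ t → E (X t ω) = e) → (∀ n, ω ∈ a n) ∧
        ∀ n, ∃ σ : Fin (N + 3) → ℤ, Sg ((-1) ^ e) (X (t0 + n) ω) σ ∧
          ∀ v, Y n ω v = σ v * ((X (t0 + n) ω v).1 : ℤ)

end H483C
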