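import Mathlib
import Pool.Agent.H483R3.Cyc.Stmts

/-! Project H483-CYC, task SgEx (helper862). -/

set_option autoImplicit false

namespace H483C.SgEx

open Finset H483C

theorem t : TaskSgEx := by
  classical
  intro N s x
  let f : ℕ → ℤ := fun j =>
    if (x (Fin.ofNat (N + 3) j)).2 = (x (Fin.ofNat (N + 3) j + 1)).2 then 1 else -1
  have hf : ∀ i : Fin (N + 3), f i.val = if (x i).2 = (x (i + 1)).2 then 1 else -1 := by
    intro i
    have e : Fin.ofNat (N + 3) i.val = i := by
      apply Fin.ext
      exact Nat.mod_eq_of_lt i.isLt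
    show (if (x (Fin.ofNat (N + 3) i.val)).2 = (x (Fin.ofNat (N + 3) i.val + 1)).2
      then (1 : ℤ) else -1) = _
    rw [e]
  have hf1 : ∀ j, f j * f j = 1 := by
    intro j
    show (if _ then (1 : ℤ) else -1) * (if _ then (1 : ℤ) else -1) = 1
    split_ifs <;> norm_num
  let σ : Fin (N + 3) → ℤ := fun i => ∏ j ∈ range i.val, f j
  have hP : ∀ n, (∏ j ∈ range n, f j = 1 ∨ ∏ j ∈ range n, f j = -1) := by
    intro n
    induction n with
    | zero => left; simp
    | succ n ih =>
      rw [prod_range_succ]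
      have h1 : f n = 1 ∨ f n = -1 := by
        show (if _ then (1 : ℤ) else -1) = 1 ∨ (if _ then (1 : ℤ) else -1) = -1
        split_ifs
        · left; rfl
        · right; rfl
      rcases ih with h | h <;> rcases h1 with h' | h' <;> rw [h, h'] <;> norm_num
  have hP2 : ∀ n, (∏ j ∈ range n, f j) * (∏ j ∈ range n, f j) = 1 := by
    intro n
    rcases hP n with h | h <;> rw [h] <;> norm_num
  have hall : ∏ j ∈ range (N + 3), f j = (-1) ^ (E x) := by
    rw [prod_range]
    have e : ∀ i : Fin (N + 3), f i.val = if (x i).2 ≠ (x (i + 1)).2 then -1 else 1 := by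
      intro i
      rw [hf i]
      by_cases h : (x i).2 = (x (i + 1)).2 <;> simp [h]
    rw [prod_congr rfl (fun i _ => e i), prod_ite, prod_const_one, mul_one, prod_const]
    rfl
  have key : ∀ i, wt ((-1) ^ (E x)) i * σ i * σ (i + 1) = f i.val := by
    intro i
    by_cases hi : i = Fin.last (N + 2)
    · have h1 : wt ((-1) ^ (E x)) i = (-1) ^ (E x) := by rw [wt, if_pos hi]
      have h2 : σ (i + 1) = 1 := by
        have : (i + 1).val = 0 := by rw [hi]; simp
        show ∏ j ∈ range (i + 1).val, f j = 1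
        rw [this]; simp
      have h3 : i.val = N + 2 := by rw [hi]; rfl
      rw [h1, h2, mul_one, ← hall]
      show (∏ j ∈ range (N + 2 + 1), f j) * (∏ j ∈ range i.val, f j) = f i.val
      rw [h3, prod_range_succ]
      calc (∏ j ∈ range (N + 2), f j) * f (N + 2) * (∏ j ∈ range (N + 2), f j)
          = ((∏ j ∈ range (N + 2), f j) * (∏ j ∈ range (N + 2), f j)) * f (N + 2) := by ring
        _ = f (N + 2) := by rw [hP2, one_mul]
    · have h1 : wt ((-1) ^ (E x)) i = 1 := by rw [wt, if_neg hi]
      have h2 : (i + 1).val = i.val + 1 := by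
        rw [Fin.val_add_one, if_neg hi]
      rw [h1, one_mul]
      show (∏ j ∈ range i.val, f j) * (∏ j ∈ range (i + 1).val, f j) = f i.val
      rw [h2, prod_range_succ, ← mul_assoc, hP2, one_mul]
  refine ⟨σ, fun i => hP i.val, fun i => ?_⟩
  rw [key i, hf i]
  by_cases h : (x i).2 = (x (i + 1)).2
  · simp [h]
  · simp [h]

end H483C.SgEx
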