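import Pool.Agent.H483R3.Cyc.Stmts

set_option autoImplicit false

/-! TaskMom of H483-CYC (helper109): conditional moments of one step. -/

open MeasureTheory ProbabilityTheory Filter Topology Finset

namespace H483C.TMom

/-! ### algebra -/

lemma wt_abs {N : ℕ} (θ : ℤ) (i : Fin (N + 3)) : |wt θ i| ≤ |θ| + 1 := by
  unfold wt
  split_ifs
  · linarith [abs_nonneg θ]
  · simp

lemma A_abs {N : ℕ} (θ : ℤ) (u v : Fin (N + 3)) : |A θ u v| ≤ |θ| + 1 := by
  unfold A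
  split_ifs
  · exact wt_abs θ v
  · exact wt_abs θ u
  · simp; positivity

lemma A_symm {N : ℕ} (θ : ℤ) (u v : Fin (N + 3)) : A θ u v = A θ v u := by
  unfold A
  by_cases h1 : v + 1 = u
  · by_cases h2 : u + 1 = v
    · exfalso
      rw [← h1, add_assoc] at h2
      have h3 : (1 : Fin (N + 3)) + 1 = 0 := by
        have : v + (1 + 1) = v + 0 := by rw [h2, add_zero]
        exact add_left_cancel this
      have h4 := congrArg Fin.val h3
      simp [Fin.val_add] at h4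
      rw [Nat.mod_eq_of_lt (by omega)] at h4
      omega
    · rw [if_pos h1, if_neg h2, if_pos h1]
  · by_cases h2 : u + 1 = v
    · rw [if_neg h1, if_pos h2, if_pos h2]
    · rw [if_neg h1, if_neg h2, if_neg h2, if_neg h1]

/-- one step -/
def stp {N : ℕ} (θ : ℤ) (y : Fin (N + 3) → ℤ) (v : Fin (N + 3)) : Fin (N + 3) → ℤ :=
  fun u => y u + A θ u v * (y v).sign

lemma sign_mul (k : ℤ) : |(k : ℝ)| * ((k.sign : ℤ) : ℝ) = k := by
  have h : ((k.sign * |k| : ℤ) : ℝ) = k := by rw [Int.sign_mul_abs]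
  rw [Int.cast_mul, Int.cast_abs] at h
  rw [mul_comm]; exact h

lemma sign_sq (k : ℤ) : |(k : ℝ)| * ((k.sign : ℤ) : ℝ) ^ 2 = |(k : ℝ)| := by
  rcases lt_trichotomy k 0 with h | h | h
  · simp [Int.sign_eq_neg_one_of_neg h]
  · simp [h]
  · simp [Int.sign_eq_one_of_pos h]

lemma sign_sq_le (k : ℤ) : ((k.sign : ℤ) : ℝ) ^ 2 ≤ 1 := by
  rcases lt_trichotomy k 0 with h | h | h
  · simp [Int.sign_eq_neg_one_of_neg h]
  · simp [h]
  · simp [Int.sign_eq_one_of_pos h]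

section alg
variable {N : ℕ} {θ : ℤ} {lam : ℝ}

lemma U_stp {p : Fin (N + 3) → ℝ}
    (hp : ∀ v, ∑ u, p u * (A θ u v : ℝ) = lam * p v) (y : Fin (N + 3) → ℤ) (v : Fin (N + 3)) :
    ∑ u, p u * ((stp θ y v u : ℤ) : ℝ) =
      ∑ u, p u * (y u : ℝ) + lam * p v * (((y v).sign : ℤ) : ℝ) := by
  rw [← hp v, Finset.sum_mul, ← Finset.sum_add_distrib]
  refine Finset.sum_congr rfl fun u _ => ?_
  unfold stp
  push_cast
  ring

lemma W_one {y : Fin (N + 3) → ℤ} (hS : 1 ≤ Sn y) (c : ℝ) :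
    ∑ v, |(y v : ℝ)| / Sn y * c = c := by
  rw [← Finset.sum_mul, ← Finset.sum_div]
  have : ∑ v, |(y v : ℝ)| = Sn y := rfl
  rw [this, div_self (by linarith), one_mul]

lemma W_le {y : Fin (N + 3) → ℤ} (hS : 1 ≤ Sn y) {f g : Fin (N + 3) → ℝ}
    (h : ∀ v, f v ≤ g v) :
    ∑ v, |(y v : ℝ)| / Sn y * f v ≤ ∑ v, |(y v : ℝ)| / Sn y * g v :=
  Finset.sum_le_sum fun v _ =>
    mul_le_mul_of_nonneg_left (h v) (div_nonneg (abs_nonneg _) (by linarith))

variable {p q : Fin (N + 3) → ℝ} {κ lam2 : ℝ}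

lemma D_stp (H : Spec θ lam p q κ lam2) (y : Fin (N + 3) → ℤ) (v : Fin (N + 3)) :
    Dq p q (stp θ y v) = Dq p q y +
      (2 * lam * (((y v).sign : ℤ) : ℝ) * ((∑ u, p u * (y u : ℝ)) * p v +
        (∑ u, q u * (y u : ℝ)) * q v) + lam ^ 2 * (((y v).sign : ℤ) : ℝ) ^ 2) := by
  unfold Dq
  rw [U_stp H.eigp, U_stp H.eigq]
  have := H.unit v
  linear_combination (lam ^ 2 * (((y v).sign : ℤ) : ℝ) ^ 2) * this

lemma D_W (_H : Spec θ lam p q κ lam2) {y : Fin (N + 3) → ℤ} (hS : 1 ≤ Sn y) :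
    ∑ v, |(y v : ℝ)| / Sn y * (2 * lam * (((y v).sign : ℤ) : ℝ) *
      ((∑ u, p u * (y u : ℝ)) * p v + (∑ u, q u * (y u : ℝ)) * q v) +
        lam ^ 2 * (((y v).sign : ℤ) : ℝ) ^ 2) = 2 * lam * Dq p q y / Sn y + lam ^ 2 := by
  have h0 : Sn y ≠ 0 := by linarith
  have h1 : ∀ v, |(y v : ℝ)| / Sn y * (2 * lam * (((y v).sign : ℤ) : ℝ) *
      ((∑ u, p u * (y u : ℝ)) * p v + (∑ u, q u * (y u : ℝ)) * q v) +
        lam ^ 2 * (((y v).sign : ℤ) : ℝ) ^ 2) =
      2 * lam / Sn y * (∑ u, p u * (y u : ℝ)) * (p v * (y v : ℝ)) +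
      2 * lam / Sn y * (∑ u, q u * (y u : ℝ)) * (q v * (y v : ℝ)) +
      |(y v : ℝ)| / Sn y * lam ^ 2 := by
    intro v
    have e1 := sign_mul (y v)
    have e2 := sign_sq (y v)
    generalize (∑ u, p u * (y u : ℝ)) = P
    generalize (∑ u, q u * (y u : ℝ)) = Q
    field_simp
    linear_combination (2 * lam * (P * p v + Q * q v)) * e1 + lam ^ 2 * e2
  rw [Finset.sum_congr rfl fun v _ => h1 v, Finset.sum_add_distrib, Finset.sum_add_distrib,
    ← Finset.mul_sum, ← Finset.mul_sum, W_one hS]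
  unfold Dq
  ring

lemma Dq_nonneg (y : Fin (N + 3) → ℤ) : 0 ≤ Dq p q y := by unfold Dq; positivity

lemma D_W' (H : Spec θ lam p q κ lam2) {y : Fin (N + 3) → ℤ} (hS : 1 ≤ Sn y) :
    ∑ v, |(y v : ℝ)| / Sn y * (Dq p q (stp θ y v) - Dq p q y) =
      2 * lam * Dq p q y / Sn y + lam ^ 2 := by
  rw [← D_W H hS]
  refine Finset.sum_congr rfl fun v _ => ?_
  rw [D_stp H]; ring

lemma D2_W (H : Spec θ lam p q κ lam2) {y : Fin (N + 3) → ℤ} (hS : 1 ≤ Sn y) :
    ∑ v, |(y v : ℝ)| / Sn y * (Dq p q (stp θ y v) ^ 2 - Dq p q y ^ 2) ≤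
      4 * lam * Dq p q y ^ 2 / Sn y + 40 * (Dq p q y + 1) := by
  have hD := Dq_nonneg (p := p) (q := q) y
  have h1 := H.h1
  have h2 := H.h2
  have hl2 : lam ^ 2 ≤ 4 := by nlinarith
  have hl4 : lam ^ 4 ≤ 16 := by nlinarith [sq_nonneg (lam ^ 2), sq_nonneg lam]
  have hδ : ∀ v, Dq p q (stp θ y v) ^ 2 - Dq p q y ^ 2 ≤
      2 * Dq p q y * (Dq p q (stp θ y v) - Dq p q y) + 32 * (Dq p q y + 1) := by
    intro v
    have e := D_stp H y v
    have hs := sign_sq_le (y v)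
    set s : ℝ := (((y v).sign : ℤ) : ℝ)
    set w : ℝ := (∑ u, p u * (y u : ℝ)) * p v + (∑ u, q u * (y u : ℝ)) * q v with hw
    have hw2 : w ^ 2 ≤ Dq p q y := by
      have hu := H.unit v
      have : Dq p q y = w ^ 2 + ((∑ u, p u * (y u : ℝ)) * q v - (∑ u, q u * (y u : ℝ)) * p v) ^ 2 := by
        unfold Dq
        rw [hw]
        linear_combination (-((∑ u, p u * (y u : ℝ)) ^ 2 + (∑ u, q u * (y u : ℝ)) ^ 2)) * hu
      rw [this]
      nlinarith [sq_nonneg ((∑ u, p u * (y u : ℝ)) * q v - (∑ u, q u * (y u : ℝ)) * p v)]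
    have hs0 : 0 ≤ s ^ 2 := sq_nonneg s
    have hδ2 : (2 * lam * s * w + lam ^ 2 * s ^ 2) ^ 2 ≤ 32 * (Dq p q y + 1) := by
      have a1 : (2 * lam * s * w + lam ^ 2 * s ^ 2) ^ 2 ≤
          2 * (4 * lam ^ 2 * s ^ 2 * w ^ 2) + 2 * (lam ^ 4 * (s ^ 2) ^ 2) := by
        nlinarith [sq_nonneg (2 * lam * s * w - lam ^ 2 * s ^ 2)]
      have a2 : s ^ 2 * w ^ 2 ≤ Dq p q y := by nlinarith [sq_nonneg w]
      have a3 : lam ^ 2 * (s ^ 2 * w ^ 2) ≤ 4 * Dq p q y := by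
        have : 0 ≤ s ^ 2 * w ^ 2 := by positivity
        nlinarith [sq_nonneg lam]
      have a4 : (s ^ 2) ^ 2 ≤ 1 := by nlinarith
      have a5 : lam ^ 4 * (s ^ 2) ^ 2 ≤ 16 := by
        have : 0 ≤ lam ^ 4 := by positivity
        nlinarith [sq_nonneg (s ^ 2)]
      nlinarith
    have hd : Dq p q (stp θ y v) - Dq p q y = 2 * lam * s * w + lam ^ 2 * s ^ 2 := by
      rw [e]; ring
    have : Dq p q (stp θ y v) ^ 2 - Dq p q y ^ 2 =
        2 * Dq p q y * (Dq p q (stp θ y v) - Dq p q y) +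
          (Dq p q (stp θ y v) - Dq p q y) ^ 2 := by ring
    rw [this, hd]
    linarith
  refine (W_le hS hδ).trans ?_
  have h3 : ∑ v, |(y v : ℝ)| / Sn y * (2 * Dq p q y * (Dq p q (stp θ y v) - Dq p q y) +
      32 * (Dq p q y + 1)) = 2 * Dq p q y * (2 * lam * Dq p q y / Sn y + lam ^ 2) +
      32 * (Dq p q y + 1) := by
    rw [← D_W' H hS, Finset.mul_sum]
    rw [← W_one hS (32 * (Dq p q y + 1)), ← Finset.sum_add_distrib]
    · refine Finset.sum_congr rfl fun v _ => ?_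
      rw [W_one hS]
      ring
  rw [h3]
  have h4 : 2 * Dq p q y * (2 * lam * Dq p q y / Sn y + lam ^ 2) =
      4 * lam * Dq p q y ^ 2 / Sn y + 2 * lam ^ 2 * Dq p q y := by ring
  rw [h4]
  nlinarith

/-- increment matrix of the remainder -/
def dd (θ : ℤ) (lam : ℝ) (p q : Fin (N + 3) → ℝ) (κ : ℝ) (u v : Fin (N + 3)) : ℝ :=
  (A θ u v : ℝ) - κ * (p u * (lam * p v) + q u * (lam * q v))

lemma R_W (H : Spec θ lam p q κ lam2) {y : Fin (N + 3) → ℤ} (hS : 1 ≤ Sn y) :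
    ∑ v, |(y v : ℝ)| / Sn y * (Rq p q κ (stp θ y v) - Rq p q κ y) ≤
      2 * lam2 * Rq p q κ y / Sn y + ∑ v, ∑ u, dd θ lam p q κ u v ^ 2 := by
  have h0 : Sn y ≠ 0 := by linarith
  have hS0 : 0 < Sn y := by linarith
  set r : Fin (N + 3) → ℝ := fun u =>
    (y u : ℝ) - κ * (p u * (∑ u, p u * (y u : ℝ)) + q u * (∑ u, q u * (y u : ℝ))) with hr
  have hpr : ∑ u, p u * r u = 0 := H.orthp (fun u => (y u : ℝ))
  have hqr : ∑ u, q u * r u = 0 := H.orthq (fun u => (y u : ℝ))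
  have hRr : Rq p q κ y = ∑ u, r u ^ 2 := rfl
  have hR' : ∀ v, Rq p q κ (stp θ y v) - Rq p q κ y =
      2 * (((y v).sign : ℤ) : ℝ) * (∑ u, r u * (A θ u v : ℝ)) +
        (((y v).sign : ℤ) : ℝ) ^ 2 * ∑ u, dd θ lam p q κ u v ^ 2 := by
    intro v
    have e1 : Rq p q κ (stp θ y v) = ∑ u, (r u + (((y v).sign : ℤ) : ℝ) * dd θ lam p q κ u v) ^ 2 := by
      unfold Rq
      refine Finset.sum_congr rfl fun u _ => ?_
      rw [U_stp H.eigp, U_stp H.eigq]
      simp only [hr]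
      unfold dd
      congr 1
      have : ((stp θ y v u : ℤ) : ℝ) = (y u : ℝ) + (A θ u v : ℝ) * (((y v).sign : ℤ) : ℝ) := by
        unfold stp; push_cast; ring
      rw [this]; ring
    have e2 : ∑ u, r u * dd θ lam p q κ u v = ∑ u, r u * (A θ u v : ℝ) := by
      have : ∀ u, r u * dd θ lam p q κ u v = r u * (A θ u v : ℝ) -
          (κ * lam * p v * (p u * r u) + κ * lam * q v * (q u * r u)) := by
        intro u; unfold dd; ring
      rw [Finset.sum_congr rfl fun u _ => this u, Finset.sum_sub_distrib, Finset.sum_add_distrib,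
        ← Finset.mul_sum, ← Finset.mul_sum, hpr, hqr]
      ring
    rw [e1, hRr, ← e2, Finset.mul_sum, Finset.mul_sum, ← Finset.sum_sub_distrib,
      ← Finset.sum_add_distrib]
    refine Finset.sum_congr rfl fun u _ => ?_
    ring
  have hC : ∀ v, ∑ u, dd θ lam p q κ u v ^ 2 ≤ ∑ v, ∑ u, dd θ lam p q κ u v ^ 2 := by
    intro v
    exact Finset.single_le_sum (f := fun v => ∑ u, dd θ lam p q κ u v ^ 2)
      (fun v _ => Finset.sum_nonneg fun u _ => sq_nonneg _) (Finset.mem_univ v)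
  have h1 : ∀ v, |(y v : ℝ)| / Sn y * (Rq p q κ (stp θ y v) - Rq p q κ y) =
      2 / Sn y * ((y v : ℝ) * ∑ u, r u * (A θ u v : ℝ)) +
        |(y v : ℝ)| / Sn y * ∑ u, dd θ lam p q κ u v ^ 2 := by
    intro v
    rw [hR' v]
    have e1 := sign_mul (y v)
    have e2 := sign_sq (y v)
    generalize (∑ u, dd θ lam p q κ u v ^ 2) = P
    generalize (∑ u, r u * (A θ u v : ℝ)) = Q
    field_simp
    linear_combination (2 * Q) * e1 + P * e2
  rw [Finset.sum_congr rfl fun v _ => h1 v, Finset.sum_add_distrib, ← Finset.mul_sum]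
  have h2 : ∑ v, |(y v : ℝ)| / Sn y * ∑ u, dd θ lam p q κ u v ^ 2 ≤
      ∑ v, ∑ u, dd θ lam p q κ u v ^ 2 := by
    refine (W_le hS hC).trans ?_
    rw [W_one hS]
  have h3 : ∑ v, (y v : ℝ) * ∑ u, r u * (A θ u v : ℝ) ≤ lam2 * Rq p q κ y := by
    have hy : ∀ v, (y v : ℝ) = r v +
        κ * (p v * (∑ u, p u * (y u : ℝ)) + q v * (∑ u, q u * (y u : ℝ))) := by
      intro v; simp only [hr]; ring
    have hg := H.gap r hpr hqr
    have e1 : ∑ v, (y v : ℝ) * ∑ u, r u * (A θ u v : ℝ) =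
        ∑ u, ∑ v, r u * (A θ u v : ℝ) * r v := by
      have e2 : ∀ v, (y v : ℝ) * ∑ u, r u * (A θ u v : ℝ) =
          (∑ u, r u * (A θ u v : ℝ) * r v) +
          (κ * (∑ u, p u * (y u : ℝ)) * (∑ u, r u * (p v * (A θ v u : ℝ))) +
           κ * (∑ u, q u * (y u : ℝ)) * (∑ u, r u * (q v * (A θ v u : ℝ)))) := by
        intro v
        rw [hy v]
        generalize (∑ u, p u * (y u : ℝ)) = P
        generalize (∑ u, q u * (y u : ℝ)) = Q
        rw [add_mul, Finset.mul_sum, Finset.mul_sum, Finset.mul_sum, Finset.mul_sum,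
          ← Finset.sum_add_distrib, ← Finset.sum_add_distrib, ← Finset.sum_add_distrib]
        refine Finset.sum_congr rfl fun u _ => ?_
        rw [A_symm θ v u]
        ring
      rw [Finset.sum_congr rfl fun v _ => e2 v, Finset.sum_add_distrib, Finset.sum_add_distrib,
        ← Finset.mul_sum, ← Finset.mul_sum, Finset.sum_comm]
      have e3 : ∑ v, ∑ u, r u * (p v * (A θ v u : ℝ)) = 0 := by
        rw [Finset.sum_comm]
        have : ∀ u, ∑ v, r u * (p v * (A θ v u : ℝ)) = lam * (p u * r u) := by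
          intro u
          rw [← Finset.mul_sum, H.eigp u]; ring
        rw [Finset.sum_congr rfl fun u _ => this u, ← Finset.mul_sum, hpr, mul_zero]
      have e4 : ∑ v, ∑ u, r u * (q v * (A θ v u : ℝ)) = 0 := by
        rw [Finset.sum_comm]
        have : ∀ u, ∑ v, r u * (q v * (A θ v u : ℝ)) = lam * (q u * r u) := by
          intro u
          rw [← Finset.mul_sum, H.eigq u]; ring
        rw [Finset.sum_congr rfl fun u _ => this u, ← Finset.mul_sum, hqr, mul_zero]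
      rw [e3, e4]; ring
    rw [e1]
    exact hg
  have h4 : 2 / Sn y * ∑ v, (y v : ℝ) * ∑ u, r u * (A θ u v : ℝ) ≤
      2 * lam2 * Rq p q κ y / Sn y := by
    have : 2 * lam2 * Rq p q κ y / Sn y = 2 / Sn y * (lam2 * Rq p q κ y) := by ring
    rw [this]
    exact mul_le_mul_of_nonneg_left h3 (by positivity)
  linarith

end alg


/-! ### probability -/

section prob
variable {N : ℕ} {θ : ℤ} {Ω : Type} {m : MeasurableSpace Ω} {μ : Measure Ω}
  [IsProbabilityMeasure μ] {ℱ : Filtration ℕ m} {a : ℕ → Set Ω}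
  {Y : ℕ → Ω → Fin (N + 3) → ℤ} {c : ℕ → Ω → Fin (N + 3)}

lemma Y_bdd (h : IsLin θ μ ℱ a Y c) (n : ℕ) : ∃ L : ℤ, ∀ ω v, |Y n ω v| ≤ L := by
  induction n with
  | zero =>
    obtain ⟨K, hK⟩ := h.bdd
    refine ⟨⌈K⌉, fun ω v => ?_⟩
    have h1 : |(Y 0 ω v : ℝ)| ≤ Sn (Y 0 ω) :=
      Finset.single_le_sum (f := fun v => |(Y 0 ω v : ℝ)|) (fun v _ => abs_nonneg _)
        (Finset.mem_univ v)
    have h2 : ((|Y 0 ω v| : ℤ) : ℝ) ≤ (⌈K⌉ : ℝ) := by
      rw [Int.cast_abs]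
      exact (h1.trans (hK ω)).trans (Int.le_ceil K)
    exact_mod_cast h2
  | succ n ih =>
    obtain ⟨L, hL⟩ := ih
    refine ⟨L + (|θ| + 1), fun ω v => ?_⟩
    by_cases hω : ω ∈ a n
    · rw [h.stepA n ω hω v]
      have h1 := A_abs θ v (c n ω)
      have h2 : |(Y n ω (c n ω)).sign| ≤ 1 := by
        rcases lt_trichotomy (Y n ω (c n ω)) 0 with h | h | h
        · simp [Int.sign_eq_neg_one_of_neg h]
        · simp [h]
        · simp [Int.sign_eq_one_of_pos h]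
      have h3 : |A θ v (c n ω) * (Y n ω (c n ω)).sign| ≤ |θ| + 1 := by
        rw [abs_mul]
        calc |A θ v (c n ω)| * |(Y n ω (c n ω)).sign| ≤ (|θ| + 1) * 1 :=
              mul_le_mul h1 h2 (abs_nonneg _) (by positivity)
          _ = |θ| + 1 := mul_one _
      exact (abs_add_le _ _).trans (add_le_add (hL ω v) h3)
    · rw [h.stepS n ω hω]
      have := hL ω v
      have h0 : 0 ≤ |θ| := abs_nonneg _
      linarith

lemma fun_bdd (h : IsLin θ μ ℱ a Y c) (n : ℕ) (g : (Fin (N + 3) → ℤ) → ℝ) :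
    ∃ M : ℝ, ∀ ω, |g (Y n ω)| ≤ M := by
  obtain ⟨L, hL⟩ := Y_bdd h n
  have hfin : (Set.Icc (fun _ : Fin (N + 3) => -L) (fun _ => L)).Finite := Set.finite_Icc _ _
  obtain ⟨M, hM⟩ := (hfin.image (fun y => |g y|)).bddAbove
  refine ⟨M, fun ω => hM ⟨Y n ω, ?_, rfl⟩⟩
  exact ⟨fun v => (abs_le.1 (hL ω v)).1, fun v => (abs_le.1 (hL ω v)).2⟩

lemma Y_meas (h : IsLin θ μ ℱ a Y c) (n : ℕ) : Measurable[ℱ n] (Y n) := by
  refine @measurable_pi_lambda Ω (Fin (N + 3)) (fun _ => ℤ) (ℱ n) _ (Y n) fun v => h.ymeas n v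

lemma fun_meas (h : IsLin θ μ ℱ a Y c) (n : ℕ) (g : (Fin (N + 3) → ℤ) → ℝ) :
    Measurable[ℱ n] (fun ω => g (Y n ω)) :=
  (Measurable.of_discrete (f := g)).comp (Y_meas h n)

lemma fun_int (h : IsLin θ μ ℱ a Y c) (n : ℕ) (g : (Fin (N + 3) → ℤ) → ℝ) :
    Integrable (fun ω => g (Y n ω)) μ := by
  obtain ⟨M, hM⟩ := fun_bdd h n g
  refine Integrable.of_bound (((fun_meas h n g).mono (ℱ.le n) le_rfl).aestronglyMeasurable) M
    (Eventually.of_forall fun ω => ?_)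
  rw [Real.norm_eq_abs]; exact hM ω

open Classical in
/-- values after the step -/
noncomputable def Psi (θ : ℤ) (a : ℕ → Set Ω) (Y : ℕ → Ω → Fin (N + 3) → ℤ)
    (g : (Fin (N + 3) → ℤ) → ℝ) (n : ℕ) (v : Fin (N + 3)) (ω : Ω) : ℝ :=
  if ω ∈ a n then g (stp θ (Y n ω) v) else g (Y n ω)

lemma Psi_meas (h : IsLin θ μ ℱ a Y c) (n : ℕ) (g : (Fin (N + 3) → ℤ) → ℝ) (v : Fin (N + 3)) :
    Measurable[ℱ n] (Psi θ a Y g n v) := by
  unfold Psi
  exact Measurable.ite (h.ameas n) (fun_meas h n (fun y => g (stp θ y v))) (fun_meas h n g)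

lemma Psi_bdd (h : IsLin θ μ ℱ a Y c) (n : ℕ) (g : (Fin (N + 3) → ℤ) → ℝ) (v : Fin (N + 3)) :
    ∃ M : ℝ, ∀ ω, |Psi θ a Y g n v ω| ≤ M := by
  obtain ⟨M1, h1⟩ := fun_bdd h n (fun y => g (stp θ y v))
  obtain ⟨M2, h2⟩ := fun_bdd h n g
  refine ⟨max M1 M2, fun ω => ?_⟩
  unfold Psi
  split_ifs
  · exact (h1 ω).trans (le_max_left _ _)
  · exact (h2 ω).trans (le_max_right _ _)

/-- the general one step formula -/
lemma condStep (h : IsLin θ μ ℱ a Y c) (n : ℕ) (g : (Fin (N + 3) → ℤ) → ℝ) :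
    μ[fun ω => g (Y (n + 1) ω) | ℱ n] =ᵐ[μ] fun ω => g (Y n ω) +
      (a n).indicator (fun ω => ∑ v, |(Y n ω v : ℝ)| / Sn (Y n ω) *
        (g (stp θ (Y n ω) v) - g (Y n ω))) ω := by
  classical
  set J : Fin (N + 3) → Ω → ℝ := fun v => Set.indicator {ω | c n ω = v} (fun _ => (1 : ℝ)) with hJ
  have hJm : ∀ v, MeasurableSet {ω | c n ω = v} := fun v => ℱ.le (n + 1) _ (h.cmeas n v)
  have hJi : ∀ v, Integrable (J v) μ := fun v => (integrable_const (1 : ℝ)).indicator (hJm v)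
  have hPJ : ∀ v, Integrable (Psi θ a Y g n v * J v) μ := by
    intro v
    obtain ⟨M, hM⟩ := Psi_bdd h n g v
    refine (hJi v).bdd_mul (c := M)
      (((Psi_meas h n g v).mono (ℱ.le n) le_rfl).aestronglyMeasurable) ?_
    exact Eventually.of_forall fun ω => by rw [Real.norm_eq_abs]; exact hM ω
  have e1 : (fun ω => g (Y (n + 1) ω)) = ∑ v, Psi θ a Y g n v * J v := by
    funext ω
    rw [Finset.sum_apply, Finset.sum_eq_single (c n ω)]
    · simp only [Pi.mul_apply, hJ]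
      rw [Set.indicator_of_mem (by simp), mul_one]
      unfold Psi
      split_ifs with hω
      · congr 1
        funext u
        rw [h.stepA n ω hω u]; rfl
      · rw [h.stepS n ω hω]
    · intro v _ hv
      simp only [Pi.mul_apply, hJ]
      rw [Set.indicator_of_notMem (by simpa using Ne.symm hv), mul_zero]
    · intro hh; exact absurd (Finset.mem_univ _) hh
  have e2 := condExp_finset_sum (μ := μ) (s := Finset.univ) (f := fun v => Psi θ a Y g n v * J v)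
    (fun v _ => hPJ v) (ℱ n)
  have e3 : ∀ v, μ[Psi θ a Y g n v * J v | ℱ n] =ᵐ[μ] Psi θ a Y g n v * μ[J v | ℱ n] := fun v =>
    condExp_mul_of_stronglyMeasurable_left (Psi_meas h n g v).stronglyMeasurable (hPJ v) (hJi v)
  have e4 : ∀ᵐ ω ∂μ, ∑ v, (μ[J v | ℱ n]) ω = 1 := by
    have f1 := condExp_finset_sum (μ := μ) (s := Finset.univ) (f := J) (fun v _ => hJi v) (ℱ n)
    have f2 : (∑ v, J v) = fun _ => (1 : ℝ) := by
      funext ω
      rw [Finset.sum_apply, Finset.sum_eq_single (c n ω)]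
      · simp only [hJ]; rw [Set.indicator_of_mem (by simp)]
      · intro v _ hv
        simp only [hJ]; rw [Set.indicator_of_notMem (by simpa using Ne.symm hv)]
      · intro hh; exact absurd (Finset.mem_univ _) hh
    rw [f2, condExp_const (ℱ.le n)] at f1
    filter_upwards [f1] with ω hω
    rw [Finset.sum_apply] at hω
    exact hω.symm
  have e5 : ∀ᵐ ω ∂μ, ∀ v, (μ[Psi θ a Y g n v * J v | ℱ n]) ω =
      Psi θ a Y g n v ω * (μ[J v | ℱ n]) ω := ae_all_iff.2 e3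
  have e6 : ∀ᵐ ω ∂μ, ∀ v, ω ∈ a n → (μ[J v | ℱ n]) ω = |(Y n ω v : ℝ)| / Sn (Y n ω) :=
    ae_all_iff.2 fun v => h.sel n v
  rw [e1]
  filter_upwards [e2, e4, e5, e6] with ω h2 h4 h5 h6
  rw [h2, Finset.sum_apply]
  by_cases hω : ω ∈ a n
  · rw [Set.indicator_of_mem hω]
    have hS := h.pos n ω
    have k1 : ∑ v, (μ[Psi θ a Y g n v * J v | ℱ n]) ω =
        ∑ v, |(Y n ω v : ℝ)| / Sn (Y n ω) * g (stp θ (Y n ω) v) := by
      refine Finset.sum_congr rfl fun v _ => ?_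
      rw [h5 v, h6 v hω]
      unfold Psi
      rw [if_pos hω, mul_comm]
    rw [k1]
    have k2 := W_one hS (g (Y n ω))
    have k3 : ∑ v, |(Y n ω v : ℝ)| / Sn (Y n ω) * (g (stp θ (Y n ω) v) - g (Y n ω)) =
        ∑ v, |(Y n ω v : ℝ)| / Sn (Y n ω) * g (stp θ (Y n ω) v) -
        ∑ v, |(Y n ω v : ℝ)| / Sn (Y n ω) * g (Y n ω) := by
      rw [← Finset.sum_sub_distrib]
      exact Finset.sum_congr rfl fun v _ => by ring
    rw [k3, k2]; ring
  · rw [Set.indicator_of_notMem hω, add_zero]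
    have k1 : ∑ v, (μ[Psi θ a Y g n v * J v | ℱ n]) ω =
        ∑ v, g (Y n ω) * (μ[J v | ℱ n]) ω := by
      refine Finset.sum_congr rfl fun v _ => ?_
      rw [h5 v]
      unfold Psi
      rw [if_neg hω]
    rw [k1, ← Finset.mul_sum, h4, mul_one]

end prob

theorem t : TaskMom := by
  intro N θ hθ lam p q κ lam2 H
  have hC0 : 0 ≤ ∑ v, ∑ u, dd θ lam p q κ u v ^ 2 :=
    Finset.sum_nonneg fun v _ => Finset.sum_nonneg fun u _ => sq_nonneg _
  refine ⟨40 + ∑ v, ∑ u, dd θ lam p q κ u v ^ 2, by linarith, ?_⟩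
  intro Ω m μ hμ ℱ a Y c h n
  refine ⟨fun_int h n (Dq p q), fun_int h n (fun y => Dq p q y ^ 2), fun_int h n (Rq p q κ),
    ?_, ?_, ?_⟩
  · filter_upwards [condStep h n (Dq p q)] with ω hω
    rw [hω]
    congr 1
    by_cases ha : ω ∈ a n
    · rw [Set.indicator_of_mem ha, Set.indicator_of_mem ha, D_W' H (h.pos n ω)]
    · rw [Set.indicator_of_notMem ha, Set.indicator_of_notMem ha]
  · filter_upwards [condStep h n (fun y => Dq p q y ^ 2)] with ω hω
    rw [hω]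
    refine add_le_add le_rfl ?_
    by_cases ha : ω ∈ a n
    · rw [Set.indicator_of_mem ha, Set.indicator_of_mem ha]
      refine (D2_W H (h.pos n ω)).trans ?_
      have := Dq_nonneg (p := p) (q := q) (Y n ω)
      nlinarith
    · rw [Set.indicator_of_notMem ha, Set.indicator_of_notMem ha]
  · filter_upwards [condStep h n (Rq p q κ)] with ω hω
    rw [hω]
    refine add_le_add le_rfl ?_
    by_cases ha : ω ∈ a n
    · rw [Set.indicator_of_mem ha, Set.indicator_of_mem ha]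
      refine (R_W H (h.pos n ω)).trans ?_
      linarith
    · rw [Set.indicator_of_notMem ha, Set.indicator_of_notMem ha]

end H483C.TMom

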