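import Pool.Agent.H483R3.Cyc.Stmts

set_option autoImplicit false

open Finset

namespace H483C.TaskE

/-- number of changes of `f` around the cycle -/
def cnt {N s : ℕ} (f : Fin (N + 3) → Fin s) : ℕ :=
  ∑ i, if f i ≠ f (i + 1) then 1 else 0

lemma one_ne {N : ℕ} : (1 : Fin (N + 3)) ≠ 0 := by
  intro h
  have := congrArg Fin.val h
  simp at this

lemma two_ne {N : ℕ} : (1 : Fin (N + 3)) + 1 ≠ 0 := by
  intro h
  have := congrArg Fin.val h
  rw [Fin.val_add] at this
  simp only [Fin.val_one, Fin.val_zero] at this
  rw [Nat.mod_eq_of_lt (by omega)] at this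
  omega

lemma ne1 {N : ℕ} (v : Fin (N + 3)) : v + 1 ≠ v := by
  intro h
  exact one_ne (N := N) (add_left_cancel (h.trans (add_zero v).symm))

lemma ne2 {N : ℕ} (v : Fin (N + 3)) : v + 1 + 1 ≠ v := by
  intro h
  rw [add_assoc] at h
  exact two_ne (N := N) (add_left_cancel (h.trans (add_zero v).symm))

lemma cnt_split {N s : ℕ} (f : Fin (N + 3) → Fin s) (v : Fin (N + 3)) :
    cnt f = (if f v ≠ f (v + 1) then 1 else 0) + ((if f (v + 1) ≠ f (v + 1 + 1) then 1 else 0) +
      ∑ i ∈ (univ.erase v).erase (v + 1), if f i ≠ f (i + 1) then 1 else 0) := by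
  unfold cnt
  rw [← Finset.add_sum_erase univ _ (mem_univ v),
    ← Finset.add_sum_erase (univ.erase v) _ (mem_erase.2 ⟨ne1 v, mem_univ _⟩)]

lemma right {N s : ℕ} (f : Fin (N + 3) → Fin s) (v : Fin (N + 3)) :
    cnt (Function.update f (v + 1) (f v)) ≤ cnt f := by
  rw [cnt_split _ v, cnt_split f v]
  have h1 : Function.update f (v + 1) (f v) v = f v := Function.update_of_ne (ne1 v).symm _ _
  have h2 : Function.update f (v + 1) (f v) (v + 1) = f v := Function.update_self _ _ _
  have h3 : Function.update f (v + 1) (f v) (v + 1 + 1) = f (v + 1 + 1) :=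
    Function.update_of_ne (ne1 (v + 1)) _ _
  have h4 : ∑ i ∈ (univ.erase v).erase (v + 1),
      (if Function.update f (v + 1) (f v) i ≠ Function.update f (v + 1) (f v) (i + 1) then 1 else 0) =
      ∑ i ∈ (univ.erase v).erase (v + 1), if f i ≠ f (i + 1) then 1 else 0 := by
    refine Finset.sum_congr rfl fun i hi => ?_
    rw [mem_erase, mem_erase] at hi
    have e1 : Function.update f (v + 1) (f v) i = f i := Function.update_of_ne hi.1 _ _
    have e2 : Function.update f (v + 1) (f v) (i + 1) = f (i + 1) :=
      Function.update_of_ne (fun h => hi.2.1 (add_right_cancel h)) _ _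
    rw [e1, e2]
  rw [h1, h2, h3, h4]
  by_cases a : f v = f (v + 1)
  · rw [a]
  · by_cases b : f (v + 1) = f (v + 1 + 1)
    · rw [← b]
      simp [a]
    · simp only [ne_eq, not_true_eq_false, if_false, a, b, not_false_eq_true, if_true]
      have h5 : (if ¬ f v = f (v + 1 + 1) then 1 else 0) ≤ 1 := by split_ifs <;> simp
      omega

lemma left {N s : ℕ} (f : Fin (N + 3) → Fin s) (w : Fin (N + 3)) :
    cnt (Function.update f (w + 1) (f (w + 1 + 1))) ≤ cnt f := by
  rw [cnt_split _ w, cnt_split f w]
  have h1 : Function.update f (w + 1) (f (w + 1 + 1)) w = f w :=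
    Function.update_of_ne (ne1 w).symm _ _
  have h2 : Function.update f (w + 1) (f (w + 1 + 1)) (w + 1) = f (w + 1 + 1) :=
    Function.update_self _ _ _
  have h3 : Function.update f (w + 1) (f (w + 1 + 1)) (w + 1 + 1) = f (w + 1 + 1) :=
    Function.update_of_ne (ne1 (w + 1)) _ _
  have h4 : ∑ i ∈ (univ.erase w).erase (w + 1),
      (if Function.update f (w + 1) (f (w + 1 + 1)) i ≠
        Function.update f (w + 1) (f (w + 1 + 1)) (i + 1) then 1 else 0) =
      ∑ i ∈ (univ.erase w).erase (w + 1), if f i ≠ f (i + 1) then 1 else 0 := by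
    refine Finset.sum_congr rfl fun i hi => ?_
    rw [mem_erase, mem_erase] at hi
    have e1 : Function.update f (w + 1) (f (w + 1 + 1)) i = f i := Function.update_of_ne hi.1 _ _
    have e2 : Function.update f (w + 1) (f (w + 1 + 1)) (i + 1) = f (i + 1) :=
      Function.update_of_ne (fun h => hi.2.1 (add_right_cancel h)) _ _
    rw [e1, e2]
  rw [h1, h2, h3, h4]
  by_cases b : f (w + 1) = f (w + 1 + 1)
  · rw [b]
  · by_cases a : f w = f (w + 1)
    · rw [← a]
      have h5 : f w ≠ f (w + 1 + 1) := by rw [a]; exact b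
      simp [h5]
    · have h5 : (if ¬ f w = f (w + 1 + 1) then 1 else 0) ≤ 1 := by split_ifs <;> simp
      simp only [ne_eq, not_true_eq_false, if_false, a, b, not_false_eq_true, if_true]
      omega

lemma E_eq {N s : ℕ} (x : Conf (Fin (N + 3)) s) : E x = cnt (fun i => (x i).2) := by
  unfold E cnt
  rw [Finset.card_filter]

theorem t : H483C.TaskE := by
  intro N s x v
  rw [E_eq, E_eq]
  set f : Fin (N + 3) → Fin s := fun i => (x i).2 with hf
  set f1 : Fin (N + 3) → Fin s :=
    if (x (v + 1)).1 = 0 then Function.update f (v + 1) (f v) else f with hf1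
  have hle1 : cnt f1 ≤ cnt f := by
    rw [hf1]
    split_ifs
    · exact right f v
    · exact le_rfl
  have hf1v : f1 v = f v := by
    rw [hf1]
    split_ifs
    · exact Function.update_of_ne (ne1 v).symm _ _
    · rfl
  set f2 : Fin (N + 3) → Fin s :=
    if (x (v - 1)).1 = 0 then Function.update f1 (v - 1) (f1 v) else f1 with hf2
  have hle2 : cnt f2 ≤ cnt f1 := by
    rw [hf2]
    split_ifs
    · have h := left f1 (v - 1 - 1)
      rw [sub_add_cancel, sub_add_cancel] at h
      exact h
    · exact le_rfl
  have hvm : v - 1 ≠ v + 1 := by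
    intro h
    have h' := ne2 (v - 1)
    rw [sub_add_cancel] at h'
    exact h' h.symm
  have hvm1 : v - 1 ≠ v := by
    intro h
    have h' := ne1 (v - 1)
    rw [sub_add_cancel] at h'
    exact h' h.symm
  have key : (fun i => (step (SimpleGraph.cycleGraph (N + 3)) x v i).2) = f2 := by
    funext u
    have hadj : (SimpleGraph.cycleGraph (N + 3)).Adj v u ↔ u = v - 1 ∨ u = v + 1 := by
      rw [SimpleGraph.cycleGraph_adj]
      constructor
      · rintro (h | h)
        · left; rw [← h]; abel
        · right; rw [← h]; abel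
      · rintro (h | h)
        · left; rw [h]; abel
        · right; rw [h]; abel
    by_cases hu1 : u = v + 1
    · subst hu1
      have ha : (SimpleGraph.cycleGraph (N + 3)).Adj v (v + 1) := hadj.2 (Or.inr rfl)
      have e2 : f2 (v + 1) = f1 (v + 1) := by
        rw [hf2]
        split_ifs
        · exact Function.update_of_ne hvm.symm _ _
        · rfl
      rw [e2, hf1]
      unfold step
      by_cases h0 : (x (v + 1)).1 = 0
      · rw [if_pos ha, if_pos h0, if_pos h0, Function.update_self]
      · rw [if_pos ha, if_neg h0, if_neg h0]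
        split_ifs <;> rfl
    · have e1 : f1 u = f u := by
        rw [hf1]
        split_ifs
        · exact Function.update_of_ne hu1 _ _
        · rfl
      by_cases hu2 : u = v - 1
      · subst hu2
        have ha : (SimpleGraph.cycleGraph (N + 3)).Adj v (v - 1) := hadj.2 (Or.inl rfl)
        rw [hf2]
        unfold step
        by_cases h0 : (x (v - 1)).1 = 0
        · rw [if_pos ha, if_pos h0, if_pos h0, Function.update_self, hf1v]
        · rw [if_pos ha, if_neg h0, if_neg h0, e1]
          split_ifs <;> rfl
      · have ha : ¬ (SimpleGraph.cycleGraph (N + 3)).Adj v u := by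
          rw [hadj]
          rintro (h | h)
          · exact hu2 h
          · exact hu1 h
        have e2 : f2 u = f1 u := by
          rw [hf2]
          split_ifs
          · exact Function.update_of_ne hu2 _ _
          · rfl
        rw [e2, e1]
        unfold step
        rw [if_neg ha]
  rw [key]
  exact hle2.trans hle1

end H483C.TaskE

theorem H483C.E.t : H483C.TaskE := H483C.TaskE.t
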