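import Pool.Agent.H483R3.Cyc.Stmts

set_option autoImplicit false

/-! Task `TaskESmall` of project H483-CYC (helper563). -/

open MeasureTheory ProbabilityTheory Filter Topology Finset

open Fin.CommRing Fin.NatCast

namespace H483C.TaskESmall

theorem part1 (N s : ℕ) (x : Conf (Fin (N + 3)) s) : E x ≠ 1 := by
  intro h
  unfold E at h
  rw [Finset.card_eq_one] at h
  obtain ⟨i0, hi0⟩ := h
  have hin : i0 ∈ Finset.univ.filter (fun i => (x i).2 ≠ (x (i + 1)).2) := by
    rw [hi0]; exact Finset.mem_singleton_self _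
  have hne : (x i0).2 ≠ (x (i0 + 1)).2 := (Finset.mem_filter.mp hin).2
  have heq : ∀ i, i ≠ i0 → (x i).2 = (x (i + 1)).2 := by
    intro i hi
    by_contra hc
    have : i ∈ Finset.univ.filter (fun i => (x i).2 ≠ (x (i + 1)).2) :=
      Finset.mem_filter.mpr ⟨Finset.mem_univ _, hc⟩
    rw [hi0, Finset.mem_singleton] at this
    exact hi this
  have key : ∀ k : ℕ, k ≤ N + 2 → (x (i0 + 1 + (k : Fin (N + 3)))).2 = (x (i0 + 1)).2 := by
    intro k
    induction k with
    | zero => intro _; simp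
    | succ k ih =>
      intro hk
      have h1 := ih (by omega)
      have h2 : i0 + 1 + (k : Fin (N + 3)) ≠ i0 := by
        intro h3
        have h4 : ((k + 1 : ℕ) : Fin (N + 3)) = 0 := by
          have h5 : i0 + (1 + (k : Fin (N + 3))) = i0 + 0 := by
            rw [add_zero, ← add_assoc]; exact h3
          have h6 := add_left_cancel h5
          push_cast
          rw [add_comm (k : Fin (N + 3)) 1]; exact h6
        rw [Fin.natCast_eq_zero] at h4
        have := Nat.le_of_dvd (by omega) h4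
        omega
      have h3 := heq _ h2
      rw [← h1, h3]
      congr 2
      push_cast
      rw [add_assoc (i0 + 1)]
  have hfin := key (N + 2) le_rfl
  have h7 : i0 + 1 + ((N + 2 : ℕ) : Fin (N + 3)) = i0 := by
    have h8 : ((N + 3 : ℕ) : Fin (N + 3)) = 0 := by
      rw [Fin.natCast_eq_zero]
    have h9 : (1 : Fin (N + 3)) + ((N + 2 : ℕ) : Fin (N + 3)) = 0 := by
      rw [← h8]; push_cast; ring
    rw [add_assoc, h9, add_zero]
  rw [h7] at hfin
  exact hne hfin

theorem part2 (N s : ℕ) (x : Conf (Fin (N + 3)) s) (h : E x = 0) :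
    ∀ u v, (x u).2 = (x v).2 := by
  unfold E at h
  rw [Finset.card_eq_zero] at h
  have heq : ∀ i, (x i).2 = (x (i + 1)).2 := by
    intro i
    by_contra hc
    have : i ∈ Finset.univ.filter (fun i => (x i).2 ≠ (x (i + 1)).2) :=
      Finset.mem_filter.mpr ⟨Finset.mem_univ _, hc⟩
    rw [h] at this
    exact absurd this (Finset.notMem_empty _)
  have key : ∀ k : ℕ, (x ((k : ℕ) : Fin (N + 3))).2 = (x 0).2 := by
    intro k
    induction k with
    | zero => simp
    | succ k ih =>
      rw [← ih, heq (k : Fin (N + 3))]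
      congr 2
      push_cast
      rfl
  intro u v
  have hu := key u.val
  have hv := key v.val
  rw [Fin.cast_val_eq_self] at hu hv
  rw [hu, hv]

theorem part3 (s : ℕ) (x : Conf (Fin 3) s) (v : Fin 3) (hE : E (N := 0) x = 3)
    (hv : 0 < (x v).1) (hE' : E (N := 0) (step (SimpleGraph.cycleGraph 3) x v) = 3) :
    total (step (SimpleGraph.cycleGraph 3) x v) + 2 ≤ total x := by
  have full : ∀ y : Conf (Fin 3) s, E (N := 0) y = 3 → ∀ i : Fin 3, (y i).2 ≠ (y (i + 1)).2 := by
    intro y hy i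
    unfold E at hy
    have h1 : (Finset.univ.filter (fun i : Fin (0 + 3) => (y i).2 ≠ (y (i + 1)).2)) =
        Finset.univ := by
      apply Finset.eq_univ_of_card
      rw [hy]; rfl
    have h2 : i ∈ (Finset.univ.filter (fun i : Fin (0 + 3) => (y i).2 ≠ (y (i + 1)).2)) := by
      rw [h1]; exact Finset.mem_univ _
    exact (Finset.mem_filter.mp h2).2
  have hx := full x hE
  have hy := full _ hE'
  have x0 : (x 0).2 ≠ (x 1).2 := hx 0
  have x1 : (x 1).2 ≠ (x 2).2 := hx 1
  have x2 : (x 2).2 ≠ (x 0).2 := hx 2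
  have y0 := hy 0
  have y1 := hy 1
  have y2 := hy 2
  have a01 : (SimpleGraph.cycleGraph 3).Adj 0 1 := by decide
  have a10 : (SimpleGraph.cycleGraph 3).Adj 1 0 := by decide
  have a02 : (SimpleGraph.cycleGraph 3).Adj 0 2 := by decide
  have a20 : (SimpleGraph.cycleGraph 3).Adj 2 0 := by decide
  have a12 : (SimpleGraph.cycleGraph 3).Adj 1 2 := by decide
  have a21 : (SimpleGraph.cycleGraph 3).Adj 2 1 := by decide
  have e0 : (0 : Fin 3) + 1 = 1 := rfl
  have e1 : (1 : Fin 3) + 1 = 2 := rfl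
  have e2 : (2 : Fin 3) + 1 = 0 := rfl
  rw [e0] at y0
  rw [e1] at y1
  rw [e2] at y2
  unfold total
  rw [Fin.sum_univ_three, Fin.sum_univ_three]
  fin_cases v
  · simp only [step, Fin.zero_eta, a01, a02, SimpleGraph.irrefl, if_true, if_false] at hv y0 y1 y2 ⊢
    split_ifs at y0 y1 y2 ⊢ <;> simp_all <;> omega
  · simp only [step, Fin.mk_one, a10, a12, SimpleGraph.irrefl, if_true, if_false] at hv y0 y1 y2 ⊢
    split_ifs at y0 y1 y2 ⊢ <;> simp_all <;> omega
  · simp only [step, Fin.reduceFinMk, a20, a21, SimpleGraph.irrefl, if_true, if_false]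
      at hv y0 y1 y2 ⊢
    split_ifs at y0 y1 y2 ⊢ <;> simp_all <;> omega

theorem t : H483C.TaskESmall :=
  ⟨part1, part2, part3⟩

end H483C.TaskESmall
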