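import Pool.Agent.H483R3.Cyc.Stmts

set_option autoImplicit false

/-! Task G of the project on competing urns on cycles: deterministic bounds (helper638). -/

open MeasureTheory ProbabilityTheory Filter Topology Finset

namespace H483C.G

lemma bern (r p : ℝ) (hr : 0 < r) (hp : p ≤ 0) : 1 + p * (r - 1) ≤ r ^ p := by
  rw [Real.rpow_def_of_pos hr]
  have h1 := Real.add_one_le_exp (Real.log r * p)
  have h2 := Real.log_le_sub_one_of_pos hr
  nlinarith

lemma sum_bound (ρ s : ℝ) (hρ : 1 < ρ) (hs : 1 ≤ s) (n : ℕ) :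
    ∑ j ∈ range n, (1 + 2 * ((j : ℝ) + 1) / s) ^ (-ρ) ≤
      s / (2 * (ρ - 1)) * (1 - (1 + 2 * (n : ℝ) / s) ^ (1 - ρ)) := by
  have hs0 : 0 < s := by linarith
  have hρ0 : 0 < ρ - 1 := by linarith
  induction n with
  | zero => simp
  | succ n ih =>
    rw [Finset.sum_range_succ]
    have hn : (0 : ℝ) ≤ n := Nat.cast_nonneg n
    set u : ℝ := 1 + 2 * (n : ℝ) / s with hu
    set v : ℝ := 1 + 2 * ((n : ℝ) + 1) / s with hv
    have hu0 : 0 < u := by positivity
    have hv0 : 0 < v := by positivity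
    have hvu : v - u = 2 / s := by rw [hu, hv]; field_simp; ring
    have hb := bern (u / v) (1 - ρ) (by positivity) (by linarith)
    have h1 : u ^ (1 - ρ) = (u / v) ^ (1 - ρ) * v ^ (1 - ρ) := by
      rw [← Real.mul_rpow (by positivity) hv0.le, div_mul_cancel₀ _ hv0.ne']
    have h2 : v ^ (1 - ρ) = v * v ^ (-ρ) := by
      rw [sub_eq_add_neg, Real.rpow_add hv0, Real.rpow_one]
    have hvp : 0 < v ^ (-ρ) := Real.rpow_pos_of_pos hv0 _
    have hcast : (1 + 2 * ((n + 1 : ℕ) : ℝ) / s) = v := by rw [hv]; push_cast; ring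
    rw [hcast]
    have h3 : v ^ (-ρ) ≤ s / (2 * (ρ - 1)) * (u ^ (1 - ρ) - v ^ (1 - ρ)) := by
      have h4 : (ρ - 1) * (2 / s) * v ^ (-ρ) ≤ u ^ (1 - ρ) - v ^ (1 - ρ) := by
        have h5 : (1 + (1 - ρ) * (u / v - 1)) * v ^ (1 - ρ) ≤ u ^ (1 - ρ) := by
          rw [h1]
          exact mul_le_mul_of_nonneg_right hb (Real.rpow_pos_of_pos hv0 _).le
        have h6 : (1 + (1 - ρ) * (u / v - 1)) * v ^ (1 - ρ) - v ^ (1 - ρ)
            = (ρ - 1) * (v - u) * v ^ (-ρ) := by
          rw [h2]; field_simp; ring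
        rw [hvu] at h6
        linarith
      have h7 : v ^ (-ρ) = s / (2 * (ρ - 1)) * ((ρ - 1) * (2 / s) * v ^ (-ρ)) := by
        field_simp
      rw [h7]
      exact mul_le_mul_of_nonneg_left h4 (by positivity)
    calc _ ≤ s / (2 * (ρ - 1)) * (1 - u ^ (1 - ρ)) +
          s / (2 * (ρ - 1)) * (u ^ (1 - ρ) - v ^ (1 - ρ)) := add_le_add ih h3
      _ = _ := by ring

lemma chord (lam h : ℝ) (hl : 1 < lam) (h0 : 0 ≤ h) (h2 : h ≤ 2) :
    (1 + h) ^ (Real.logb 3 (1 + 2 * lam)) ≤ 1 + lam * h := by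
  have hρ : 1 < Real.logb 3 (1 + 2 * lam) := by
    rw [Real.lt_logb_iff_rpow_lt (by norm_num) (by linarith), Real.rpow_one]; linarith
  have hc := (convexOn_rpow hρ.le).2 (show (1 : ℝ) ∈ Set.Ici (0 : ℝ) from Set.mem_Ici.2 (by norm_num))
    (show (3 : ℝ) ∈ Set.Ici (0 : ℝ) from Set.mem_Ici.2 (by norm_num))
    (show 0 ≤ 1 - h / 2 by linarith) (show 0 ≤ h / 2 by linarith) (by ring)
  simp only [smul_eq_mul, Real.one_rpow] at hc
  rw [Real.rpow_logb (by norm_num) (by norm_num) (by linarith)] at hc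
  have e : (1 - h / 2) * 1 + h / 2 * 3 = 1 + h := by ring
  rw [e] at hc
  linarith

lemma abs_A_le {N : ℕ} (θ : ℤ) (hθ : θ = 1 ∨ θ = -1) (u v : Fin (N + 3)) :
    |(A θ u v : ℝ)| ≤ (if u = v + 1 then 1 else 0) + (if u = v - 1 then 1 else 0) := by
  have hw : ∀ i : Fin (N + 3), |((wt θ i : ℤ) : ℝ)| = 1 := by
    intro i; unfold wt; split_ifs
    · rcases hθ with h | h <;> simp [h]
    · simp
  unfold A
  by_cases h1 : v + 1 = u
  · rw [if_pos h1, hw, if_pos h1.symm]; split_ifs <;> norm_num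
  · rw [if_neg h1]
    by_cases h2 : u + 1 = v
    · rw [if_pos h2, hw, if_neg (fun h => h1 h.symm), if_pos (eq_sub_of_add_eq h2)]; norm_num
    · rw [if_neg h2]; split_ifs <;> norm_num

lemma sum_A_le {N : ℕ} (θ : ℤ) (hθ : θ = 1 ∨ θ = -1) (v : Fin (N + 3)) :
    ∑ u, |(A θ u v : ℝ)| ≤ 2 := by
  refine (Finset.sum_le_sum (fun u _ => abs_A_le θ hθ u v)).trans ?_
  rw [Finset.sum_add_distrib, Finset.sum_ite_eq', Finset.sum_ite_eq']
  simp; norm_num

lemma stepS {N : ℕ} {θ : ℤ} (hθ : θ = 1 ∨ θ = -1) {Ω : Type} {m : MeasurableSpace Ω}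
    {μ : Measure Ω} {ℱ : Filtration ℕ m} {a : ℕ → Set Ω} {Y : ℕ → Ω → Fin (N + 3) → ℤ}
    {c : ℕ → Ω → Fin (N + 3)} (h : IsLin θ μ ℱ a Y c) (n : ℕ) (ω : Ω) :
    |Sn (Y (n + 1) ω) - Sn (Y n ω)| ≤ 2 := by
  by_cases ha : ω ∈ a n
  · unfold Sn
    rw [← Finset.sum_sub_distrib]
    refine (Finset.abs_sum_le_sum_abs _ _).trans ?_
    refine le_trans (Finset.sum_le_sum (fun u _ => ?_)) (sum_A_le θ hθ (c n ω))
    refine (abs_abs_sub_abs_le_abs_sub _ _).trans ?_
    rw [h.stepA n ω ha u]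
    push_cast
    rw [add_sub_cancel_left, abs_mul]
    have hs : |(((Y n ω (c n ω)).sign : ℤ) : ℝ)| ≤ 1 := by
      rcases Int.lt_trichotomy (Y n ω (c n ω)) 0 with h0 | h0 | h0
      · rw [Int.sign_eq_neg_one_of_neg h0]; norm_num
      · rw [h0]; norm_num
      · rw [Int.sign_eq_one_of_pos h0]; norm_num
    exact mul_le_of_le_one_right (abs_nonneg _) hs
  · rw [h.stepS n ω ha, sub_self, abs_zero]; norm_num

/-- the drift of S along the chain -/
lemma driftS {S : ℕ → ℝ} (h : ∀ n, |S (n + 1) - S n| ≤ 2) (t m : ℕ) :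
    S (t + m) ≤ S t + 2 * m ∧ S t - 2 * m ≤ S (t + m) := by
  induction m with
  | zero => simp
  | succ m ih =>
    have h1 := abs_le.1 (h (t + m))
    rw [show t + (m + 1) = t + m + 1 by ring]
    push_cast
    constructor <;> linarith [ih.1, ih.2, h1.1, h1.2]

/-- the abstract product -/
noncomputable def P (lam : ℝ) (S : ℕ → ℝ) (t k : ℕ) : ℝ :=
  ∏ i ∈ range k, (1 + 2 * lam / S (t + i))

lemma P_lower (lam : ℝ) (hl : 1 < lam) {S : ℕ → ℝ} (h1 : ∀ n, 1 ≤ S n)
    (h : ∀ n, |S (n + 1) - S n| ≤ 2) (t k : ℕ) :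
    (1 + 2 * (k : ℝ) / S t) ^ (Real.logb 3 (1 + 2 * lam)) ≤ P lam S t k := by
  have hρ : 1 < Real.logb 3 (1 + 2 * lam) := by
    rw [Real.lt_logb_iff_rpow_lt (by norm_num) (by linarith), Real.rpow_one]; linarith
  set ρ := Real.logb 3 (1 + 2 * lam) with hρd
  unfold P
  induction k with
  | zero => simp
  | succ k ih =>
    rw [Finset.prod_range_succ]
    have hs0 : 0 < S t := by linarith [h1 t]
    have hk : (0 : ℝ) ≤ k := Nat.cast_nonneg k
    set x : ℝ := S t + 2 * k with hx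
    have hx1 : 1 ≤ x := by linarith [h1 t]
    have hx0 : 0 < x := by linarith
    have hSk : S (t + k) ≤ x := (driftS h t k).1
    have hSk0 : 0 < S (t + k) := by linarith [h1 (t + k)]
    have h2 : (1 + 2 / x) ^ ρ ≤ 1 + 2 * lam / S (t + k) := by
      refine (chord lam (2 / x) hl (by positivity) ?_).trans ?_
      · rw [div_le_iff₀ hx0]; linarith
      · have : 2 * lam / x ≤ 2 * lam / S (t + k) :=
          div_le_div_of_nonneg_left (by linarith) hSk0 hSk
        have e : lam * (2 / x) = 2 * lam / x := by ring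
        rw [e]; linarith
    have e : (1 + 2 * ((k + 1 : ℕ) : ℝ) / S t) = (1 + 2 * (k : ℝ) / S t) * (1 + 2 / x) := by
      rw [hx]; push_cast; field_simp; ring
    rw [e, Real.mul_rpow (by positivity) (by positivity)]
    exact mul_le_mul ih h2 (by positivity)
      (Finset.prod_nonneg (fun i _ => by
        have := h1 (t + i)
        have : 0 < S (t + i) := by linarith
        positivity))

lemma P_upper (lam : ℝ) (hl : 1 < lam) {S : ℕ → ℝ} (h1 : ∀ n, 1 ≤ S n)
    (h : ∀ n, |S (n + 1) - S n| ≤ 2) (t k : ℕ) (hk : (k : ℝ) ≤ S t / 4 + 1) :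
    P lam S t k ≤ Real.exp (4 * lam * k / S t) := by
  unfold P
  induction k with
  | zero => simp
  | succ k ih =>
    rw [Finset.prod_range_succ]
    have hs0 : 0 < S t := by linarith [h1 t]
    have hk4 : (k : ℝ) ≤ S t / 4 := by push_cast at hk; linarith
    have hSk : S t / 2 ≤ S (t + k) := by linarith [(driftS h t k).2]
    have h2 : 1 + 2 * lam / S (t + k) ≤ Real.exp (4 * lam / S t) := by
      have h3 : 2 * lam / S (t + k) ≤ 2 * lam / (S t / 2) :=
        div_le_div_of_nonneg_left (by linarith) (by linarith) hSk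
      have h4 : 2 * lam / (S t / 2) = 4 * lam / S t := by field_simp; ring
      have h5 := Real.add_one_le_exp (4 * lam / S t)
      linarith
    have e : 4 * lam * ((k + 1 : ℕ) : ℝ) / S t = 4 * lam * k / S t + 4 * lam / S t := by
      push_cast; field_simp
    rw [e, Real.exp_add]
    have h6 : 0 ≤ 1 + 2 * lam / S (t + k) := by
      have : 0 < S (t + k) := by linarith
      have : 0 < lam := by linarith
      positivity
    exact mul_le_mul (ih (by linarith)) h2 h6 (Real.exp_pos _).le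

lemma G_eq {N : ℕ} (lam : ℝ) {Ω : Type} (a : ℕ → Set Ω) (Y : ℕ → Ω → Fin (N + 3) → ℤ)
    (t k : ℕ) (ω : Ω) (ha : ∀ j < k, ω ∈ a (t + j)) :
    Gn lam a Y (t + k) ω = Gn lam a Y t ω * P lam (fun n => Sn (Y n ω)) t k := by
  unfold Gn P
  rw [Finset.prod_range_add]
  congr 1
  refine Finset.prod_congr rfl (fun i hi => ?_)
  rw [Set.indicator_of_mem (ha i (Finset.mem_range.1 hi))]

theorem t : H483C.TaskG := by
  intro θ hθ lam hl hl2
  have hρ : 1 < Real.logb 3 (1 + 2 * lam) := by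
    rw [Real.lt_logb_iff_rpow_lt (by norm_num) (by linarith), Real.rpow_one]; linarith
  refine ⟨Real.logb 3 (1 + 2 * lam), 1 / (2 * (Real.logb 3 (1 + 2 * lam) - 1)),
    Real.exp (-(5 * lam)) / 4, hρ, ?_, by positivity, ?_, ?_⟩
  · have : 0 < Real.logb 3 (1 + 2 * lam) - 1 := by linarith
    positivity
  · intro s n hs
    have hρ0 : 0 < Real.logb 3 (1 + 2 * lam) - 1 := by linarith
    have hs0 : 0 < s := by linarith
    refine (sum_bound _ s hρ hs n).trans ?_
    have h1 : 0 ≤ (1 + 2 * (n : ℝ) / s) ^ (1 - Real.logb 3 (1 + 2 * lam)) := by positivity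
    have h2 : s / (2 * (Real.logb 3 (1 + 2 * lam) - 1)) *
        (1 - (1 + 2 * (n : ℝ) / s) ^ (1 - Real.logb 3 (1 + 2 * lam))) ≤
        s / (2 * (Real.logb 3 (1 + 2 * lam) - 1)) * 1 :=
      mul_le_mul_of_nonneg_left (by linarith) (by positivity)
    refine h2.trans (le_of_eq ?_)
    ring
  · intro N Ω m μ ℱ a Y c' hL
    have hS1 : ∀ ω n, 1 ≤ (fun n => Sn (Y n ω)) n := fun ω n => hL.pos n ω
    have hS2 : ∀ ω n, |(fun n => Sn (Y n ω)) (n + 1) - (fun n => Sn (Y n ω)) n| ≤ 2 :=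
      fun ω n => stepS hθ hL n ω
    have hfac : ∀ i ω, 1 ≤ 1 + (a i).indicator (fun ω => 2 * lam / Sn (Y i ω)) ω := by
      intro i ω
      have : 0 ≤ (a i).indicator (fun ω => 2 * lam / Sn (Y i ω)) ω := by
        apply Set.indicator_nonneg
        intro ω' _
        have := hL.pos i ω'
        have : 0 < Sn (Y i ω') := by linarith
        have : 0 < lam := by linarith
        positivity
      linarith
    have hG1 : ∀ n ω, 1 ≤ Gn lam a Y n ω := by
      intro n ω
      unfold Gn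
      induction n with
      | zero => simp
      | succ n ih =>
        rw [Finset.prod_range_succ]
        exact one_le_mul_of_one_le_of_one_le ih (hfac n ω)
    have hG2 : ∀ n ω, Gn lam a Y n ω ≤ Gn lam a Y (n + 1) ω := by
      intro n ω
      have h0 := hG1 n ω
      have h1 : Gn lam a Y (n + 1) ω = Gn lam a Y n ω *
          (1 + (a n).indicator (fun ω => 2 * lam / Sn (Y n ω)) ω) := by
        unfold Gn
        rw [Finset.prod_range_succ]
      rw [h1]
      exact le_mul_of_one_le_right (by linarith) (hfac n ω)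
    have hanti : Antitone a := antitone_nat_of_succ_le hL.amono
    refine ⟨fun n ω => stepS hθ hL n ω, hG1, hG2, ?_, ?_⟩
    · intro t i hti ω hω
      obtain ⟨k, rfl⟩ := Nat.exists_eq_add_of_le hti
      have e1 : t + k - t = k := by omega
      rw [e1, show t + k + 1 = t + (k + 1) by ring,
        G_eq lam a Y t (k + 1) ω (fun j hj => hanti (by omega : t + j ≤ t + k) hω)]
      have h1 := P_lower lam hl (hS1 ω) (hS2 ω) t (k + 1)
      push_cast at h1
      have h0 := hG1 t ω
      exact mul_le_mul_of_nonneg_left h1 (by linarith)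
    · intro t n ω hω htn
      set s : ℝ := Sn (Y t ω) with hs
      have hs1 : 1 ≤ s := hL.pos t ω
      have hs0 : 0 < s := by linarith
      have hl0 : 0 < lam := by linarith
      set L : ℕ := ⌊s / 4⌋₊ + 1 with hLd
      have hLf : (⌊s / 4⌋₊ : ℝ) ≤ s / 4 := Nat.floor_le (by positivity)
      have hLs : s / 4 ≤ L := by rw [hLd]; push_cast; exact (Nat.lt_floor_add_one _).le
      have hLn : t + L ≤ n := by
        have : ⌊s / 4⌋₊ ≤ ⌊s⌋₊ := Nat.floor_le_floor (by linarith)
        omega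
      have hg0 : 0 < Gn lam a Y t ω := by linarith [hG1 t ω]
      have hterm : ∀ i ∈ Ico t (t + L), Real.exp (-(5 * lam)) / Gn lam a Y t ω ≤
          (a i).indicator (fun ω => 1 / Gn lam a Y (i + 1) ω) ω := by
        intro i hi
        rw [Finset.mem_Ico] at hi
        obtain ⟨k, rfl⟩ := Nat.exists_eq_add_of_le hi.1
        rw [Set.indicator_of_mem (hω _), show t + k + 1 = t + (k + 1) by ring,
          G_eq lam a Y t (k + 1) ω (fun j _ => hω _)]
        have hkL : k ≤ ⌊s / 4⌋₊ := by omega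
        have hk4 : (k : ℝ) ≤ s / 4 := by
          have : (k : ℝ) ≤ (⌊s / 4⌋₊ : ℝ) := by exact_mod_cast hkL
          linarith
        have hPu : P lam (fun n => Sn (Y n ω)) t (k + 1) ≤
            Real.exp (4 * lam * ((k + 1 : ℕ) : ℝ) / s) :=
          P_upper lam hl (hS1 ω) (hS2 ω) t (k + 1) (by push_cast; linarith)
        have hexp : 4 * lam * ((k + 1 : ℕ) : ℝ) / s ≤ 5 * lam := by
          rw [div_le_iff₀ hs0]
          push_cast
          nlinarith
        have hPu2 : P lam (fun n => Sn (Y n ω)) t (k + 1) ≤ Real.exp (5 * lam) :=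
          hPu.trans (Real.exp_le_exp.2 hexp)
        have hPl : 0 < P lam (fun n => Sn (Y n ω)) t (k + 1) := by
          refine lt_of_lt_of_le ?_ (P_lower lam hl (hS1 ω) (hS2 ω) t (k + 1))
          have : (0 : ℝ) < 1 + 2 * ((k + 1 : ℕ) : ℝ) / Sn (Y t ω) := by
            rw [← hs]; positivity
          exact Real.rpow_pos_of_pos this _
        rw [Real.exp_neg, ← one_div, div_div]
        refine one_div_le_one_div_of_le (mul_pos hg0 hPl) ?_
        rw [mul_comm]
        exact mul_le_mul_of_nonneg_right hPu2 hg0.le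
      have hnn : ∀ i, 0 ≤ (a i).indicator (fun ω => 1 / Gn lam a Y (i + 1) ω) ω := by
        intro i
        apply Set.indicator_nonneg
        intro ω' _
        have := hG1 (i + 1) ω'
        exact one_div_nonneg.2 (by linarith)
      calc Real.exp (-(5 * lam)) / 4 * s / Gn lam a Y t ω
          = (s / 4) * (Real.exp (-(5 * lam)) / Gn lam a Y t ω) := by ring
        _ ≤ (L : ℝ) * (Real.exp (-(5 * lam)) / Gn lam a Y t ω) :=
            mul_le_mul_of_nonneg_right hLs (by positivity)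
        _ = ∑ i ∈ Ico t (t + L), Real.exp (-(5 * lam)) / Gn lam a Y t ω := by
            rw [Finset.sum_const, Nat.card_Ico, nsmul_eq_mul, add_tsub_cancel_left]
        _ ≤ ∑ i ∈ Ico t (t + L), (a i).indicator (fun ω => 1 / Gn lam a Y (i + 1) ω) ω :=
            Finset.sum_le_sum hterm
        _ ≤ _ := Finset.sum_le_sum_of_subset_of_nonneg
            (Finset.Ico_subset_Ico_right hLn) (fun i _ _ => hnn i)

end H483C.G
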