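import Pool.Agent.H483R3.Cyc.Stmts

set_option autoImplicit false

/-!
# Competing urns on cycles: second moment from above (`TaskM2`), by helper229
-/

open MeasureTheory ProbabilityTheory Filter Topology Finset

namespace H483C.M2

section
variable {N : ℕ} {θ : ℤ} {lam : ℝ} {p q : Fin (N + 3) → ℝ}
  {Ω : Type} {m : MeasurableSpace Ω} {μ : Measure Ω} {ℱ : Filtration ℕ m} {a : ℕ → Set Ω}
  {Y : ℕ → Ω → Fin (N + 3) → ℤ} {c' : ℕ → Ω → Fin (N + 3)}

theorem measD (hL : IsLin θ μ ℱ a Y c') (n : ℕ) :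
    Measurable[ℱ n] (fun ω => Dq p q (Y n ω)) := by
  unfold Dq
  have h1 : ∀ r : Fin (N + 3) → ℝ, Measurable[ℱ n] (fun ω => ∑ v, r v * (Y n ω v : ℝ)) := by
    intro r
    refine Finset.measurable_sum _ (fun v _ => ?_)
    exact (Measurable.of_discrete (f := fun z : ℤ => r v * (z : ℝ))).comp (hL.ymeas n v)
  exact ((h1 p).pow_const 2).add ((h1 q).pow_const 2)

theorem measS (hL : IsLin θ μ ℱ a Y c') (n : ℕ) : Measurable[ℱ n] (fun ω => Sn (Y n ω)) := by
  unfold Sn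
  refine Finset.measurable_sum _ (fun v _ => ?_)
  exact (Measurable.of_discrete (f := fun z : ℤ => |(z : ℝ)|)).comp (hL.ymeas n v)

theorem measG (hL : IsLin θ μ ℱ a Y c') (k n : ℕ) (h : n ≤ k + 1) :
    Measurable[ℱ k] (fun ω => Gn lam a Y n ω) := by
  unfold Gn
  refine Finset.measurable_prod _ (fun i hi => ?_)
  have hik : i ≤ k := by have := Finset.mem_range.1 hi; omega
  have hS : Measurable[ℱ k] (fun ω => 2 * lam / Sn (Y i ω)) :=
    ((measS hL i).mono (ℱ.mono hik) le_rfl).const_div _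
  exact (hS.indicator (ℱ.mono hik _ (hL.ameas i))).const_add _

theorem G_le (hL : IsLin θ μ ℱ a Y c') (h1 : 1 < lam) (h2 : lam ≤ 2) (n : ℕ) (ω : Ω) :
    Gn lam a Y n ω ≤ 5 ^ n := by
  unfold Gn
  have hf : ∀ i, 0 ≤ (a i).indicator (fun ω => 2 * lam / Sn (Y i ω)) ω ∧
      (a i).indicator (fun ω => 2 * lam / Sn (Y i ω)) ω ≤ 4 := by
    intro i
    have hS := hL.pos i ω
    by_cases h : ω ∈ a i
    · rw [Set.indicator_of_mem h]
      constructor
      · positivity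
      · rw [div_le_iff₀ (by linarith)]; nlinarith
    · rw [Set.indicator_of_notMem h]
      constructor <;> norm_num
  calc _ ≤ ∏ i ∈ range n, (5 : ℝ) := by
        refine Finset.prod_le_prod (fun i _ => ?_) (fun i _ => ?_)
        · have := (hf i).1; linarith
        · have := (hf i).2; linarith
    _ = 5 ^ n := by simp

end

theorem cond {Ω : Type} {m' m : MeasurableSpace Ω} {μ : Measure Ω} [IsProbabilityMeasure μ]
    (hm : m' ≤ m) {f X : Ω → ℝ} (hf : Measurable[m'] f) {K : ℝ} (hK : ∀ ω, |f ω| ≤ K)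
    (hX : Integrable X μ) :
    Integrable (fun ω => f ω * X ω) μ ∧ Integrable (fun ω => f ω * (μ[X|m']) ω) μ ∧
      ∫ ω, f ω * X ω ∂μ = ∫ ω, f ω * (μ[X|m']) ω ∂μ := by
  have hfa : AEStronglyMeasurable f μ := (hf.mono hm le_rfl).aestronglyMeasurable
  have hb : ∀ᵐ ω ∂μ, ‖f ω‖ ≤ K := Eventually.of_forall (fun ω => by simpa using hK ω)
  have h1 : Integrable (fun ω => f ω * X ω) μ := hX.bdd_mul hfa hb
  have h2 : Integrable (fun ω => f ω * (μ[X|m']) ω) μ := integrable_condExp.bdd_mul hfa hb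
  refine ⟨h1, h2, ?_⟩
  have h3 := condExp_mul_of_stronglyMeasurable_left (m := m') (μ := μ) hf.stronglyMeasurable
    (show Integrable (f * X) μ from h1) hX
  rw [← integral_condExp hm]
  exact integral_congr_ae h3

theorem int3 {Ω : Type} {m : MeasurableSpace Ω} {μ : Measure Ω} {f g h : Ω → ℝ}
    (hf : Integrable f μ) (hg : Integrable g μ) (hh : Integrable h μ) :
    ∫ ω, (f ω + g ω + h ω) ∂μ = ∫ ω, f ω ∂μ + ∫ ω, g ω ∂μ + ∫ ω, h ω ∂μ := by
  have e1 := integral_add (hf.add hg) hh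
  have e2 := integral_add hf hg
  rw [← e2]
  exact e1

/-- the algebra of one step on the event `a n` -/
theorem algA {C lam S D g u w r E1 E2 : ℝ} (hC : 0 < C) (h1 : 1 < lam) (hS : 1 ≤ S)
    (hD : 0 ≤ D) (hg : 1 ≤ g) (hu : 0 ≤ u) (hr : 0 ≤ r)
    (hE1 : E1 = D + (2 * lam * D / S + lam ^ 2))
    (hE2 : E2 ≤ D ^ 2 + (4 * lam * D ^ 2 / S + C * (D + 1)))
    (hw : u / (g * (1 + 2 * lam / S)) ≤ w) :
    (u / (g * (1 + 2 * lam / S))) ^ 2 * E2 + C * r * (u / (g * (1 + 2 * lam / S))) * E1 +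
      C * (1 + lam ^ 2) * r ^ 2 ≤
    (D / g * u) ^ 2 + C * (D / g * u) * (w + r) + C * (1 + lam ^ 2) * (w + r) ^ 2 := by
  set s := 2 * lam / S with hs
  have hs0 : 0 ≤ s := by positivity
  set x := u / (g * (1 + s)) with hx
  have hx0 : 0 ≤ x := by positivity
  set z := D / g * u with hz
  have hz0 : 0 ≤ z := by positivity
  have hxz : x * D * (1 + s) = z := by
    rw [hx, hz]
    have : (1 + s) ≠ 0 := by positivity
    field_simp
  have hE1' : E1 = D * (1 + s) + lam ^ 2 := by rw [hE1, hs]; ring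
  have hxE1 : x * E1 = z + lam ^ 2 * x := by rw [hE1', ← hxz]; ring
  have hE2' : E2 ≤ D ^ 2 * (1 + 2 * s) + C * (D + 1) := by
    refine hE2.trans (le_of_eq ?_); rw [hs]; ring
  have hxD : x * D ≤ z := by
    rw [← hxz]
    have : 0 ≤ x * D * s := by positivity
    linarith
  have hw0 : 0 ≤ w := hx0.trans hw
  have hx2 : x ^ 2 * E2 ≤ z ^ 2 + C * (w * z + w ^ 2) := by
    have e1 : x ^ 2 * E2 ≤ x ^ 2 * (D ^ 2 * (1 + 2 * s) + C * (D + 1)) :=
      mul_le_mul_of_nonneg_left hE2' (by positivity)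
    have e2 : z ^ 2 = x ^ 2 * D ^ 2 * (1 + 2 * s) + x ^ 2 * D ^ 2 * s ^ 2 := by
      rw [← hxz]; ring
    have e3 : 0 ≤ x ^ 2 * D ^ 2 * s ^ 2 := by positivity
    have e4 : x * (x * D) ≤ w * z := mul_le_mul hw hxD (by positivity) hw0
    have e5 : x ^ 2 ≤ w ^ 2 := by gcongr
    have e6 : C * (x * (x * D)) ≤ C * (w * z) := mul_le_mul_of_nonneg_left e4 hC.le
    have e7 : C * x ^ 2 ≤ C * w ^ 2 := mul_le_mul_of_nonneg_left e5 hC.le
    nlinarith
  have hCr : C * r * x * E1 ≤ C * r * (z + lam ^ 2 * w) := by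
    have : C * r * x * E1 = C * r * (z + lam ^ 2 * x) := by rw [← hxE1]; ring
    rw [this]
    gcongr
  have e8 : 0 ≤ C * lam ^ 2 * w ^ 2 := by positivity
  have e9 : 0 ≤ C * (2 + lam ^ 2) * (w * r) := by positivity
  nlinarith

/-- the algebra of one step outside of `a n` -/
theorem algS {C lam D g u w r E1 E2 : ℝ} (hC : 0 < C)
    (hD : 0 ≤ D) (hg : 1 ≤ g) (hu : 0 ≤ u) (hr : 0 ≤ r) (hw : 0 ≤ w)
    (hE1 : E1 = D) (hE2 : E2 ≤ D ^ 2) :
    (u / g) ^ 2 * E2 + C * r * (u / g) * E1 + C * (1 + lam ^ 2) * r ^ 2 ≤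
    (D / g * u) ^ 2 + C * (D / g * u) * (w + r) + C * (1 + lam ^ 2) * (w + r) ^ 2 := by
  have hx0 : 0 ≤ u / g := by positivity
  have hz : D / g * u = u / g * D := by ring
  rw [hz, hE1]
  have e1 : (u / g) ^ 2 * E2 ≤ (u / g) ^ 2 * D ^ 2 :=
    mul_le_mul_of_nonneg_left hE2 (by positivity)
  have e2 : 0 ≤ C * (u / g * D) * w := by positivity
  have e3 : 0 ≤ C * (1 + lam ^ 2) * (w ^ 2 + 2 * w * r) := by positivity
  nlinarith

theorem t : TaskM2 := by
  intro hTG hTM N θ hθ lam p q κ lam2 hSp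
  have h1 := hSp.h1
  have h2 := hSp.h2
  obtain ⟨ρ, C1, c0, hρ, hC1, hc0, hsum, hG⟩ := hTG θ hθ lam h1 h2
  obtain ⟨C, hC, hM⟩ := hTM N θ hθ lam p q κ lam2 hSp
  refine ⟨1 + C * C1 + C * (1 + lam ^ 2) * C1 ^ 2, by positivity, ?_⟩
  intro Ω m μ hμ ℱ a Y c' hL t n B htn hB
  obtain ⟨hG1, hG2, hG3, hG4, hG5⟩ := hG N Ω m μ ℱ a Y c' hL
  obtain ⟨L, rfl⟩ : ∃ L, n = t + L := ⟨n - t, by omega⟩
  -- notation
  set D : ℕ → Ω → ℝ := fun n ω => Dq p q (Y n ω) with hDdef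
  set G : ℕ → Ω → ℝ := fun n ω => Gn lam a Y n ω with hGdef
  set S : ℕ → Ω → ℝ := fun n ω => Sn (Y n ω) with hSdef
  set H : Ω → ℝ := fun ω => Hn lam p q a Y t ω with hHdef
  have hHe : ∀ ω, H ω = (D t ω + S t ω) / G t ω := fun ω => rfl
  have hD0 : ∀ n ω, 0 ≤ D n ω := fun n ω => by simp only [hDdef, Dq]; positivity
  have hS1 : ∀ n ω, 1 ≤ S n ω := fun n ω => hL.pos n ω
  have hG1' : ∀ n ω, 1 ≤ G n ω := hG2
  have hGle : ∀ n ω, G n ω ≤ 5 ^ n := fun n ω => G_le hL h1 h2 n ω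
  have hGpos : ∀ n ω, 0 < G n ω := fun n ω => by have := hG1' n ω; linarith
  have hHpos : ∀ ω, 0 < H ω := by
    intro ω
    rw [hHe]
    have := hD0 t ω; have := hS1 t ω
    exact div_pos (by linarith) (hGpos t ω)
  have hHlow : ∀ ω, 1 / H ω ≤ 5 ^ t := by
    intro ω
    rw [hHe, one_div_div]
    have := hD0 t ω; have := hS1 t ω
    rw [div_le_iff₀ (by linarith)]
    have h5 := hGle t ω
    have h6 : (0 : ℝ) < 5 ^ t := by positivity
    nlinarith
  have mD : ∀ n, Measurable[ℱ n] (D n) := fun n => measD hL n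
  have mS : ∀ n, Measurable[ℱ n] (S n) := fun n => measS hL n
  have mG : ∀ k n, n ≤ k + 1 → Measurable[ℱ k] (G n) := fun k n h => measG hL k n h
  have mH : Measurable[ℱ t] H := by
    have : H = fun ω => (D t ω + S t ω) / G t ω := funext hHe
    rw [this]
    exact ((mD t).add (mS t)).div (mG t t (by omega))
  have hGs : ∀ n ω, G (n + 1) ω = G n ω * (1 + (a n).indicator (fun ω => 2 * lam / S n ω) ω) :=
    fun n ω => Finset.prod_range_succ _ _
  have hiD : ∀ n, Integrable (D n) μ ∧ Integrable (fun ω => D n ω ^ 2) μ := fun n =>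
    ⟨(hM Ω m μ hμ ℱ a Y c' hL n).1, (hM Ω m μ hμ ℱ a Y c' hL n).2.1⟩
  -- the weights
  set u : Ω → ℝ := B.indicator (fun ω => 1 / H ω) with hudef
  have mu : Measurable[ℱ t] u := (mH.const_div 1).indicator hB
  have hu0 : ∀ ω, 0 ≤ u ω := fun ω => Set.indicator_nonneg (fun ω _ => by
    have := hHpos ω; positivity) ω
  have hu5 : ∀ ω, u ω ≤ 5 ^ t := by
    intro ω
    by_cases h : ω ∈ B
    · rw [hudef, Set.indicator_of_mem h]; exact hHlow ω
    · rw [hudef, Set.indicator_of_notMem h]; positivity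
  set w : ℕ → Ω → ℝ := fun j ω => (1 + 2 * ((j : ℝ) + 1) / S t ω) ^ (-ρ) / G t ω with hwdef
  have hw0 : ∀ j ω, 0 ≤ w j ω := by
    intro j ω
    have := hS1 t ω; have := hGpos t ω
    simp only [hwdef]; positivity
  have hw1 : ∀ j ω, w j ω ≤ 1 := by
    intro j ω
    simp only [hwdef]
    have h3 := hS1 t ω; have h4 := hG1' t ω
    rw [div_le_one (hGpos t ω)]
    refine le_trans (Real.rpow_le_one_of_one_le_of_nonpos ?_ (by linarith)) h4
    have : 0 ≤ 2 * ((j : ℝ) + 1) / S t ω := by positivity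
    linarith
  have mw : ∀ j, Measurable[ℱ t] (w j) := by
    intro j
    refine Measurable.div ?_ (mG t t (by omega))
    exact (((mS t).const_div _).const_add _).pow_const _
  set R : ℕ → Ω → ℝ := fun j ω => u ω * ∑ i ∈ Ico j L, w i ω with hRdef
  have hR0 : ∀ j ω, 0 ≤ R j ω := fun j ω =>
    mul_nonneg (hu0 ω) (Finset.sum_nonneg fun i _ => hw0 i ω)
  have mR : ∀ j, Measurable[ℱ t] (R j) := fun j =>
    mu.mul (Finset.measurable_sum _ fun i _ => mw i)
  have hRb : ∀ j ω, R j ω ≤ 5 ^ t * L := by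
    intro j ω
    refine mul_le_mul (hu5 ω) ?_ (Finset.sum_nonneg fun i _ => hw0 i ω) (by positivity)
    calc ∑ i ∈ Ico j L, w i ω ≤ ∑ i ∈ Ico j L, (1 : ℝ) := Finset.sum_le_sum fun i _ => hw1 i ω
      _ = ((L - j : ℕ) : ℝ) := by simp
      _ ≤ L := by exact_mod_cast Nat.sub_le L j
  have hRs : ∀ j, j < L → ∀ ω, R j ω = u ω * w j ω + R (j + 1) ω := by
    intro j hj ω
    simp only [hRdef]
    rw [Finset.sum_eq_sum_Ico_succ_bot hj]; ring
  set Φ : ℕ → Ω → ℝ := fun j ω => (D (t + j) ω / G (t + j) ω * u ω) ^ 2 +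
    C * (D (t + j) ω / G (t + j) ω * u ω) * R j ω + C * (1 + lam ^ 2) * R j ω ^ 2 with hΦdef
  have hub : ∀ (k : ℕ) (ω : Ω), |u ω / G k ω| ≤ 5 ^ t := by
    intro k ω
    rw [abs_of_nonneg (div_nonneg (hu0 ω) (hGpos k ω).le), div_le_iff₀ (hGpos k ω)]
    have := hu5 ω; have := hG1' k ω
    have : (0 : ℝ) < 5 ^ t := by positivity
    nlinarith
  have hf1b : ∀ (k : ℕ) (ω : Ω), |(u ω / G k ω) ^ 2| ≤ (5 ^ t) ^ 2 := by
    intro k ω
    rw [abs_pow]
    exact pow_le_pow_left₀ (abs_nonneg _) (hub k ω) 2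
  have hf2b : ∀ (k j : ℕ) (ω : Ω), |C * R j ω * (u ω / G k ω)| ≤ C * (5 ^ t * L) * 5 ^ t := by
    intro k j ω
    rw [abs_mul]
    refine mul_le_mul ?_ (hub k ω) (abs_nonneg _) (by positivity)
    rw [abs_of_nonneg (mul_nonneg hC.le (hR0 j ω))]
    exact mul_le_mul_of_nonneg_left (hRb j ω) hC.le
  have hf3i : ∀ j, Integrable (fun ω => C * (1 + lam ^ 2) * R j ω ^ 2) μ := by
    intro j
    refine Integrable.of_bound (C := C * (1 + lam ^ 2) * (5 ^ t * L) ^ 2) ?_ ?_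
    · exact (((mR j).mono (ℱ.le t) le_rfl).pow_const 2 |>.const_mul _).aestronglyMeasurable
    · refine Eventually.of_forall fun ω => ?_
      rw [Real.norm_eq_abs, abs_of_nonneg (by positivity)]
      refine mul_le_mul_of_nonneg_left ?_ (by positivity)
      exact pow_le_pow_left₀ (hR0 j ω) (hRb j ω) 2
  -- decomposition of Φ
  have hΦ2 : ∀ j ω, Φ j ω = (u ω / G (t + j) ω) ^ 2 * D (t + j) ω ^ 2 +
      C * R j ω * (u ω / G (t + j) ω) * D (t + j) ω + C * (1 + lam ^ 2) * R j ω ^ 2 := by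
    intro j ω
    simp only [hΦdef]; ring
  -- measurability of weights
  have mf0 : ∀ (k i : ℕ), t ≤ k → i ≤ k + 1 → Measurable[ℱ k] (fun ω => u ω / G i ω) := by
    intro k i hk hi
    exact (mu.mono (ℱ.mono hk) le_rfl).div (mG k i hi)
  have mf2 : ∀ (k i j : ℕ), t ≤ k → i ≤ k + 1 →
      Measurable[ℱ k] (fun ω => C * R j ω * (u ω / G i ω)) := by
    intro k i j hk hi
    exact (((mR j).mono (ℱ.mono hk) le_rfl).const_mul C).mul (mf0 k i hk hi)
  have hΦi : ∀ j, Integrable (Φ j) μ := by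
    intro j
    have e1 := (cond (μ := μ) (ℱ.le (t + j)) ((mf0 (t + j) (t + j) (by omega) (by omega)).pow_const 2)
      (hf1b (t + j)) (hiD (t + j)).2).1
    have e2 := (cond (μ := μ) (ℱ.le (t + j)) (mf2 (t + j) (t + j) j (by omega) (by omega))
      (hf2b (t + j) j) (hiD (t + j)).1).1
    have e3 := (e1.add e2).add (hf3i j)
    refine e3.congr (Eventually.of_forall fun ω => ?_)
    rw [hΦ2]
    rfl
  have hstep : ∀ j, j < L → ∫ ω, Φ (j + 1) ω ∂μ ≤ ∫ ω, Φ j ω ∂μ := by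
    intro j hj
    have e1 := cond (μ := μ) (ℱ.le (t + j))
      ((mf0 (t + j) (t + j + 1) (by omega) (by omega)).pow_const 2)
      (hf1b (t + j + 1)) (hiD (t + j + 1)).2
    have e2 := cond (μ := μ) (ℱ.le (t + j)) (mf2 (t + j) (t + j + 1) (j + 1) (by omega) (by omega))
      (hf2b (t + j + 1) (j + 1)) (hiD (t + j + 1)).1
    have e3 : ∫ ω, Φ (j + 1) ω ∂μ = ∫ ω, ((u ω / G (t + j + 1) ω) ^ 2 *
        (μ[fun ω => D (t + j + 1) ω ^ 2|ℱ (t + j)]) ω +
        C * R (j + 1) ω * (u ω / G (t + j + 1) ω) * (μ[D (t + j + 1)|ℱ (t + j)]) ω +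
        C * (1 + lam ^ 2) * R (j + 1) ω ^ 2) ∂μ := by
      have l : ∫ ω, Φ (j + 1) ω ∂μ = ∫ ω, ((u ω / G (t + j + 1) ω) ^ 2 *
          D (t + j + 1) ω ^ 2 + C * R (j + 1) ω * (u ω / G (t + j + 1) ω) * D (t + j + 1) ω +
          C * (1 + lam ^ 2) * R (j + 1) ω ^ 2) ∂μ :=
        integral_congr_ae (Eventually.of_forall fun ω => hΦ2 (j + 1) ω)
      rw [l, int3 e1.1 e2.1 (hf3i (j + 1)), int3 e1.2.1 e2.2.1 (hf3i (j + 1)), e1.2.2, e2.2.2]
    rw [e3]
    refine integral_mono_ae ((e1.2.1.add e2.2.1).add (hf3i (j + 1))) (hΦi j) ?_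
    obtain ⟨-, -, -, c1, c2, -⟩ := hM Ω m μ hμ ℱ a Y c' hL (t + j)
    filter_upwards [c1, c2] with ω k1 k2
    have k1' : (μ[D (t + j + 1)|ℱ (t + j)]) ω = D (t + j) ω +
      (a (t + j)).indicator (fun ω => 2 * lam * D (t + j) ω / S (t + j) ω + lam ^ 2) ω := k1
    have k2' : (μ[fun ω => D (t + j + 1) ω ^ 2|ℱ (t + j)]) ω ≤ D (t + j) ω ^ 2 +
      (a (t + j)).indicator (fun ω => 4 * lam * D (t + j) ω ^ 2 / S (t + j) ω +
        C * (D (t + j) ω + 1)) ω := k2
    show (u ω / G (t + j + 1) ω) ^ 2 *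
        (μ[fun ω => D (t + j + 1) ω ^ 2|ℱ (t + j)]) ω +
        C * R (j + 1) ω * (u ω / G (t + j + 1) ω) * (μ[D (t + j + 1)|ℱ (t + j)]) ω +
        C * (1 + lam ^ 2) * R (j + 1) ω ^ 2 ≤ Φ j ω
    simp only [hΦdef]
    rw [hRs j hj ω]
    by_cases hω : ω ∈ a (t + j)
    · rw [Set.indicator_of_mem hω] at k1' k2'
      have hg' : G (t + j + 1) ω = G (t + j) ω * (1 + 2 * lam / S (t + j) ω) := by
        rw [hGs, Set.indicator_of_mem hω]
      have hwle : u ω / (G (t + j) ω * (1 + 2 * lam / S (t + j) ω)) ≤ u ω * w j ω := by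
        rw [← hg', div_eq_mul_inv]
        refine mul_le_mul_of_nonneg_left ?_ (hu0 ω)
        have h8 := hG4 t (t + j) (by omega) ω hω
        have h9 : (((t + j - t : ℕ) : ℝ)) = j := by
          congr 1; omega
        rw [h9] at h8
        simp only [hwdef]
        have hS' := hS1 t ω
        have hb : 0 < 1 + 2 * ((j : ℝ) + 1) / S t ω := by positivity
        rw [Real.rpow_neg hb.le, div_eq_mul_inv, ← mul_inv]
        refine inv_anti₀ ?_ ?_
        · exact mul_pos (Real.rpow_pos_of_pos hb _) (hGpos t ω)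
        · rw [mul_comm]; exact h8
      rw [hg']
      exact algA hC h1 (hS1 _ ω) (hD0 _ ω) (hG1' _ ω) (hu0 ω) (hR0 _ ω) k1' k2' hwle
    · rw [Set.indicator_of_notMem hω, add_zero] at k1' k2'
      have hg' : G (t + j + 1) ω = G (t + j) ω := by
        rw [hGs, Set.indicator_of_notMem hω, add_zero, mul_one]
      rw [hg']
      exact algS hC (hD0 _ ω) (hG1' _ ω) (hu0 ω) (hR0 _ ω)
        (mul_nonneg (hu0 ω) (hw0 j ω)) k1' k2'
  have hall : ∀ j, j ≤ L → ∫ ω, Φ j ω ∂μ ≤ ∫ ω, Φ 0 ω ∂μ := by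
    intro j
    induction j with
    | zero => intro _; exact le_rfl
    | succ j ih => intro hj; exact (hstep j (by omega)).trans (ih (by omega))
  have hBm : MeasurableSet B := ℱ.le t _ hB
  have hint : Integrable (fun ω => (D (t + L) ω / G (t + L) ω / H ω) ^ 2) μ := by
    have e0 : ∀ ω, (D (t + L) ω / G (t + L) ω / H ω) ^ 2 =
        (1 / H ω / G (t + L) ω) ^ 2 * D (t + L) ω ^ 2 := by
      intro ω; ring
    have mm : Measurable[ℱ (t + L)] (fun ω => (1 / H ω / G (t + L) ω) ^ 2) :=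
      (((mH.mono (ℱ.mono (by omega : t ≤ t + L)) le_rfl).const_div 1).div
        (mG (t + L) (t + L) (by omega))).pow_const 2
    have hb : ∀ ω, |(1 / H ω / G (t + L) ω) ^ 2| ≤ (5 ^ t) ^ 2 := by
      intro ω
      rw [abs_pow]
      refine pow_le_pow_left₀ (abs_nonneg _) ?_ 2
      have hh := hHpos ω
      rw [abs_of_nonneg (div_nonneg (by positivity) (hGpos _ ω).le), div_le_iff₀ (hGpos _ ω)]
      have := hHlow ω; have := hG1' (t + L) ω
      have : (0 : ℝ) < 5 ^ t := by positivity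
      nlinarith
    have e1 := (cond (μ := μ) (ℱ.le (t + L)) mm hb (hiD (t + L)).2).1
    exact e1.congr (Eventually.of_forall fun ω => (e0 ω).symm)
  refine ⟨hint, ?_⟩
  have eL : ∫ ω in B, (D (t + L) ω / G (t + L) ω / H ω) ^ 2 ∂μ = ∫ ω, Φ L ω ∂μ := by
    rw [← integral_indicator hBm]
    refine integral_congr_ae (Eventually.of_forall fun ω => ?_)
    have hRL : R L ω = 0 := by simp [hRdef]
    show B.indicator (fun ω => (D (t + L) ω / G (t + L) ω / H ω) ^ 2) ω = Φ L ω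
    simp only [hΦdef, hRL]
    by_cases h : ω ∈ B
    · rw [Set.indicator_of_mem h, hudef, Set.indicator_of_mem h]; ring
    · rw [Set.indicator_of_notMem h, hudef, Set.indicator_of_notMem h]; ring
  have eR : ∫ ω, Φ 0 ω ∂μ ≤ (1 + C * C1 + C * (1 + lam ^ 2) * C1 ^ 2) * μ.real B := by
    have e5 : ∫ ω, B.indicator (fun _ => (1 + C * C1 + C * (1 + lam ^ 2) * C1 ^ 2)) ω ∂μ =
        (1 + C * C1 + C * (1 + lam ^ 2) * C1 ^ 2) * μ.real B := by
      rw [integral_indicator hBm, setIntegral_const, smul_eq_mul, mul_comm]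
    rw [← e5]
    refine integral_mono_ae (hΦi 0) ((integrable_const _).indicator hBm)
      (Eventually.of_forall fun ω => ?_)
    show Φ 0 ω ≤ B.indicator (fun _ => (1 + C * C1 + C * (1 + lam ^ 2) * C1 ^ 2)) ω
    by_cases h : ω ∈ B
    · rw [Set.indicator_of_mem h]
      have huω : u ω = 1 / H ω := by rw [hudef, Set.indicator_of_mem h]
      have hz1 : D (t + 0) ω / G (t + 0) ω * u ω ≤ 1 := by
        rw [add_zero, huω, mul_one_div, div_le_one (hHpos ω), hHe]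
        have := hS1 t ω
        exact div_le_div_of_nonneg_right (by linarith) (hGpos t ω).le
      have hz0 : 0 ≤ D (t + 0) ω / G (t + 0) ω * u ω :=
        mul_nonneg (div_nonneg (hD0 _ ω) (hGpos _ ω).le) (hu0 ω)
      have hR1 : R 0 ω ≤ C1 := by
        simp only [hRdef, hwdef]
        rw [huω, one_div, inv_mul_le_iff₀ (hHpos ω), ← Finset.sum_div, Nat.Ico_zero_eq_range]
        have h10 := hsum (S t ω) L (hS1 t ω)
        have h11 : S t ω / G t ω ≤ H ω := by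
          rw [hHe]
          have := hD0 t ω
          exact div_le_div_of_nonneg_right (by linarith) (hGpos t ω).le
        calc _ ≤ C1 * S t ω / G t ω := div_le_div_of_nonneg_right h10 (hGpos t ω).le
          _ = (S t ω / G t ω) * C1 := by ring
          _ ≤ H ω * C1 := mul_le_mul_of_nonneg_right h11 hC1.le
      have hR0' := hR0 0 ω
      simp only [hΦdef]
      have f1 : (D (t + 0) ω / G (t + 0) ω * u ω) ^ 2 ≤ 1 := pow_le_one₀ hz0 hz1
      have f2 : (D (t + 0) ω / G (t + 0) ω * u ω) * R 0 ω ≤ 1 * C1 :=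
        mul_le_mul hz1 hR1 hR0' (by norm_num)
      have f3 : R 0 ω ^ 2 ≤ C1 ^ 2 := pow_le_pow_left₀ hR0' hR1 2
      have f4 : C * ((D (t + 0) ω / G (t + 0) ω * u ω) * R 0 ω) ≤ C * (1 * C1) :=
        mul_le_mul_of_nonneg_left f2 hC.le
      have f5 : C * (1 + lam ^ 2) * R 0 ω ^ 2 ≤ C * (1 + lam ^ 2) * C1 ^ 2 :=
        mul_le_mul_of_nonneg_left f3 (by positivity)
      nlinarith
    · rw [Set.indicator_of_notMem h]
      have huω : u ω = 0 := by rw [hudef, Set.indicator_of_notMem h]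
      simp only [hΦdef, hRdef, huω]
      simp
  calc _ = ∫ ω, Φ L ω ∂μ := eL
    _ ≤ ∫ ω, Φ 0 ω ∂μ := hall L le_rfl
    _ ≤ _ := eR

end H483C.M2
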