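import Pool.Agent.H483R3.Cyc.Stmts

/-! # TaskPZ (helper929): abstract Paley-Zygmund and Levy argument. -/

set_option autoImplicit false

open MeasureTheory ProbabilityTheory Filter Topology Finset

namespace H483C.TaskPZ

/-- approximation of an event from inside the filtration -/
theorem approx {Ω : Type} {m : MeasurableSpace Ω} (μ : Measure Ω) [IsProbabilityMeasure μ]
    (ℱ : Filtration ℕ m) (F : Set Ω) (hFG : MeasurableSet[⨆ n, ℱ n] F) (hF : μ F ≠ 0)
    (ε : ℝ) (hε : 0 < ε) : ∃ (t : ℕ) (B : Set Ω), MeasurableSet[ℱ t] B ∧ 0 < μ.real B ∧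
      μ.real (B \ F) ≤ ε * μ.real B := by
  have hle : (⨆ n, ℱ n : MeasurableSpace Ω) ≤ m := iSup_le fun n => ℱ.le n
  have hFm : MeasurableSet F := hle _ hFG
  set g : Ω → ℝ := F.indicator (fun _ => (1 : ℝ)) with hg
  have hgi : Integrable g μ := (integrable_const (1 : ℝ)).indicator hFm
  have hgm : StronglyMeasurable[⨆ n, ℱ n] g :=
    (@stronglyMeasurable_const _ _ (⨆ n, ℱ n) _ (1 : ℝ)).indicator hFG
  have hgc : μ[g | ⨆ n, ℱ n] = g := condExp_of_stronglyMeasurable hle hgm hgi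
  have hlevy := tendsto_ae_condExp (μ := μ) (ℱ := ℱ) g
  rw [hgc] at hlevy
  set Bt : ℕ → Set Ω := fun n => {ω | 1 - ε < (μ[g | ℱ n]) ω} with hBt
  have hBm : ∀ n, MeasurableSet[ℱ n] (Bt n) := fun n => by
    have h1 : Measurable[ℱ n] (μ[g | ℱ n]) := stronglyMeasurable_condExp.measurable
    exact h1 measurableSet_Ioi
  have hex : ∃ t, μ (Bt t) ≠ 0 := by
    by_contra hcon
    push Not at hcon
    have h1 : ∀ᵐ ω ∂μ, ∀ n, ω ∉ Bt n := by
      rw [ae_all_iff]
      intro n
      rw [ae_iff]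
      simpa using hcon n
    apply hF
    have h2 : ∀ᵐ ω ∂μ, ω ∉ F := by
      filter_upwards [h1, hlevy] with ω h3 h4 h5
      have h6 : g ω = 1 := by simp [hg, h5]
      rw [h6] at h4
      obtain ⟨n, hn⟩ := (h4.eventually (lt_mem_nhds (show 1 - ε < 1 by linarith))).exists
      exact h3 n hn
    rw [ae_iff] at h2
    simpa using h2
  obtain ⟨t, ht⟩ := hex
  refine ⟨t, Bt t, hBm t, ?_, ?_⟩
  · rw [measureReal_def]
    exact ENNReal.toReal_pos ht (measure_ne_top _ _)
  · have hBm' := ℱ.le t _ (hBm t)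
    have h1 : ∫ ω in Bt t, (μ[g | ℱ t]) ω ∂μ = ∫ ω in Bt t, g ω ∂μ :=
      setIntegral_condExp (ℱ.le t) hgi (hBm t)
    have h2 : ∫ ω in Bt t, g ω ∂μ = μ.real (Bt t ∩ F) := by
      rw [hg, setIntegral_indicator hFm, setIntegral_const]
      simp
    have h3 : (1 - ε) * μ.real (Bt t) ≤ ∫ ω in Bt t, (μ[g | ℱ t]) ω ∂μ :=
      setIntegral_ge_of_const_le_real hBm' (measure_ne_top _ _) (fun ω hω => le_of_lt hω)
        integrable_condExp.integrableOn
    have h4 : μ.real (Bt t ∩ F) + μ.real (Bt t \ F) = μ.real (Bt t) :=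
      measureReal_inter_add_sdiff hFm
    linarith

theorem t : H483C.TaskPZ := by
  intro Ω m μ _ ℱ a Z H c C hc hC ha hZ hH hZ0 hH0 hlim hM1 hM2
  set F : Set Ω := {ω | (∀ n, ω ∈ a n) ∧ Tendsto (fun n => Z n ω) atTop (𝓝 0)} with hF
  have hFG : MeasurableSet[⨆ n, ℱ n] F := by
    have h1 : F = (⋂ n, a n) ∩ {ω | Tendsto (fun n => Z n ω) atTop (𝓝 0)} := by
      ext ω; simp [hF]
    rw [h1]
    refine MeasurableSet.inter (MeasurableSet.iInter fun n => ?_) ?_
    · exact le_iSup (fun n => (ℱ n : MeasurableSpace Ω)) n _ (ha n)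
    · have h2 : ∀ n, Measurable[⨆ n, ℱ n] (Z n) := fun n =>
        (hZ n).mono (le_iSup (fun n => (ℱ n : MeasurableSpace Ω)) n) le_rfl
      exact measurableSet_tendsto (𝓝 0) h2
  have hFm : MeasurableSet F := (iSup_le fun n => ℱ.le n : (⨆ n, ℱ n : MeasurableSpace Ω) ≤ m) _ hFG
  suffices hF0 : μ F = 0 by
    have h1 : ∀ᵐ ω ∂μ, ω ∉ F := by
      rw [ae_iff]; simpa using hF0
    filter_upwards [h1] with ω h2 h3 h4
    exact h2 ⟨h3, h4⟩
  by_contra hne
  obtain ⟨K, hK⟩ : ∃ K : ℝ, K = 8 * C / c := ⟨_, rfl⟩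
  have hK0 : 0 < K := by rw [hK]; positivity
  obtain ⟨ε, hε⟩ : ∃ ε : ℝ, ε = min (1 / 4) (c / (8 * K)) := ⟨_, rfl⟩
  have hε0 : 0 < ε := by rw [hε]; positivity
  have hε1 : ε ≤ 1 / 4 := by rw [hε]; exact min_le_left _ _
  have hε2 : K * ε ≤ c / 8 := by
    have : ε ≤ c / (8 * K) := by rw [hε]; exact min_le_right _ _
    calc K * ε ≤ K * (c / (8 * K)) := mul_le_mul_of_nonneg_left this hK0.le
      _ = c / 8 := by field_simp
  have hCK : C / K = c / 8 := by rw [hK]; field_simp
  obtain ⟨t, B, hB, hBpos, hBF⟩ := approx μ ℱ F hFG hne ε hε0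
  have hBm := ℱ.le t _ hB
  set x : ℕ → Ω → ℝ := fun n ω => Z n ω / H t ω with hx
  have hx0 : ∀ n ω, 0 ≤ x n ω := fun n ω => div_nonneg (hZ0 n ω) (hH0 t ω).le
  have hxm : ∀ n, Measurable (x n) := fun n =>
    ((hZ n).mono (ℱ.le n) le_rfl).div ((hH t).mono (ℱ.le t) le_rfl)
  -- the truncated part
  set y : ℕ → Ω → ℝ := fun n => F.indicator (fun ω => min (x n ω) K) with hy
  have hym : ∀ n, Measurable (y n) := fun n => ((hxm n).min measurable_const).indicator hFm
  have hyb : ∀ n ω, ‖y n ω‖ ≤ K := by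
    intro n ω
    by_cases h : ω ∈ F
    · have e1 : y n ω = min (x n ω) K := by simp [hy, h]
      rw [e1, Real.norm_of_nonneg (le_min (hx0 n ω) hK0.le)]
      exact min_le_right _ _
    · have e1 : y n ω = 0 := by simp [hy, h]
      rw [e1, norm_zero]
      exact hK0.le
  have hylim : Tendsto (fun n => ∫ ω in B, y n ω ∂μ) atTop (𝓝 0) := by
    have h1 : Tendsto (fun n => ∫ ω in B, y n ω ∂μ) atTop (𝓝 (∫ _ in B, (0 : ℝ) ∂μ)) := by
      refine tendsto_integral_of_dominated_convergence (fun _ => K)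
        (fun n => (hym n).aestronglyMeasurable) (integrable_const _)
        (fun n => Eventually.of_forall (hyb n)) (Eventually.of_forall fun ω => ?_)
      by_cases h : ω ∈ F
      · have h2 : Tendsto (fun n => x n ω) atTop (𝓝 0) := by
          have := h.2.div_const (H t ω)
          simpa [hx] using this
        have h3 : Tendsto (fun n => min (x n ω) K) atTop (𝓝 (min 0 K)) :=
          h2.min tendsto_const_nhds
        rw [min_eq_left hK0.le] at h3
        simpa [hy, h] using h3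
      · simp [hy, h]
    simpa using h1
  have hev1 : ∀ᶠ n in atTop, ∫ ω in B, y n ω ∂μ < c / 8 * μ.real B :=
    hylim.eventually (gt_mem_nhds (by positivity))
  have hev2 := hM1 t B hB
  obtain ⟨n, hn1, hn2, hn3⟩ := (hev1.and (hev2.and (eventually_ge_atTop t))).exists
  obtain ⟨hint, hsq⟩ := hM2 t n B hn3 hB
  -- upper bound
  have hup : ∫ ω in B, x n ω ∂μ ≤ ∫ ω in B, y n ω ∂μ + K * μ.real (B \ F) + C / K * μ.real B := by
    have hzi : Integrable (fun ω => Fᶜ.indicator (fun _ => K) ω) μ :=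
      (integrable_const K).indicator hFm.compl
    have hyi : Integrable (y n) μ :=
      Integrable.of_bound (hym n).aestronglyMeasurable K (Eventually.of_forall (hyb n))
    have hsi : Integrable (fun ω => (x n ω) ^ 2 / K) μ := hint.div_const K
    have h1 : ∫ ω in B, x n ω ∂μ ≤
        ∫ ω in B, (y n ω + Fᶜ.indicator (fun _ => K) ω + (x n ω) ^ 2 / K) ∂μ := by
      refine integral_mono_of_nonneg (Eventually.of_forall (hx0 n))
        ((hyi.add hzi).add hsi).integrableOn (Eventually.of_forall fun ω => ?_)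
      have h5 : 0 ≤ (x n ω) ^ 2 / K := by positivity
      have h6 : x n ω ≤ K ∨ x n ω ≤ (x n ω) ^ 2 / K := by
        rcases le_total (x n ω) K with h | h
        · left; exact h
        · right
          rw [le_div_iff₀ hK0]
          nlinarith [hx0 n ω]
      by_cases h : ω ∈ F
      · have e1 : y n ω = min (x n ω) K := by simp [hy, h]
        have e2 : Fᶜ.indicator (fun _ => K) ω = 0 := by simp [h]
        show x n ω ≤ y n ω + Fᶜ.indicator (fun _ => K) ω + (x n ω) ^ 2 / K
        rw [e1, e2]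
        rcases h6 with h6 | h6
        · rw [min_eq_left h6]; linarith
        · have := le_min (hx0 n ω) hK0.le
          linarith
      · have e1 : y n ω = 0 := by simp [hy, h]
        have e2 : Fᶜ.indicator (fun _ => K) ω = K := by simp [h]
        show x n ω ≤ y n ω + Fᶜ.indicator (fun _ => K) ω + (x n ω) ^ 2 / K
        rw [e1, e2]
        rcases h6 with h6 | h6 <;> linarith
    have h2 : ∫ ω in B, (y n ω + Fᶜ.indicator (fun _ => K) ω + (x n ω) ^ 2 / K) ∂μ =
        ∫ ω in B, y n ω ∂μ + ∫ ω in B, Fᶜ.indicator (fun _ => K) ω ∂μ +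
          ∫ ω in B, (x n ω) ^ 2 / K ∂μ := by
      have e1 := integral_add (μ := μ.restrict B)
        (f := fun ω => y n ω + Fᶜ.indicator (fun _ => K) ω) (g := fun ω => (x n ω) ^ 2 / K)
        (hyi.add hzi).integrableOn hsi.integrableOn
      have e2 := integral_add (μ := μ.restrict B)
        (f := fun ω => y n ω) (g := fun ω => Fᶜ.indicator (fun _ => K) ω)
        hyi.integrableOn hzi.integrableOn
      rw [e1, e2]
    have h3 : ∫ ω in B, Fᶜ.indicator (fun _ => K) ω ∂μ = K * μ.real (B \ F) := by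
      rw [setIntegral_indicator hFm.compl, setIntegral_const, smul_eq_mul, mul_comm,
        Set.sdiff_eq]
    have h4 : ∫ ω in B, (x n ω) ^ 2 / K ∂μ ≤ C / K * μ.real B := by
      rw [integral_div, div_mul_eq_mul_div]
      exact div_le_div_of_nonneg_right hsq hK0.le
    linarith
  -- lower bound
  have hinact : μ.real (B ∩ {ω | ¬ ∀ j, ω ∈ a j}) ≤ μ.real (B \ F) := by
    refine measureReal_mono ?_
    rintro ω ⟨h1, h2⟩
    exact ⟨h1, fun h3 => h2 h3.1⟩
  have h7 : c * (μ.real B - ε * μ.real B) ≤ ∫ ω in B, x n ω ∂μ := by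
    refine le_trans (mul_le_mul_of_nonneg_left ?_ hc.le) hn2
    linarith
  have h8 : K * μ.real (B \ F) ≤ c / 8 * μ.real B := by
    calc K * μ.real (B \ F) ≤ K * (ε * μ.real B) := mul_le_mul_of_nonneg_left hBF hK0.le
      _ = K * ε * μ.real B := by ring
      _ ≤ c / 8 * μ.real B := mul_le_mul_of_nonneg_right hε2 hBpos.le
  rw [hCK] at hup
  have h9 : c * (μ.real B - ε * μ.real B) ≥ c * (3 / 4 * μ.real B) := by
    apply mul_le_mul_of_nonneg_left _ hc.le
    have := mul_le_mul_of_nonneg_right hε1 hBpos.le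
    linarith
  have h10 : 0 < c * μ.real B := mul_pos hc hBpos
  nlinarith

end H483C.TaskPZ
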