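import Mathlib
import Pool.Agent.H483R3.Cyc.Stmts

/-!
# Task `TaskRzero` of project H483-CYC (proved by helper192 for helper483)

`R_n / G_n → 0` almost surely on the event that the stopped signed chain is never stopped.
-/

set_option autoImplicit false
open MeasureTheory ProbabilityTheory Filter Topology Finset
namespace H483C
namespace RZ

lemma not_summable_shift (A : ℝ) : ¬ Summable (fun i : ℕ => 1 / (A + 2 * (i : ℝ) + |A|+1)) := by
  intro h
  obtain ⟨k, hk⟩ := exists_nat_ge (A + |A| + 1)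
  have h2 : Summable (fun i : ℕ => 1 / (2 * (((i + (k+1) : ℕ)) : ℝ))) := by
    refine Summable.of_nonneg_of_le (fun i => by positivity) (fun i => ?_) h
    have hA : 0 ≤ A + |A| := by linarith [neg_abs_le A]
    have hi : (0:ℝ) ≤ (i:ℝ) := by positivity
    apply one_div_le_one_div_of_le
    · linarith
    · push_cast
      have : (0:ℝ) ≤ (k:ℝ) := by positivity
      linarith
  have h3 : Summable (fun i : ℕ => 1 / ((((i + (k+1) : ℕ)) : ℝ))) := by
    have := h2.mul_left 2
    refine this.congr (fun i => ?_)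
    field_simp
  exact Real.not_summable_one_div_natCast ((summable_nat_add_iff (f := fun i : ℕ => 1 / (i:ℝ)) (k+1)).1 h3)

lemma det (δ lam K : ℝ) (hδ : 0 < δ) (hlam : 0 ≤ lam) (Q S e : ℕ → ℝ) (hQ : ∀ n, 0 ≤ Q n)
    (hS : ∀ n, 1 ≤ S n) (hSK : ∀ n, S n ≤ K + 2 * (n : ℝ)) (he : ∀ n, 0 ≤ e n) (M : ℝ)
    (heM : ∀ n, ∑ i ∈ range n, e i ≤ M) (v : ℝ)
    (hV : Tendsto (fun n => Q n + ∑ i ∈ range n, δ * Q i / (S i + 2*lam) - ∑ i ∈ range n, e i)
      atTop (𝓝 v)) : Tendsto Q atTop (𝓝 0) := by
  have hes : Summable e := summable_of_sum_range_le he heM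
  have h1 := hV.add hes.hasSum.tendsto_sum_nat
  have h1' : Tendsto (fun n => Q n + ∑ i ∈ range n, δ * Q i / (S i + 2*lam)) atTop
      (𝓝 (v + ∑' i, e i)) := by
    refine h1.congr (fun n => ?_)
    ring
  obtain ⟨B, hB⟩ := h1'.bddAbove_range
  have hb : ∀ i, 0 ≤ δ * Q i / (S i + 2*lam) := fun i => by
    have := hS i
    have := hQ i
    positivity
  have hbs : Summable (fun i => δ * Q i / (S i + 2*lam)) := by
    refine summable_of_sum_range_le (c := B) hb (fun n => ?_)
    have := hB ⟨n, rfl⟩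
    simp only at this
    linarith [hQ n]
  have h2 := h1'.sub hbs.hasSum.tendsto_sum_nat
  set L := v + ∑' i, e i - ∑' i, δ * Q i / (S i + 2*lam) with hL
  have h2' : Tendsto Q atTop (𝓝 L) := by
    refine h2.congr (fun n => ?_)
    ring
  have hL0 : 0 ≤ L := ge_of_tendsto' h2' hQ
  rcases hL0.eq_or_lt with h0 | h0
  · rw [← h0] at h2'
    exact h2'
  · exfalso
    have hev : ∀ᶠ n in atTop, L / 2 < Q n := h2'.eventually (lt_mem_nhds (by linarith))
    obtain ⟨N, hN⟩ := eventually_atTop.1 hev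
    set A := K + 2 * lam with hA
    apply not_summable_shift A
    have h3 : Summable (fun i : ℕ => (2 / (δ * L)) * (δ * Q (i + N) / (S (i + N) + 2*lam))) :=
      ((summable_nat_add_iff N).2 hbs).mul_left _
    rw [← summable_nat_add_iff N]
    refine Summable.of_nonneg_of_le (fun i => ?_) (fun i => ?_) h3
    · have hA : 0 ≤ A + |A| := by linarith [neg_abs_le A]
      have hi : (0:ℝ) ≤ ((i + N : ℕ) : ℝ) := by positivity
      have : (0:ℝ) ≤ A + 2 * ((i + N : ℕ) : ℝ) + |A| + 1 := by linarith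
      exact div_nonneg zero_le_one this
    · have hq := hN (i + N) (by omega)
      have hs := hSK (i + N)
      have hs1 := hS (i + N)
      have h5 : 0 < S (i + N) + 2 * lam := by linarith
      have h6 : S (i + N) + 2 * lam ≤ A + 2 * ((i + N : ℕ) : ℝ) + |A| + 1 := by
        have := abs_nonneg A
        linarith
      calc 1 / (A + 2 * ((i + N : ℕ) : ℝ) + |A| + 1) ≤ 1 / (S (i + N) + 2 * lam) :=
            one_div_le_one_div_of_le h5 h6
        _ ≤ (2 / (δ * L)) * (δ * Q (i + N) / (S (i + N) + 2*lam)) := by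
            rw [div_mul_div_comm, div_le_div_iff₀ h5 (by positivity)]
            have : δ * L ≤ 2 * (δ * Q (i + N)) := by nlinarith
            nlinarith

lemma supconv {Ω : Type} {m : MeasurableSpace Ω} (μ : Measure Ω) [IsProbabilityMeasure μ]
    (ℱ : Filtration ℕ m) (V : ℕ → Ω → ℝ) (hV : Supermartingale V ℱ μ) (M : ℝ)
    (hM : ∀ n ω, -M ≤ V n ω) : ∀ᵐ ω ∂μ, ∃ c, Tendsto (fun n => V n ω) atTop (𝓝 c) := by
  have hneg := hV.neg
  have hM2 : ∀ n ω, -|M| ≤ V n ω := fun n ω => le_trans (neg_le_neg (le_abs_self M)) (hM n ω)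
  have hbdd : ∀ n, eLpNorm ((-V) n) 1 μ ≤ ((Real.toNNReal (∫ ω, V 0 ω ∂μ + 2 * |M|) : NNReal) : ENNReal) := by
    intro n
    have hint : Integrable (V n) μ := hV.integrable n
    rw [Pi.neg_apply, eLpNorm_neg, eLpNorm_one_eq_lintegral_enorm,
      ← ofReal_integral_norm_eq_lintegral_enorm hint, ENNReal.ofReal]
    rw [ENNReal.coe_le_coe]
    apply Real.toNNReal_le_toNNReal
    have h1 : ∫ ω, V n ω ∂μ ≤ ∫ ω, V 0 ω ∂μ := by
      have := hV.setIntegral_le (Nat.zero_le n) (s := Set.univ) MeasurableSet.univ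
      simpa using this
    have h2 : ∫ ω, ‖V n ω‖ ∂μ ≤ ∫ ω, (V n ω + 2 * |M|) ∂μ := by
      apply integral_mono hint.norm (hint.add (integrable_const _))
      intro ω
      simp only [Real.norm_eq_abs]
      rw [abs_le]
      simp only [Pi.add_apply]
      constructor
      · linarith [hM2 n ω]
      · linarith [abs_nonneg M]
    rw [integral_add hint (integrable_const _)] at h2
    simp only [integral_const, probReal_univ, one_smul] at h2
    linarith
  have := hneg.exists_ae_tendsto_of_bdd hbdd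
  filter_upwards [this] with ω hω
  obtain ⟨c, hc⟩ := hω
  refine ⟨-c, ?_⟩
  have := hc.neg
  simpa using this

lemma main {Ω : Type} {m : MeasurableSpace Ω} (μ : Measure Ω) [IsProbabilityMeasure μ]
    (ℱ : Filtration ℕ m) (a : ℕ → Set Ω) (R S G : ℕ → Ω → ℝ) (lam lam2 C K M : ℝ)
    (hlam : 0 < lam) (h2 : lam2 < lam) (hC : 0 ≤ C)
    (am : ∀ n, MeasurableSet[ℱ n] (a n))
    (Rm : ∀ n, Measurable[ℱ n] (R n)) (Sm : ∀ n, Measurable[ℱ n] (S n)) (G0 : ∀ ω, G 0 ω = 1)
    (Gs : ∀ n ω, G (n+1) ω = G n ω * (1 + (a n).indicator (fun ω => 2*lam/S n ω) ω))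
    (R0 : ∀ n ω, 0 ≤ R n ω) (S1 : ∀ n ω, 1 ≤ S n ω) (SK : ∀ n ω, S n ω ≤ K + 2 * (n : ℝ))
    (G1 : ∀ n ω, 1 ≤ G n ω)
    (Ri : ∀ n, Integrable (R n) μ)
    (Rc : ∀ n, μ[R (n+1) | ℱ n] ≤ᵐ[μ] fun ω => R n ω +
      (a n).indicator (fun ω => 2 * lam2 * R n ω / S n ω + C) ω)
    (hM : ∀ n ω, ∑ i ∈ range n, (a i).indicator (fun ω => 1 / G (i+1) ω) ω ≤ M) :
    ∀ᵐ ω ∂μ, (∀ n, ω ∈ a n) → Tendsto (fun n => R n ω / G n ω) atTop (𝓝 0) := by
  set δ := 2 * (lam - lam2) with hδ
  have hδ0 : 0 < δ := by rw [hδ]; linarith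
  have Gm : ∀ n, Measurable[ℱ n] (G (n+1)) := by
    intro n
    induction n with
    | zero =>
      have : G (0+1) = fun ω => 1 + (a 0).indicator (fun ω => 2*lam/S 0 ω) ω := by
        funext ω
        rw [Gs, G0, one_mul]
      rw [this]
      exact measurable_const.add ((measurable_const.div (Sm 0)).indicator (am 0))
    | succ n ih =>
      have : G (n+1+1) = fun ω => G (n+1) ω * (1 + (a (n+1)).indicator (fun ω => 2*lam/S (n+1) ω) ω) := by
        funext ω
        rw [Gs]
      rw [this]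
      exact (ih.mono (ℱ.mono (Nat.le_succ n)) le_rfl).mul
        (measurable_const.add ((measurable_const.div (Sm (n+1))).indicator (am (n+1))))
  have Gm0 : ∀ n, Measurable[ℱ n] (G n) := by
    intro n
    cases n with
    | zero =>
      have : G 0 = fun _ => 1 := by
        funext ω
        exact G0 ω
      rw [this]
      exact measurable_const
    | succ n => exact (Gm n).mono (ℱ.mono (Nat.le_succ n)) le_rfl
  set Q : ℕ → Ω → ℝ := fun n ω => R n ω / G n ω with hQ
  set b : ℕ → Ω → ℝ := fun n ω => (a n).indicator (fun ω => δ * (R n ω / G n ω) / (S n ω + 2*lam)) ω with hb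
  set e : ℕ → Ω → ℝ := fun n ω => C * (a n).indicator (fun ω => 1 / G (n+1) ω) ω with he
  have Qm : ∀ n, Measurable[ℱ n] (Q n) := fun n => (Rm n).div (Gm0 n)
  have bm : ∀ n, Measurable[ℱ n] (b n) := fun n =>
    (((Qm n).const_mul δ).div ((Sm n).add_const (2*lam))).indicator (am n)
  have em : ∀ n, Measurable[ℱ n] (e n) := fun n =>
    ((measurable_const.div (Gm n)).indicator (am n)).const_mul C
  have Qnn : ∀ n ω, 0 ≤ Q n ω := fun n ω => div_nonneg (R0 n ω) (by linarith [G1 n ω])
  have Qi : ∀ n, Integrable (Q n) μ := by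
    intro n
    refine (Ri n).mono ((Qm n).mono (ℱ.le n) le_rfl).aestronglyMeasurable (Eventually.of_forall fun ω => ?_)
    rw [Real.norm_of_nonneg (Qnn n ω), Real.norm_of_nonneg (R0 n ω)]
    exact div_le_self (R0 n ω) (G1 n ω)
  have bnn : ∀ n ω, 0 ≤ b n ω := by
    intro n ω
    apply Set.indicator_nonneg
    intro ω _
    have := Qnn n ω
    simp only [hQ] at this
    have h1 := S1 n ω
    positivity
  have bi : ∀ n, Integrable (b n) μ := by
    intro n
    refine ((Qi n).const_mul δ).mono ((bm n).mono (ℱ.le n) le_rfl).aestronglyMeasurable (Eventually.of_forall fun ω => ?_)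
    rw [Real.norm_of_nonneg (bnn n ω), Real.norm_of_nonneg (mul_nonneg hδ0.le (Qnn n ω))]
    simp only [hb]
    by_cases hω : ω ∈ a n
    · rw [Set.indicator_of_mem hω]
      exact div_le_self (mul_nonneg hδ0.le (Qnn n ω)) (by linarith [S1 n ω])
    · rw [Set.indicator_of_notMem hω]
      exact mul_nonneg hδ0.le (Qnn n ω)
  have enn : ∀ n ω, 0 ≤ e n ω := by
    intro n ω
    apply mul_nonneg hC
    apply Set.indicator_nonneg
    intro ω _
    have h1 := G1 (n+1) ω
    positivity
  have ei : ∀ n, Integrable (e n) μ := by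
    intro n
    refine (integrable_const C).mono ((em n).mono (ℱ.le n) le_rfl).aestronglyMeasurable (Eventually.of_forall fun ω => ?_)
    rw [Real.norm_of_nonneg (enn n ω), Real.norm_of_nonneg hC]
    simp only [he]
    by_cases hω : ω ∈ a n
    · rw [Set.indicator_of_mem hω]
      have : 1 / G (n+1) ω ≤ 1 := by
        rw [div_le_one (by linarith [G1 (n+1) ω])]
        exact G1 (n+1) ω
      nlinarith
    · rw [Set.indicator_of_notMem hω, mul_zero]
      exact hC
  set T : ℕ → Ω → ℝ := fun n ω => ∑ i ∈ range n, b i ω - ∑ i ∈ range n, e i ω with hT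
  have Tm : ∀ n, Measurable[ℱ n] (T (n+1)) := by
    intro n
    apply Measurable.sub
    · refine Finset.measurable_sum _ (fun i hi => ?_)
      exact (bm i).mono (ℱ.mono (by have := mem_range.1 hi; omega)) le_rfl
    · refine Finset.measurable_sum _ (fun i hi => ?_)
      exact (em i).mono (ℱ.mono (by have := mem_range.1 hi; omega)) le_rfl
  have Tm0 : ∀ n, Measurable[ℱ n] (T n) := by
    intro n
    apply Measurable.sub
    · refine Finset.measurable_sum _ (fun i hi => ?_)
      exact (bm i).mono (ℱ.mono (by have := mem_range.1 hi; omega)) le_rfl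
    · refine Finset.measurable_sum _ (fun i hi => ?_)
      exact (em i).mono (ℱ.mono (by have := mem_range.1 hi; omega)) le_rfl
  have Ti : ∀ n, Integrable (T n) μ := fun n =>
    (integrable_finsetSum _ (fun i _ => bi i)).sub (integrable_finsetSum _ (fun i _ => ei i))
  set V : ℕ → Ω → ℝ := fun n => Q n + T n with hV
  have hsup : Supermartingale V ℱ μ := by
    apply supermartingale_nat
    · intro n
      exact ((Qm n).add (Tm0 n)).stronglyMeasurable
    · intro n
      exact (Qi n).add (Ti n)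
    · intro n
      have c1 : μ[V (n+1) | ℱ n] =ᵐ[μ] μ[Q (n+1) | ℱ n] + μ[T (n+1) | ℱ n] :=
        condExp_add (Qi (n+1)) (Ti (n+1)) _
      have c2 : μ[T (n+1) | ℱ n] = T (n+1) :=
        condExp_of_stronglyMeasurable (ℱ.le n) (Tm n).stronglyMeasurable (Ti (n+1))
      have c3 : μ[Q (n+1) | ℱ n] =ᵐ[μ] (fun ω => 1 / G (n+1) ω) * μ[R (n+1) | ℱ n] := by
        have : Q (n+1) = (fun ω => 1 / G (n+1) ω) * R (n+1) := by
          funext ω
          simp only [hQ, Pi.mul_apply]
          ring
        have hi := Qi (n+1)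
        rw [this] at hi ⊢
        exact condExp_mul_of_stronglyMeasurable_left
          (measurable_const.div (Gm n)).stronglyMeasurable hi (Ri (n+1))
      filter_upwards [c1, c3, Rc n] with ω h1 h3 h4
      rw [h1, Pi.add_apply, h3, c2, Pi.mul_apply]
      have hG := G1 n ω
      have hG' := G1 (n+1) ω
      have hS := S1 n ω
      have h5 : 1 / G (n+1) ω * (μ[R (n+1) | ℱ n]) ω ≤ 1 / G (n+1) ω * (R n ω +
          (a n).indicator (fun ω => 2 * lam2 * R n ω / S n ω + C) ω) :=
        mul_le_mul_of_nonneg_left h4 (by positivity)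
      refine le_trans (add_le_add_left h5 _) (le_of_eq ?_)
      simp only [hV, hT, Pi.add_apply, sum_range_succ, hQ]
      have key : 1 / G (n+1) ω * (R n ω +
          (a n).indicator (fun ω => 2 * lam2 * R n ω / S n ω + C) ω) + b n ω - e n ω =
          R n ω / G n ω := by
        simp only [hb, he]
        rw [Gs n ω]
        by_cases hω : ω ∈ a n
        · simp only [Set.indicator_of_mem hω, Gs n ω]
          have hS2 : S n ω + 2 * lam ≠ 0 := by linarith
          have hS3 : S n ω ≠ 0 := by linarith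
          have hG3 : G n ω ≠ 0 := by linarith
          have : 1 + 2 * lam / S n ω = (S n ω + 2 * lam) / S n ω := by field_simp
          rw [this, hδ]
          field_simp
          ring
        · simp only [Set.indicator_of_notMem hω]
          ring
      linarith
  have hVM : ∀ n ω, -(C * M) ≤ V n ω := by
    intro n ω
    have h1 : 0 ≤ ∑ i ∈ range n, b i ω := Finset.sum_nonneg (fun i _ => bnn i ω)
    have h3 : ∑ i ∈ range n, e i ω ≤ C * M := by
      simp only [he]
      rw [← Finset.mul_sum]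
      exact mul_le_mul_of_nonneg_left (hM n ω) hC
    have h4 := Qnn n ω
    simp only [hV, hT, Pi.add_apply]
    linarith
  have hconv := supconv μ ℱ V hsup (C * M) hVM
  filter_upwards [hconv] with ω hω ha
  obtain ⟨v, hv⟩ := hω
  refine det δ lam K hδ0 hlam.le (fun n => Q n ω) (fun n => S n ω) (fun n => e n ω)
    (fun n => Qnn n ω) (fun n => S1 n ω) (fun n => SK n ω) (fun n => enn n ω) (C * M) ?_ v ?_
  · intro n
    simp only [he]
    rw [← Finset.mul_sum]
    exact mul_le_mul_of_nonneg_left (hM n ω) hC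
  · refine hv.congr (fun n => ?_)
    simp only [hV, hT, Pi.add_apply, hb]
    have : ∀ i ∈ range n, (a i).indicator (fun ω => δ * (R i ω / G i ω) / (S i ω + 2*lam)) ω =
        δ * Q i ω / (S i ω + 2 * lam) := by
      intro i _
      rw [Set.indicator_of_mem (ha i)]
    rw [Finset.sum_congr rfl this]
    ring

end RZ

theorem taskRzero : TaskRzero := by
  intro hG hMom N θ hθ lam p q κ lam2 hspec Ω m μ hμ ℱ a Y c hlin
  obtain ⟨ρ, C, c0, hρ, hC, hc0, hsum, hrest⟩ := hG θ hθ lam hspec.h1 hspec.h2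
  obtain ⟨hS2, hG1, -, hGlow, -⟩ := hrest N Ω m μ ℱ a Y c hlin
  obtain ⟨C', hC', hmom⟩ := hMom N θ hθ lam p q κ lam2 hspec
  have hmom' := hmom Ω m μ hμ ℱ a Y c hlin
  obtain ⟨K, hK⟩ := hlin.bdd
  have Ym : ∀ n v, Measurable[ℱ n] (fun ω => ((Y n ω v : ℤ) : ℝ)) := by
    intro n v
    exact (measurable_from_top (f := fun z : ℤ => (z : ℝ))).comp (hlin.ymeas n v)
  have hlampos : 0 < lam := by linarith [hspec.h1]
  refine RZ.main μ ℱ a (fun n ω => Rq p q κ (Y n ω)) (fun n ω => Sn (Y n ω)) (Gn lam a Y)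
    lam lam2 C' K (C * K) hlampos hspec.gap1 hC'.le hlin.ameas ?_ ?_ ?_ ?_ ?_ hlin.pos ?_ hG1
    (fun n => (hmom' n).2.2.1) (fun n => (hmom' n).2.2.2.2.2) ?_
  · intro n
    unfold Rq
    refine Finset.measurable_sum _ (fun v _ => ?_)
    refine Measurable.pow_const ?_ 2
    refine (Ym n v).sub (measurable_const.mul ?_)
    refine Measurable.add (measurable_const.mul ?_) (measurable_const.mul ?_)
    · exact Finset.measurable_sum _ (fun u _ => measurable_const.mul (Ym n u))
    · exact Finset.measurable_sum _ (fun u _ => measurable_const.mul (Ym n u))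
  · intro n
    unfold Sn
    refine Finset.measurable_sum _ (fun v _ => ?_)
    exact measurable_norm.comp (Ym n v)
  · intro ω
    simp [Gn]
  · intro n ω
    simp only [Gn, Finset.prod_range_succ]
  · intro n ω
    exact Finset.sum_nonneg (fun v _ => sq_nonneg _)
  · intro n ω
    induction n with
    | zero => simpa using hK ω
    | succ n ih =>
      have := (abs_le.1 (hS2 n ω)).2
      push_cast
      linarith
  · intro n ω
    have hS0 : 1 ≤ Sn (Y 0 ω) := hlin.pos 0 ω
    refine le_trans (Finset.sum_le_sum (fun i _ => ?_)) (le_trans (hsum (Sn (Y 0 ω)) n hS0)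
      (mul_le_mul_of_nonneg_left (hK ω) hC.le))
    have hpos : 0 < 1 + 2 * ((i : ℝ) + 1) / Sn (Y 0 ω) := by positivity
    by_cases hω : ω ∈ a i
    · rw [Set.indicator_of_mem hω]
      have := hGlow 0 i (Nat.zero_le i) ω hω
      have hG0 : Gn lam a Y 0 ω = 1 := by simp [Gn]
      rw [hG0, one_mul, Nat.sub_zero] at this
      rw [Real.rpow_neg hpos.le, one_div]
      exact inv_anti₀ (Real.rpow_pos_of_pos hpos ρ) this
    · rw [Set.indicator_of_notMem hω]
      exact (Real.rpow_pos_of_pos hpos _).le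

end H483C
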