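import Pool.Agent.H483R3.Cyc.Stmts

set_option autoImplicit false

open Finset

namespace H483C.SgStep

variable {N s : ℕ}

lemma one_ne : (1 : Fin (N + 3)) ≠ 0 := by
  intro h
  have h1 := congrArg Fin.val h
  rw [Fin.val_one', Fin.val_zero, Nat.mod_eq_of_lt (by omega)] at h1
  omega

lemma two_ne : (1 + 1 : Fin (N + 3)) ≠ 0 := by
  intro h
  have h1 := congrArg Fin.val h
  rw [Fin.val_add, Fin.val_one', Fin.val_zero, Nat.mod_eq_of_lt (a := 1) (by omega),
    Nat.mod_eq_of_lt (by omega)] at h1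
  omega

lemma succ_ne (v : Fin (N + 3)) : v + 1 ≠ v := by
  intro h
  exact one_ne (add_eq_left.1 h)

lemma succ2_ne (v : Fin (N + 3)) : v + 1 + 1 ≠ v := by
  intro h
  rw [add_assoc] at h
  exact two_ne (add_eq_left.1 h)

lemma adj_iff (v u : Fin (N + 3)) :
    (SimpleGraph.cycleGraph (N + 3)).Adj v u ↔ u = v + 1 ∨ u + 1 = v := by
  have h := @SimpleGraph.cycleGraph_adj (N + 1) v u
  rw [show (SimpleGraph.cycleGraph (N + 3)).Adj v u ↔
    (SimpleGraph.cycleGraph (N + 1 + 2)).Adj v u from Iff.rfl, h]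
  constructor
  · rintro (h | h)
    · right
      rw [← h]
      abel
    · left
      rw [← h]
      abel
  · rintro (h | h)
    · right
      rw [h]
      abel
    · left
      rw [← h]
      abel

/-- number of colour changes -/
def EE (f : Fin (N + 3) → Fin s) : ℕ := (univ.filter (fun i => f i ≠ f (i + 1))).card

/-- signings of a colouring -/
def Rel (θ : ℤ) (f : Fin (N + 3) → Fin s) (σ : Fin (N + 3) → ℤ) : Prop :=
  (∀ i, σ i = 1 ∨ σ i = -1) ∧ ∀ i, (wt θ i * σ i * σ (i + 1) = 1 ↔ f i = f (i + 1))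

lemma wt_pm {θ : ℤ} (hθ : θ = 1 ∨ θ = -1) (i : Fin (N + 3)) : wt θ i = 1 ∨ wt θ i = -1 := by
  unfold wt
  split_ifs
  · exact hθ
  · exact Or.inl rfl

lemma EE_split (f : Fin (N + 3) → Fin s) (w : Fin (N + 3)) :
    EE f = (if f w ≠ f (w + 1) then 1 else 0) + (if f (w + 1) ≠ f (w + 1 + 1) then 1 else 0) +
      ((univ.erase w).erase (w + 1)).sum (fun i => if f i ≠ f (i + 1) then 1 else 0) := by
  unfold EE
  rw [card_filter, ← add_sum_erase univ _ (mem_univ w),
    ← add_sum_erase (univ.erase w) _ (show w + 1 ∈ univ.erase w by simp)]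
  exact (add_assoc _ _ _).symm

lemma key {P Q R : Prop} [Decidable P] [Decidable Q] [Decidable R] {w1 w2 s0 s1 s2 τ : ℤ}
    (h1 : w1 = 1 ∨ w1 = -1) (h2 : w2 = 1 ∨ w2 = -1) (h3 : s0 = 1 ∨ s0 = -1)
    (h4 : s1 = 1 ∨ s1 = -1) (h5 : s2 = 1 ∨ s2 = -1) (h6 : τ = 1 ∨ τ = -1)
    (hP : w1 * s0 * s1 = 1 ↔ P) (hQ : w2 * s1 * s2 = 1 ↔ Q)
    (hPQR : P → Q → R) (hPR : P → R → Q) (hQR : Q → R → P)
    (hE : (if R then 0 else 1) = (if P then 0 else 1) + (if Q then 0 else 1)) :
    (w1 * s0 * τ = 1 → (w2 * τ * s2 = 1 ↔ R)) ∧ (w2 * τ * s2 = 1 → (w1 * s0 * τ = 1 ↔ R)) := by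
  have hR : (w1 * s0 * s1) * (w2 * s1 * s2) = 1 ↔ R := by
    by_cases hp : P
    · rw [hP.2 hp, one_mul, hQ]
      exact ⟨hPQR hp, hPR hp⟩
    · by_cases hq : Q
      · rw [hQ.2 hq, mul_one, hP]
        exact ⟨fun h => absurd h hp, fun h => hQR hq h⟩
      · by_cases hr : R
        · have h7 : w1 * s0 * s1 = -1 := by
            have : ¬ w1 * s0 * s1 = 1 := fun h => hp (hP.1 h)
            rcases h1 with rfl | rfl <;> rcases h3 with rfl | rfl <;> rcases h4 with rfl | rfl <;>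
              simp at this ⊢
          have h8 : w2 * s1 * s2 = -1 := by
            have : ¬ w2 * s1 * s2 = 1 := fun h => hq (hQ.1 h)
            rcases h2 with rfl | rfl <;> rcases h4 with rfl | rfl <;> rcases h5 with rfl | rfl <;>
              simp at this ⊢
          rw [h7, h8]
          simp [hr]
        · simp [hp, hq, hr] at hE
  have hs : s1 * s1 = 1 := by rcases h4 with rfl | rfl <;> norm_num
  have ht : τ * τ = 1 := by rcases h6 with rfl | rfl <;> norm_num
  have h9 : (w1 * s0 * τ) * (w2 * τ * s2) = (w1 * s0 * s1) * (w2 * s1 * s2) := by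
    calc (w1 * s0 * τ) * (w2 * τ * s2) = (w1 * s0 * w2 * s2) * (τ * τ) := by ring
      _ = (w1 * s0 * w2 * s2) * (s1 * s1) := by rw [hs, ht]
      _ = _ := by ring
  constructor
  · intro h
    rw [h, one_mul] at h9
    rw [h9, hR]
  · intro h
    rw [h, mul_one] at h9
    rw [h9, hR]

lemma upd {θ : ℤ} (hθ : θ = 1 ∨ θ = -1) (f : Fin (N + 3) → Fin s) (σ : Fin (N + 3) → ℤ)
    (w : Fin (N + 3)) (b : Fin s) (τ : ℤ) (hτ : τ = 1 ∨ τ = -1)
    (h : (b = f w ∧ wt θ w * σ w * τ = 1) ∨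
      (b = f (w + 1 + 1) ∧ wt θ (w + 1) * τ * σ (w + 1 + 1) = 1)) :
    EE (Function.update f (w + 1) b) ≤ EE f ∧
      (Rel θ f σ → EE (Function.update f (w + 1) b) = EE f →
        Rel θ (Function.update f (w + 1) b) (Function.update σ (w + 1) τ)) := by
  have e1 : Function.update f (w + 1) b w = f w := Function.update_of_ne (succ_ne w).symm _ _
  have e2 : Function.update f (w + 1) b (w + 1) = b := Function.update_self _ _ _
  have e3 : Function.update f (w + 1) b (w + 1 + 1) = f (w + 1 + 1) :=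
    Function.update_of_ne (succ_ne _) _ _
  have g1 : Function.update σ (w + 1) τ w = σ w := Function.update_of_ne (succ_ne w).symm _ _
  have g2 : Function.update σ (w + 1) τ (w + 1) = τ := Function.update_self _ _ _
  have g3 : Function.update σ (w + 1) τ (w + 1 + 1) = σ (w + 1 + 1) :=
    Function.update_of_ne (succ_ne _) _ _
  have hrest : ((univ.erase w).erase (w + 1)).sum (fun i => if Function.update f (w + 1) b i ≠
      Function.update f (w + 1) b (i + 1) then 1 else 0) =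
      ((univ.erase w).erase (w + 1)).sum (fun i => if f i ≠ f (i + 1) then 1 else 0) := by
    apply Finset.sum_congr rfl
    intro i hi
    rw [mem_erase, mem_erase] at hi
    rw [Function.update_of_ne hi.1, Function.update_of_ne (fun h => hi.2.1 (add_right_cancel h))]
  have hE' := EE_split (Function.update f (w + 1) b) w
  have hE := EE_split f w
  rw [hrest, e1, e2, e3] at hE'
  constructor
  · rw [hE', hE]
    apply Nat.add_le_add_right
    rcases h with ⟨rfl, _⟩ | ⟨rfl, _⟩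
    · by_cases h1 : f w = f (w + 1)
      · simp [h1]
      · simp only [ne_eq, not_true_eq_false, if_false, h1, not_false_eq_true, if_true]
        split_ifs <;> omega
    · by_cases h1 : f (w + 1) = f (w + 1 + 1)
      · simp [h1]
      · simp only [ne_eq, not_true_eq_false, if_false, h1, not_false_eq_true, if_true]
        split_ifs <;> omega
  · intro hRel hEq
    rw [hE', hE] at hEq
    have hEq2 := Nat.add_right_cancel hEq
    have hR : ((if f w = f (w + 1 + 1) then 0 else 1 : ℕ)) =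
        (if f w = f (w + 1) then 0 else 1) + (if f (w + 1) = f (w + 1 + 1) then 0 else 1) := by
      rcases h with ⟨rfl, _⟩ | ⟨rfl, _⟩
      · simpa [ne_eq, ite_not] using hEq2
      · simpa [ne_eq, ite_not] using hEq2
    have hk := key (wt_pm hθ w) (wt_pm hθ (w + 1)) (hRel.1 w) (hRel.1 (w + 1))
      (hRel.1 (w + 1 + 1)) hτ (hRel.2 w) (hRel.2 (w + 1)) (fun h1 h2 => h1.trans h2)
      (fun h1 h2 => h1.symm.trans h2) (fun h1 h2 => h2.trans h1.symm) hR
    constructor
    · intro i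
      by_cases hi : i = w + 1
      · rw [hi, g2]; exact hτ
      · rw [Function.update_of_ne hi]; exact hRel.1 i
    · intro i
      by_cases hi : i = w + 1
      · rw [hi, g2, g3, e2, e3]
        rcases h with ⟨rfl, h1⟩ | ⟨rfl, h1⟩
        · exact hk.1 h1
        · simp [h1]
      · by_cases hi2 : i = w
        · rw [hi2, g1, g2, e1, e2]
          rcases h with ⟨rfl, h1⟩ | ⟨rfl, h1⟩
          · simp [h1]
          · exact hk.2 h1
        · rw [Function.update_of_ne hi, Function.update_of_ne (fun h => hi2 (add_right_cancel h)),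
            Function.update_of_ne hi, Function.update_of_ne (fun h => hi2 (add_right_cancel h))]
          exact hRel.2 i

theorem t : TaskSgStep := by
  intro N s θ hθ x v σ hS hv hE
  obtain ⟨w, rfl⟩ : ∃ w, v = w + 1 + 1 := ⟨v - 1 - 1, by abel⟩
  set f : Fin (N + 3) → Fin s := fun i => (x i).2 with hf
  have hRel : Rel θ f σ := hS
  have nLV : w + 1 ≠ w + 1 + 1 := (succ_ne _).symm
  have nVR : w + 1 + 1 + 1 ≠ w + 1 + 1 := succ_ne _
  have nRL : w + 1 + 1 + 1 ≠ w + 1 := succ2_ne _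
  have sq : ∀ a b : ℤ, (a = 1 ∨ a = -1) → (b = 1 ∨ b = -1) → a * b * (a * b) = 1 := by
    intro a b ha hb
    rcases ha with rfl | rfl <;> rcases hb with rfl | rfl <;> norm_num
  have pm : ∀ a b : ℤ, (a = 1 ∨ a = -1) → (b = 1 ∨ b = -1) → (a * b = 1 ∨ a * b = -1) := by
    intro a b ha hb
    rcases ha with rfl | rfl <;> rcases hb with rfl | rfl <;> norm_num
  -- first update
  obtain ⟨f1, σ1, hf1, hσ1, hE1, hR1⟩ : ∃ (f1 : Fin (N + 3) → Fin s) (σ1 : Fin (N + 3) → ℤ),
      (∀ u, f1 u = if u = w + 1 + 1 + 1 ∧ (x u).1 = 0 then f (w + 1 + 1) else f u) ∧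
      (∀ u, σ1 u = if u = w + 1 + 1 + 1 ∧ (x u).1 = 0 then wt θ (w + 1 + 1) * σ (w + 1 + 1)
        else σ u) ∧ EE f1 ≤ EE f ∧ (EE f1 = EE f → Rel θ f1 σ1) := by
    by_cases h0 : (x (w + 1 + 1 + 1)).1 = 0
    · have hu := upd hθ f σ (w + 1 + 1) (f (w + 1 + 1)) (wt θ (w + 1 + 1) * σ (w + 1 + 1))
        (pm _ _ (wt_pm hθ _) (hRel.1 _)) (Or.inl ⟨rfl, sq _ _ (wt_pm hθ _) (hRel.1 _)⟩)
      refine ⟨_, _, fun u => ?_, fun u => ?_, hu.1, hu.2 hRel⟩
      · by_cases h1 : u = w + 1 + 1 + 1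
        · subst h1
          rw [Function.update_self, if_pos ⟨rfl, h0⟩]
        · rw [Function.update_of_ne h1, if_neg (fun h => h1 h.1)]
      · by_cases h1 : u = w + 1 + 1 + 1
        · subst h1
          rw [Function.update_self, if_pos ⟨rfl, h0⟩]
        · rw [Function.update_of_ne h1, if_neg (fun h => h1 h.1)]
    · refine ⟨f, σ, fun u => ?_, fun u => ?_, le_rfl, fun _ => hRel⟩
      · rw [if_neg]
        rintro ⟨rfl, h⟩
        exact h0 h
      · rw [if_neg]
        rintro ⟨rfl, h⟩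
        exact h0 h
  have hf1v : f1 (w + 1 + 1) = f (w + 1 + 1) := by
    rw [hf1, if_neg (fun h => nVR h.1.symm)]
  have hσ1v : σ1 (w + 1 + 1) = σ (w + 1 + 1) := by
    rw [hσ1, if_neg (fun h => nVR h.1.symm)]
  -- second update
  obtain ⟨f2, σ2, hf2, hσ2, hE2, hR2⟩ : ∃ (f2 : Fin (N + 3) → Fin s) (σ2 : Fin (N + 3) → ℤ),
      (∀ u, f2 u = if u = w + 1 ∧ (x u).1 = 0 then f (w + 1 + 1) else f1 u) ∧
      (∀ u, σ2 u = if u = w + 1 ∧ (x u).1 = 0 then wt θ (w + 1) * σ (w + 1 + 1)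
        else σ1 u) ∧ EE f2 ≤ EE f1 ∧ (EE f2 = EE f1 → Rel θ f1 σ1 → Rel θ f2 σ2) := by
    by_cases h0 : (x (w + 1)).1 = 0
    · have hu := upd hθ f1 σ1 w (f (w + 1 + 1)) (wt θ (w + 1) * σ (w + 1 + 1))
        (pm _ _ (wt_pm hθ _) (hRel.1 _)) (Or.inr ⟨hf1v.symm, by
          rw [hσ1v]
          have h1 := sq _ _ (wt_pm hθ (w + 1)) (hRel.1 (w + 1 + 1))
          rw [← h1]
          ring⟩)
      refine ⟨_, _, fun u => ?_, fun u => ?_, hu.1, fun h1 h2 => hu.2 h2 h1⟩
      · by_cases h1 : u = w + 1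
        · subst h1
          rw [Function.update_self, if_pos ⟨rfl, h0⟩]
        · rw [Function.update_of_ne h1, if_neg (fun h => h1 h.1)]
      · by_cases h1 : u = w + 1
        · subst h1
          rw [Function.update_self, if_pos ⟨rfl, h0⟩]
        · rw [Function.update_of_ne h1, if_neg (fun h => h1 h.1)]
    · refine ⟨f1, σ1, fun u => ?_, fun u => ?_, le_rfl, fun _ h => h⟩
      · rw [if_neg]
        rintro ⟨rfl, h⟩
        exact h0 h
      · rw [if_neg]
        rintro ⟨rfl, h⟩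
        exact h0 h
  have adjR : (SimpleGraph.cycleGraph (N + 3)).Adj (w + 1 + 1) (w + 1 + 1 + 1) :=
    (adj_iff _ _).2 (Or.inl rfl)
  have adjL : (SimpleGraph.cycleGraph (N + 3)).Adj (w + 1 + 1) (w + 1) :=
    (adj_iff _ _).2 (Or.inr rfl)
  have nadj : ∀ u, u ≠ w + 1 + 1 + 1 → u ≠ w + 1 →
      ¬ (SimpleGraph.cycleGraph (N + 3)).Adj (w + 1 + 1) u := by
    intro u h1 h2 h3
    rcases (adj_iff _ _).1 h3 with h | h
    · exact h1 h
    · exact h2 (add_right_cancel h)
  have AR : A θ (w + 1 + 1 + 1) (w + 1 + 1) = wt θ (w + 1 + 1) := by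
    unfold A
    rw [if_pos rfl]
  have AL : A θ (w + 1) (w + 1 + 1) = wt θ (w + 1) := by
    unfold A
    rw [if_neg nRL, if_pos rfl]
  have A0 : ∀ u, u ≠ w + 1 + 1 + 1 → u ≠ w + 1 → A θ u (w + 1 + 1) = 0 := by
    intro u h1 h2
    unfold A
    rw [if_neg (fun h => h1 h.symm), if_neg (fun h => h2 (add_right_cancel h))]
  have hstep : (fun i => (step (SimpleGraph.cycleGraph (N + 3)) x (w + 1 + 1) i).2) = f2 := by
    funext u
    rw [hf2, hf1]
    by_cases h1 : u = w + 1 + 1 + 1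
    · subst h1
      unfold step
      rw [if_pos adjR,
        if_neg (fun h => nRL h.1 : ¬ (w + 1 + 1 + 1 = w + 1 ∧ (x (w + 1 + 1 + 1)).1 = 0))]
      by_cases h0 : (x (w + 1 + 1 + 1)).1 = 0
      · rw [if_pos h0, if_pos ⟨rfl, h0⟩]
      · rw [if_neg h0, if_neg (fun h => h0 h.2 :
          ¬ (w + 1 + 1 + 1 = w + 1 + 1 + 1 ∧ (x (w + 1 + 1 + 1)).1 = 0))]
        split_ifs <;> rfl
    · by_cases h2 : u = w + 1
      · subst h2
        unfold step
        rw [if_pos adjL]
        by_cases h0 : (x (w + 1)).1 = 0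
        · rw [if_pos h0, if_pos ⟨rfl, h0⟩]
        · rw [if_neg h0, if_neg (fun h => h0 h.2 : ¬ (w + 1 = w + 1 ∧ (x (w + 1)).1 = 0)),
            if_neg (fun h => h0 h.2 : ¬ (w + 1 = w + 1 + 1 + 1 ∧ (x (w + 1)).1 = 0))]
          split_ifs <;> rfl
      · unfold step
        rw [if_neg (nadj u h1 h2), if_neg (fun h => h2 h.1), if_neg (fun h => h1 h.1)]
  have hsg : sgStep θ x σ (w + 1 + 1) = σ2 := by
    funext u
    rw [hσ2, hσ1]
    unfold sgStep
    by_cases h1 : u = w + 1 + 1 + 1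
    · subst h1
      rw [if_neg (fun h => nRL h.1 : ¬ (w + 1 + 1 + 1 = w + 1 ∧ (x (w + 1 + 1 + 1)).1 = 0))]
      by_cases h0 : (x (w + 1 + 1 + 1)).1 = 0
      · rw [if_pos ⟨adjR, h0⟩, if_pos ⟨rfl, h0⟩, AR]
      · rw [if_neg (fun h => h0 h.2), if_neg (fun h => h0 h.2)]
    · by_cases h2 : u = w + 1
      · subst h2
        by_cases h0 : (x (w + 1)).1 = 0
        · rw [if_pos ⟨adjL, h0⟩, if_pos ⟨rfl, h0⟩, AL]
        · rw [if_neg (fun h => h0 h.2), if_neg (fun h => h0 h.2), if_neg (fun h => h0 h.2)]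
      · rw [if_neg (fun h => nadj u h1 h2 h.1), if_neg (fun h => h2 h.1), if_neg (fun h => h1 h.1)]
  have hEx : EE f2 = EE f := by
    rw [← hstep]
    exact hE
  have hE1' : EE f1 = EE f := le_antisymm hE1 (hEx ▸ hE2)
  have hR : Rel θ f2 σ2 := hR2 (by rw [hEx, hE1']) (hR1 hE1')
  constructor
  · rw [hsg]
    rw [← hstep] at hR
    exact hR
  · intro u
    have hloc : ∀ u : Fin (N + 3), ∀ a : ℤ, (SimpleGraph.cycleGraph (N + 3)).Adj (w + 1 + 1) u →
        A θ u (w + 1 + 1) = a → (a = 1 ∨ a = -1) →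
        (a * σ (w + 1 + 1) * σ u = 1 ↔ (x u).2 = (x (w + 1 + 1)).2) →
        sgStep θ x σ (w + 1 + 1) u *
          ((step (SimpleGraph.cycleGraph (N + 3)) x (w + 1 + 1) u).1 : ℤ) =
        σ u * ((x u).1 : ℤ) + A θ u (w + 1 + 1) * σ (w + 1 + 1) := by
      intro u a hadj hA ha hiff
      unfold sgStep step
      rw [hA]
      have p1 := hRel.1 u
      have p2 := hRel.1 (w + 1 + 1)
      by_cases h0 : (x u).1 = 0
      · rw [if_pos ⟨hadj, h0⟩, if_pos hadj, if_pos h0, h0]
        push_cast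
        ring
      · rw [if_neg (fun h => h0 h.2), if_pos hadj, if_neg h0]
        by_cases hc : (x u).2 = (x (w + 1 + 1)).2
        · rw [if_pos hc]
          have h3 := hiff.2 hc
          have h4 : a * σ (w + 1 + 1) = σ u := by
            rcases ha with rfl | rfl <;> rcases p1 with h5 | h5 <;> rcases p2 with h6 | h6 <;>
              simp_all
          rw [h4]
          push_cast
          ring
        · rw [if_neg hc]
          have h3 : ¬ (a * σ (w + 1 + 1) * σ u = 1) := fun h => hc (hiff.1 h)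
          have h4 : a * σ (w + 1 + 1) = - σ u := by
            rcases ha with rfl | rfl <;> rcases p1 with h5 | h5 <;> rcases p2 with h6 | h6 <;>
              simp_all
          rw [h4]
          have h5 : ((((x u).1 - 1 : ℕ)) : ℤ) = ((x u).1 : ℤ) - 1 := by
            have : 1 ≤ (x u).1 := Nat.one_le_iff_ne_zero.2 h0
            push_cast [Nat.cast_sub this]
            ring
          show σ u * ((((x u).1 - 1 : ℕ)) : ℤ) = _
          rw [h5]
          ring
    by_cases h1 : u = w + 1 + 1 + 1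
    · subst h1
      refine hloc _ _ adjR AR (wt_pm hθ _) ?_
      rw [hRel.2 (w + 1 + 1)]
      exact eq_comm
    · by_cases h2 : u = w + 1
      · subst h2
        refine hloc _ _ adjL AL (wt_pm hθ _) ?_
        have h3 := hRel.2 (w + 1)
        rw [show wt θ (w + 1) * σ (w + 1 + 1) * σ (w + 1) = wt θ (w + 1) * σ (w + 1) * σ (w + 1 + 1)
          by ring, h3]
      · have h3 : step (SimpleGraph.cycleGraph (N + 3)) x (w + 1 + 1) u = x u := by
          unfold step
          rw [if_neg (nadj u h1 h2)]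
        have h4 : sgStep θ x σ (w + 1 + 1) u = σ u := by
          unfold sgStep
          rw [if_neg (fun h => nadj u h1 h2 h.1)]
        rw [h3, h4, A0 u h1 h2, zero_mul, add_zero]

end H483C.SgStep
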