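import Pool.Agent.H483R3.Cyc.Stmts

set_option autoImplicit false

/-! Task Spec2: spectral data of the twisted cycle. -/

open Finset

namespace H483C.TaskSpec2

lemma tel (θ : ℝ) (n : ℕ) :
    2 * Real.sin θ * ∑ j ∈ range n, Real.cos ((2 * (j : ℝ) + 1) * θ) = Real.sin (2 * n * θ) := by
  induction n with
  | zero => simp
  | succ n ih =>
    rw [sum_range_succ, mul_add, ih]
    have h1 : (2 * ((n + 1 : ℕ) : ℝ) * θ) = (2 * (n : ℝ) + 1) * θ + θ := by push_cast; ring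
    have h2 : (2 * (n : ℝ) * θ) = (2 * (n : ℝ) + 1) * θ - θ := by ring
    rw [h1, h2, Real.sin_add, Real.sin_sub]
    ring

lemma telc (θ : ℝ) (n : ℕ) :
    2 * Real.sin θ * ∑ v ∈ range n, Real.cos (2 * (v : ℝ) * θ)
      = Real.sin ((2 * (n : ℝ) - 1) * θ) + Real.sin θ := by
  induction n with
  | zero => simp
  | succ n ih =>
    rw [sum_range_succ, mul_add, ih]
    have h1 : (2 * ((n + 1 : ℕ) : ℝ) - 1) * θ = 2 * (n : ℝ) * θ + θ := by push_cast; ring
    have h2 : (2 * (n : ℝ) - 1) * θ = 2 * (n : ℝ) * θ - θ := by ring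
    rw [h1, h2, Real.sin_add, Real.sin_sub]
    ring

lemma tels (θ : ℝ) (n : ℕ) :
    2 * Real.sin θ * ∑ v ∈ range n, Real.sin (2 * (v : ℝ) * θ)
      = Real.cos θ - Real.cos ((2 * (n : ℝ) - 1) * θ) := by
  induction n with
  | zero => simp
  | succ n ih =>
    rw [sum_range_succ, mul_add, ih]
    have h1 : (2 * ((n + 1 : ℕ) : ℝ) - 1) * θ = 2 * (n : ℝ) * θ + θ := by push_cast; ring
    have h2 : (2 * (n : ℝ) - 1) * θ = 2 * (n : ℝ) * θ - θ := by ring
    rw [h1, h2, Real.cos_add, Real.cos_sub]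
    ring

/-- the character sums -/
noncomputable def ds (N : ℕ) (m : ℤ) : ℝ :=
  ∑ j ∈ range (N + 3), Real.cos ((2 * (j : ℝ) + 1) * (Real.pi * m / (N + 3)))

lemma K_pos (N : ℕ) : (0 : ℝ) < (N : ℝ) + 3 := by positivity

lemma ds_zero (N : ℕ) : ds N 0 = (N : ℝ) + 3 := by
  simp [ds]

lemma ds_neg (N : ℕ) (m : ℤ) : ds N (-m) = ds N m := by
  unfold ds
  apply sum_congr rfl
  intro j _
  rw [← Real.cos_neg]
  congr 1
  push_cast
  ring

lemma ds_k (N : ℕ) : ds N ((N : ℤ) + 3) = -((N : ℝ) + 3) := by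
  unfold ds
  have h : ∀ j ∈ range (N + 3),
      Real.cos ((2 * (j : ℝ) + 1) * (Real.pi * (((N : ℤ) + 3 : ℤ) : ℝ) / (N + 3))) = -1 := by
    intro j _
    have hk := K_pos N
    have e : (2 * (j : ℝ) + 1) * (Real.pi * (((N : ℤ) + 3 : ℤ) : ℝ) / (N + 3))
        = (j : ℝ) * (2 * Real.pi) + Real.pi := by
      push_cast
      field_simp
    rw [e, Real.cos_add_pi, Real.cos_nat_mul_two_pi]
  rw [sum_congr rfl h]
  simp

lemma ds_mid (N : ℕ) (m : ℤ) (h0 : 0 < m) (h1 : m < (N : ℤ) + 3) : ds N m = 0 := by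
  have hk := K_pos N
  have hm0 : (0 : ℝ) < m := by exact_mod_cast h0
  have hm1 : (m : ℝ) < (N : ℝ) + 3 := by exact_mod_cast h1
  set θ : ℝ := Real.pi * m / (N + 3) with hθ
  have h2 : 0 < Real.sin θ := by
    apply Real.sin_pos_of_pos_of_lt_pi
    · rw [hθ]; positivity
    · rw [hθ, div_lt_iff₀ hk]
      exact mul_lt_mul_of_pos_left hm1 Real.pi_pos
  have h3 := tel θ (N + 3)
  have h4 : (2 * ((N + 3 : ℕ) : ℝ) * θ) = (m : ℝ) * (2 * Real.pi) := by
    rw [hθ]
    push_cast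
    field_simp
  rw [h4, ← zero_add ((m : ℝ) * (2 * Real.pi)), Real.sin_add_int_mul_two_pi, Real.sin_zero] at h3
  have h5 : ds N m = ∑ j ∈ range (N + 3), Real.cos ((2 * (j : ℝ) + 1) * θ) := rfl
  rw [← h5] at h3
  rcases mul_eq_zero.mp h3 with h6 | h6
  · linarith
  · exact h6

lemma ds_other (N : ℕ) (m : ℤ) (h0 : m ≠ 0) (h1 : m < (N : ℤ) + 3) (h2 : -((N : ℤ) + 3) < m) :
    ds N m = 0 := by
  rcases lt_or_gt_of_ne h0 with h | h
  · rw [← ds_neg]
    exact ds_mid N (-m) (by omega) (by omega)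
  · exact ds_mid N m h h1

lemma succ_iff (N : ℕ) (u v : Fin (N + 3)) :
    v + 1 = u ↔ ((v.val = N + 2 ∧ u.val = 0) ∨ (v.val ≠ N + 2 ∧ u.val = v.val + 1)) := by
  have h1 := Fin.val_add_one (n := N + 2) v
  have h2 : v = Fin.last (N + 2) ↔ v.val = N + 2 := by
    rw [Fin.ext_iff, Fin.val_last]
  rw [Fin.ext_iff]
  by_cases h3 : v = Fin.last (N + 2)
  · rw [if_pos h3] at h1
    have h4 := h2.mp h3
    rw [h1]
    omega
  · rw [if_neg h3] at h1
    have h4 : v.val ≠ N + 2 := fun h => h3 (h2.mpr h)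
    rw [h1]
    omega

lemma wt_val (N : ℕ) (v : Fin (N + 3)) : wt (-1) v = if v.val = N + 2 then -1 else 1 := by
  unfold wt
  have h2 : v = Fin.last (N + 2) ↔ v.val = N + 2 := by
    rw [Fin.ext_iff, Fin.val_last]
  by_cases h : v.val = N + 2
  · rw [if_pos h, if_pos (h2.mpr h)]
  · rw [if_neg h, if_neg (fun h' => h (h2.mp h'))]

lemma A_val (N : ℕ) (u v : Fin (N + 3)) :
    ((A (-1) u v : ℤ) : ℝ) * ((N : ℝ) + 3)
      = ds N ((u.val : ℤ) - v.val + 1) + ds N ((u.val : ℤ) - v.val - 1) := by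
  have hu := u.isLt
  have hv := v.isLt
  unfold A
  by_cases h1 : v + 1 = u
  · rw [if_pos h1, wt_val]
    rcases (succ_iff N u v).mp h1 with ⟨a, b⟩ | ⟨a, b⟩
    · rw [if_pos a, ds_other N _ (by omega) (by omega) (by omega)]
      have e : (u.val : ℤ) - v.val - 1 = -((N : ℤ) + 3) := by omega
      rw [e, ds_neg, ds_k]
      push_cast
      ring
    · rw [if_neg a, ds_other N ((u.val : ℤ) - v.val + 1) (by omega) (by omega) (by omega)]
      have e : (u.val : ℤ) - v.val - 1 = 0 := by omega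
      rw [e, ds_zero]
      push_cast
      ring
  · rw [if_neg h1]
    have n1 : ¬ ((v.val = N + 2 ∧ u.val = 0) ∨ (v.val ≠ N + 2 ∧ u.val = v.val + 1)) :=
      fun h => h1 ((succ_iff N u v).mpr h)
    by_cases h2 : u + 1 = v
    · rw [if_pos h2, wt_val]
      rcases (succ_iff N v u).mp h2 with ⟨a, b⟩ | ⟨a, b⟩
      · rw [if_pos a, ds_other N ((u.val : ℤ) - v.val - 1) (by omega) (by omega) (by omega)]
        have e : (u.val : ℤ) - v.val + 1 = (N : ℤ) + 3 := by omega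
        rw [e, ds_k]
        push_cast
        ring
      · rw [if_neg a, ds_other N ((u.val : ℤ) - v.val - 1) (by omega) (by omega) (by omega)]
        have e : (u.val : ℤ) - v.val + 1 = 0 := by omega
        rw [e, ds_zero]
        push_cast
        ring
    · rw [if_neg h2]
      have n2 : ¬ ((u.val = N + 2 ∧ v.val = 0) ∨ (u.val ≠ N + 2 ∧ v.val = u.val + 1)) :=
        fun h => h2 ((succ_iff N v u).mpr h)
      rw [ds_other N ((u.val : ℤ) - v.val + 1) (by omega) (by omega) (by omega),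
        ds_other N ((u.val : ℤ) - v.val - 1) (by omega) (by omega) (by omega)]
      simp

/-- eigenvectors from antiperiodic functions -/
lemma eig (N : ℕ) (F : ℝ → ℝ) (hF : ∀ t, F (t + Real.pi) = - F t) (v : Fin (N + 3)) :
    ∑ u : Fin (N + 3), F (Real.pi * (u.val : ℝ) / (N + 3)) * ((A (-1) u v : ℤ) : ℝ)
      = F (Real.pi * (v.val : ℝ) / (N + 3) + Real.pi / (N + 3))
        + F (Real.pi * (v.val : ℝ) / (N + 3) - Real.pi / (N + 3)) := by
  have hk := K_pos N
  have hsplit : ∀ u : Fin (N + 3), F (Real.pi * (u.val : ℝ) / (N + 3)) * ((A (-1) u v : ℤ) : ℝ)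
      = (if u = v + 1 then F (Real.pi * (v.val : ℝ) / (N + 3) + Real.pi / (N + 3)) else 0)
        + (if u = v - 1 then F (Real.pi * (v.val : ℝ) / (N + 3) - Real.pi / (N + 3)) else 0) := by
    intro u
    have hu := u.isLt
    have hv := v.isLt
    unfold A
    by_cases h1 : v + 1 = u
    · have h3 : ¬ u = v - 1 := by
        intro h
        have h4 : u + 1 = v := by rw [h]; simp
        rcases (succ_iff N u v).mp h1 with ⟨a, b⟩ | ⟨a, b⟩ <;>
          rcases (succ_iff N v u).mp h4 with ⟨c, d⟩ | ⟨c, d⟩ <;> omega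
      rw [if_pos h1, if_pos h1.symm, if_neg h3, wt_val, add_zero]
      rcases (succ_iff N u v).mp h1 with ⟨a, b⟩ | ⟨a, b⟩
      · rw [if_pos a, a, b]
        have e : Real.pi * (((N + 2 : ℕ)) : ℝ) / (N + 3) + Real.pi / (N + 3) = 0 + Real.pi := by
          push_cast
          field_simp
          ring
        rw [e, hF]
        simp
      · rw [if_neg a, b]
        have e : Real.pi * ((v.val + 1 : ℕ) : ℝ) / (N + 3)
            = Real.pi * (v.val : ℝ) / (N + 3) + Real.pi / (N + 3) := by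
          push_cast
          ring
        rw [e]
        simp
    · rw [if_neg h1, if_neg (show ¬ u = v + 1 from fun h => h1 h.symm), zero_add]
      by_cases h2 : u + 1 = v
      · have h3 : u = v - 1 := by rw [← h2]; simp
        rw [if_pos h2, if_pos h3, wt_val]
        rcases (succ_iff N v u).mp h2 with ⟨a, b⟩ | ⟨a, b⟩
        · rw [if_pos a, a, b]
          have e : Real.pi * (((N + 2 : ℕ)) : ℝ) / (N + 3)
              = (Real.pi * ((0 : ℕ) : ℝ) / (N + 3) - Real.pi / (N + 3)) + Real.pi := by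
            push_cast
            field_simp
            ring
          rw [e, hF]
          push_cast
          ring
        · rw [if_neg a, b]
          have e : Real.pi * ((u.val + 1 : ℕ) : ℝ) / (N + 3) - Real.pi / (N + 3)
              = Real.pi * (u.val : ℝ) / (N + 3) := by
            push_cast
            ring
          rw [e]
          simp
      · have h3 : ¬ u = v - 1 := by
          intro h
          apply h2
          rw [h]; simp
        rw [if_neg h2, if_neg h3]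
        simp
  rw [sum_congr rfl (fun u _ => hsplit u), sum_add_distrib, Finset.sum_ite_eq', Finset.sum_ite_eq']
  simp

lemma sum_cc (N : ℕ) : ∑ v ∈ range (N + 3), Real.cos (2 * (v : ℝ) * (Real.pi / (N + 3))) = 0 := by
  have hk := K_pos N
  have h2 : 0 < Real.sin (Real.pi / (N + 3)) := by
    apply Real.sin_pos_of_pos_of_lt_pi (by positivity)
    rw [div_lt_iff₀ hk]
    nlinarith [Real.pi_pos, (Nat.cast_nonneg N : (0:ℝ) ≤ N)]
  have h3 := telc (Real.pi / (N + 3)) (N + 3)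
  have h4 : (2 * ((N + 3 : ℕ) : ℝ) - 1) * (Real.pi / (N + 3))
      = 2 * Real.pi - Real.pi / (N + 3) := by
    push_cast
    field_simp
  rw [h4, Real.sin_two_pi_sub] at h3
  have h5 : 2 * Real.sin (Real.pi / (N + 3))
      * ∑ v ∈ range (N + 3), Real.cos (2 * (v : ℝ) * (Real.pi / (N + 3))) = 0 := by
    rw [h3]; ring
  rcases mul_eq_zero.mp h5 with h6 | h6
  · linarith
  · exact h6

lemma sum_ss (N : ℕ) : ∑ v ∈ range (N + 3), Real.sin (2 * (v : ℝ) * (Real.pi / (N + 3))) = 0 := by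
  have hk := K_pos N
  have h2 : 0 < Real.sin (Real.pi / (N + 3)) := by
    apply Real.sin_pos_of_pos_of_lt_pi (by positivity)
    rw [div_lt_iff₀ hk]
    nlinarith [Real.pi_pos, (Nat.cast_nonneg N : (0:ℝ) ≤ N)]
  have h3 := tels (Real.pi / (N + 3)) (N + 3)
  have h4 : (2 * ((N + 3 : ℕ) : ℝ) - 1) * (Real.pi / (N + 3))
      = 2 * Real.pi - Real.pi / (N + 3) := by
    push_cast
    field_simp
  rw [h4, Real.cos_two_pi_sub] at h3
  have h5 : 2 * Real.sin (Real.pi / (N + 3))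
      * ∑ v ∈ range (N + 3), Real.sin (2 * (v : ℝ) * (Real.pi / (N + 3))) = 0 := by
    rw [h3]; ring
  rcases mul_eq_zero.mp h5 with h6 | h6
  · linarith
  · exact h6

lemma sum_pp (N : ℕ) :
    ∑ v : Fin (N + 3), Real.cos (Real.pi * (v.val : ℝ) / (N + 3)) ^ 2 = ((N : ℝ) + 3) / 2 := by
  rw [Fin.sum_univ_eq_sum_range (fun v : ℕ => Real.cos (Real.pi * (v : ℝ) / (N + 3)) ^ 2) (N + 3)]
  have h : ∀ v ∈ range (N + 3), Real.cos (Real.pi * (v : ℝ) / (N + 3)) ^ 2
      = 1 / 2 + 1 / 2 * Real.cos (2 * (v : ℝ) * (Real.pi / (N + 3))) := by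
    intro v _
    have e : 2 * (v : ℝ) * (Real.pi / (N + 3)) = 2 * (Real.pi * (v : ℝ) / (N + 3)) := by ring
    rw [e, Real.cos_two_mul]
    ring
  rw [sum_congr rfl h, sum_add_distrib, ← mul_sum, sum_cc]
  simp
  ring

lemma sum_qq (N : ℕ) :
    ∑ v : Fin (N + 3), Real.sin (Real.pi * (v.val : ℝ) / (N + 3)) ^ 2 = ((N : ℝ) + 3) / 2 := by
  have h : ∀ v : Fin (N + 3), Real.sin (Real.pi * (v.val : ℝ) / (N + 3)) ^ 2
      = 1 - Real.cos (Real.pi * (v.val : ℝ) / (N + 3)) ^ 2 := by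
    intro v
    rw [Real.sin_sq]
  rw [sum_congr rfl (fun v _ => h v), sum_sub_distrib, sum_pp]
  simp
  ring

lemma sum_pq (N : ℕ) :
    ∑ v : Fin (N + 3), Real.cos (Real.pi * (v.val : ℝ) / (N + 3))
      * Real.sin (Real.pi * (v.val : ℝ) / (N + 3)) = 0 := by
  rw [Fin.sum_univ_eq_sum_range (fun v : ℕ => Real.cos (Real.pi * (v : ℝ) / (N + 3))
    * Real.sin (Real.pi * (v : ℝ) / (N + 3))) (N + 3)]
  have h : ∀ v ∈ range (N + 3), Real.cos (Real.pi * (v : ℝ) / (N + 3))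
      * Real.sin (Real.pi * (v : ℝ) / (N + 3))
      = 1 / 2 * Real.sin (2 * (v : ℝ) * (Real.pi / (N + 3))) := by
    intro v _
    have e : 2 * (v : ℝ) * (Real.pi / (N + 3)) = 2 * (Real.pi * (v : ℝ) / (N + 3)) := by ring
    rw [e, Real.sin_two_mul]
    ring
  rw [sum_congr rfl h, ← mul_sum, sum_ss]
  simp

/-- power of the frequency `j` -/
noncomputable def PP (N : ℕ) (x : Fin (N + 3) → ℝ) (j : ℕ) : ℝ :=
  (∑ v, x v * Real.cos ((2 * (j : ℝ) + 1) * (Real.pi * (v.val : ℝ) / (N + 3)))) ^ 2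
    + (∑ v, x v * Real.sin ((2 * (j : ℝ) + 1) * (Real.pi * (v.val : ℝ) / (N + 3)))) ^ 2

lemma PP_eq (N : ℕ) (x : Fin (N + 3) → ℝ) (j : ℕ) :
    PP N x j = ∑ u, ∑ v, x u * x v
      * Real.cos ((2 * (j : ℝ) + 1) * (Real.pi * (((u.val : ℤ) - v.val : ℤ) : ℝ) / (N + 3))) := by
  unfold PP
  rw [sq, sq, sum_mul_sum, sum_mul_sum, ← sum_add_distrib]
  apply sum_congr rfl
  intro u _
  rw [← sum_add_distrib]
  apply sum_congr rfl
  intro v _
  have e : (2 * (j : ℝ) + 1) * (Real.pi * (((u.val : ℤ) - v.val : ℤ) : ℝ) / (N + 3))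
      = (2 * (j : ℝ) + 1) * (Real.pi * (u.val : ℝ) / (N + 3))
        - (2 * (j : ℝ) + 1) * (Real.pi * (v.val : ℝ) / (N + 3)) := by
    push_cast
    ring
  rw [e, Real.cos_sub]
  ring

lemma parseval (N : ℕ) (x : Fin (N + 3) → ℝ) :
    ∑ j ∈ range (N + 3), PP N x j = ((N : ℝ) + 3) * ∑ v, x v ^ 2 := by
  simp_rw [PP_eq]
  rw [sum_comm, mul_sum]
  apply sum_congr rfl
  intro u _
  rw [sum_comm]
  have h : ∀ v ∈ (univ : Finset (Fin (N + 3))), ∑ j ∈ range (N + 3), x u * x v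
      * Real.cos ((2 * (j : ℝ) + 1) * (Real.pi * (((u.val : ℤ) - v.val : ℤ) : ℝ) / (N + 3)))
      = if v = u then x u * x v * ((N : ℝ) + 3) else 0 := by
    intro v _
    rw [← mul_sum]
    have e : ∑ j ∈ range (N + 3), Real.cos ((2 * (j : ℝ) + 1)
        * (Real.pi * (((u.val : ℤ) - v.val : ℤ) : ℝ) / (N + 3))) = ds N ((u.val : ℤ) - v.val) := rfl
    rw [e]
    have hu := u.isLt
    have hv := v.isLt
    by_cases huv : v = u
    · rw [if_pos huv, huv, sub_self, ds_zero]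
    · have : v.val ≠ u.val := fun h => huv (Fin.ext h)
      rw [if_neg huv, ds_other N _ (by omega) (by omega) (by omega), mul_zero]
  rw [sum_congr rfl h, Finset.sum_ite_eq']
  simp
  ring

lemma quad (N : ℕ) (x : Fin (N + 3) → ℝ) :
    ∑ j ∈ range (N + 3), 2 * Real.cos ((2 * (j : ℝ) + 1) * (Real.pi / (N + 3))) * PP N x j
      = ((N : ℝ) + 3) * ∑ u, ∑ v, x u * ((A (-1) u v : ℤ) : ℝ) * x v := by
  simp_rw [PP_eq, mul_sum]
  rw [sum_comm]
  apply sum_congr rfl
  intro u _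
  rw [sum_comm]
  apply sum_congr rfl
  intro v _
  have e0 : ((N : ℝ) + 3) * (x u * ((A (-1) u v : ℤ) : ℝ) * x v)
      = x u * x v * (((A (-1) u v : ℤ) : ℝ) * ((N : ℝ) + 3)) := by ring
  rw [e0, A_val]
  unfold ds
  rw [← sum_add_distrib, mul_sum]
  apply sum_congr rfl
  intro j _
  have e1 : (2 * (j : ℝ) + 1) * (Real.pi * (((u.val : ℤ) - v.val + 1 : ℤ) : ℝ) / (N + 3))
      = (2 * (j : ℝ) + 1) * (Real.pi * (((u.val : ℤ) - v.val : ℤ) : ℝ) / (N + 3))
        + (2 * (j : ℝ) + 1) * (Real.pi / (N + 3)) := by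
    push_cast
    ring
  have e2 : (2 * (j : ℝ) + 1) * (Real.pi * (((u.val : ℤ) - v.val - 1 : ℤ) : ℝ) / (N + 3))
      = (2 * (j : ℝ) + 1) * (Real.pi * (((u.val : ℤ) - v.val : ℤ) : ℝ) / (N + 3))
        - (2 * (j : ℝ) + 1) * (Real.pi / (N + 3)) := by
    push_cast
    ring
  rw [e1, e2, Real.cos_add, Real.cos_sub]
  ring

lemma cos_le (N : ℕ) (j : ℕ) (h1 : 1 ≤ j) (h2 : j + 2 ≤ N + 3) :
    Real.cos ((2 * (j : ℝ) + 1) * (Real.pi / (N + 3))) ≤ Real.cos (3 * (Real.pi / (N + 3))) := by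
  have hk := K_pos N
  have hpi := Real.pi_pos
  set s : ℝ := Real.pi / (N + 3) with hs
  have hs0 : 0 < s := by positivity
  have hks : ((N : ℝ) + 3) * s = Real.pi := by
    rw [hs]; field_simp
  have hj1 : (1 : ℝ) ≤ j := by exact_mod_cast h1
  have hj2 : (j : ℝ) + 2 ≤ (N : ℝ) + 3 := by exact_mod_cast h2
  rcases le_total ((2 * (j : ℝ) + 1) * s) Real.pi with h | h
  · exact Real.cos_le_cos_of_nonneg_of_le_pi (by positivity) h (by nlinarith)
  · rw [← Real.cos_two_pi_sub]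
    apply Real.cos_le_cos_of_nonneg_of_le_pi (by positivity) (by linarith)
    nlinarith

lemma PP_zero (N : ℕ) (x : Fin (N + 3) → ℝ)
    (hp : ∑ v, Real.cos (Real.pi * (v.val : ℝ) / (N + 3)) * x v = 0)
    (hq : ∑ v, Real.sin (Real.pi * (v.val : ℝ) / (N + 3)) * x v = 0) : PP N x 0 = 0 := by
  unfold PP
  have e1 : ∑ v, x v * Real.cos ((2 * ((0 : ℕ) : ℝ) + 1) * (Real.pi * (v.val : ℝ) / (N + 3)))
      = ∑ v, Real.cos (Real.pi * (v.val : ℝ) / (N + 3)) * x v := by
    apply sum_congr rfl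
    intro v _
    push_cast
    rw [mul_zero, zero_add, one_mul, mul_comm]
  have e2 : ∑ v, x v * Real.sin ((2 * ((0 : ℕ) : ℝ) + 1) * (Real.pi * (v.val : ℝ) / (N + 3)))
      = ∑ v, Real.sin (Real.pi * (v.val : ℝ) / (N + 3)) * x v := by
    apply sum_congr rfl
    intro v _
    push_cast
    rw [mul_zero, zero_add, one_mul, mul_comm]
  rw [e1, e2, hp, hq]
  simp

lemma PP_last (N : ℕ) (x : Fin (N + 3) → ℝ)
    (hp : ∑ v, Real.cos (Real.pi * (v.val : ℝ) / (N + 3)) * x v = 0)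
    (hq : ∑ v, Real.sin (Real.pi * (v.val : ℝ) / (N + 3)) * x v = 0) : PP N x (N + 2) = 0 := by
  have hk := K_pos N
  unfold PP
  have e0 : ∀ v : Fin (N + 3), (2 * ((N + 2 : ℕ) : ℝ) + 1) * (Real.pi * (v.val : ℝ) / (N + 3))
      = (v.val : ℝ) * (2 * Real.pi) - Real.pi * (v.val : ℝ) / (N + 3) := by
    intro v
    push_cast
    field_simp
    ring
  have e1 : ∑ v, x v * Real.cos ((2 * ((N + 2 : ℕ) : ℝ) + 1) * (Real.pi * (v.val : ℝ) / (N + 3)))
      = ∑ v, Real.cos (Real.pi * (v.val : ℝ) / (N + 3)) * x v := by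
    apply sum_congr rfl
    intro v _
    rw [e0, Real.cos_nat_mul_two_pi_sub, mul_comm]
  have e2 : ∑ v, x v * Real.sin ((2 * ((N + 2 : ℕ) : ℝ) + 1) * (Real.pi * (v.val : ℝ) / (N + 3)))
      = - ∑ v, Real.sin (Real.pi * (v.val : ℝ) / (N + 3)) * x v := by
    rw [← sum_neg_distrib]
    apply sum_congr rfl
    intro v _
    rw [e0, Real.sin_nat_mul_two_pi_sub]
    ring
  rw [e1, e2, hp, hq]
  simp

lemma PP_nonneg (N : ℕ) (x : Fin (N + 3) → ℝ) (j : ℕ) : 0 ≤ PP N x j := by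
  unfold PP
  positivity

theorem t : H483C.TaskSpec2 := by
  intro N hN
  have hk := K_pos N
  have hpi := Real.pi_pos
  have hN' : (1 : ℝ) ≤ N := by exact_mod_cast hN
  have hs0 : 0 < Real.pi / ((N : ℝ) + 3) := by positivity
  have hks : ((N : ℝ) + 3) * (Real.pi / ((N : ℝ) + 3)) = Real.pi := by field_simp
  have hs1 : Real.pi / ((N : ℝ) + 3) < Real.pi / 3 :=
    div_lt_div_of_pos_left hpi (by norm_num) (by linarith)
  have hlam : 1 / 2 < Real.cos (Real.pi / ((N : ℝ) + 3)) := by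
    rw [← Real.cos_pi_div_three]
    exact Real.cos_lt_cos_of_nonneg_of_le_pi hs0.le (by linarith) hs1
  refine ⟨max 0 (2 * Real.cos (3 * (Real.pi / ((N : ℝ) + 3)))), ?_, ?_, ?_, ?_, ?_, ?_, ?_, ?_, ?_, ?_⟩
  · linarith
  · linarith [Real.cos_le_one (Real.pi / ((N : ℝ) + 3))]
  · intro v
    exact Real.cos_sq_add_sin_sq _
  · intro v
    have h := eig N Real.cos (fun t => Real.cos_add_pi t) v
    refine h.trans ?_
    rw [Real.cos_add, Real.cos_sub]
    ring
  · intro v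
    have h := eig N Real.sin (fun t => Real.sin_add_pi t) v
    refine h.trans ?_
    rw [Real.sin_add, Real.sin_sub]
    ring
  · intro x
    set P : ℝ := ∑ u : Fin (N + 3), Real.cos (Real.pi * ((u : ℕ) : ℝ) / (N + 3)) * x u with hP
    set Q : ℝ := ∑ u : Fin (N + 3), Real.sin (Real.pi * ((u : ℕ) : ℝ) / (N + 3)) * x u with hQ
    have e : ∀ v : Fin (N + 3), Real.cos (Real.pi * ((v : ℕ) : ℝ) / (N + 3))
        * (x v - 2 / ((N : ℝ) + 3) * (Real.cos (Real.pi * ((v : ℕ) : ℝ) / (N + 3)) * P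
          + Real.sin (Real.pi * ((v : ℕ) : ℝ) / (N + 3)) * Q))
        = Real.cos (Real.pi * ((v : ℕ) : ℝ) / (N + 3)) * x v
          - 2 / ((N : ℝ) + 3) * P * Real.cos (Real.pi * ((v : ℕ) : ℝ) / (N + 3)) ^ 2
          - 2 / ((N : ℝ) + 3) * Q * (Real.cos (Real.pi * ((v : ℕ) : ℝ) / (N + 3))
            * Real.sin (Real.pi * ((v : ℕ) : ℝ) / (N + 3))) := by
      intro v
      ring
    rw [sum_congr rfl (fun v _ => e v), sum_sub_distrib, sum_sub_distrib, ← mul_sum, ← mul_sum,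
      sum_pp, sum_pq, ← hP]
    field_simp
    ring
  · intro x
    set P : ℝ := ∑ u : Fin (N + 3), Real.cos (Real.pi * ((u : ℕ) : ℝ) / (N + 3)) * x u with hP
    set Q : ℝ := ∑ u : Fin (N + 3), Real.sin (Real.pi * ((u : ℕ) : ℝ) / (N + 3)) * x u with hQ
    have e : ∀ v : Fin (N + 3), Real.sin (Real.pi * ((v : ℕ) : ℝ) / (N + 3))
        * (x v - 2 / ((N : ℝ) + 3) * (Real.cos (Real.pi * ((v : ℕ) : ℝ) / (N + 3)) * P
          + Real.sin (Real.pi * ((v : ℕ) : ℝ) / (N + 3)) * Q))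
        = Real.sin (Real.pi * ((v : ℕ) : ℝ) / (N + 3)) * x v
          - 2 / ((N : ℝ) + 3) * P * (Real.cos (Real.pi * ((v : ℕ) : ℝ) / (N + 3))
            * Real.sin (Real.pi * ((v : ℕ) : ℝ) / (N + 3)))
          - 2 / ((N : ℝ) + 3) * Q * Real.sin (Real.pi * ((v : ℕ) : ℝ) / (N + 3)) ^ 2 := by
      intro v
      ring
    rw [sum_congr rfl (fun v _ => e v), sum_sub_distrib, sum_sub_distrib, ← mul_sum, ← mul_sum,
      sum_qq, sum_pq, ← hQ]
    field_simp
    ring
  · exact le_max_left _ _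
  · apply max_lt (by linarith)
    have : Real.cos (3 * (Real.pi / ((N : ℝ) + 3))) < Real.cos (Real.pi / ((N : ℝ) + 3)) := by
      apply Real.cos_lt_cos_of_nonneg_of_le_pi hs0.le (by nlinarith) (by linarith)
    linarith
  · intro x hp hq
    set L : ℝ := max 0 (2 * Real.cos (3 * (Real.pi / ((N : ℝ) + 3)))) with hL
    have h1 := quad N x
    have h2 := parseval N x
    have h3 : ∑ j ∈ range (N + 3), 2 * Real.cos ((2 * (j : ℝ) + 1) * (Real.pi / (N + 3))) * PP N x j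
        ≤ ∑ j ∈ range (N + 3), L * PP N x j := by
      apply sum_le_sum
      intro j hj
      have hj' := mem_range.mp hj
      by_cases h0 : j = 0
      · rw [h0, PP_zero N x hp hq]
        simp
      · by_cases h4 : j = N + 2
        · rw [h4, PP_last N x hp hq]
          simp
        · apply mul_le_mul_of_nonneg_right _ (PP_nonneg N x j)
          have h5 := cos_le N j (by omega) (by omega)
          exact le_trans (by linarith) (le_max_right _ _)
    rw [← mul_sum, h1, h2] at h3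
    have h6 : ((N : ℝ) + 3) * ∑ u, ∑ v, x u * ((A (-1) u v : ℤ) : ℝ) * x v
        ≤ ((N : ℝ) + 3) * (L * ∑ v, x v ^ 2) := by
      calc _ ≤ L * (((N : ℝ) + 3) * ∑ v, x v ^ 2) := h3
        _ = _ := by ring
    exact le_of_mul_le_mul_left h6 hk

end H483C.TaskSpec2
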